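import Pool.Graph.R_pool_sql_team_seeded_35f281b4.K7.H77.WG.L2

set_option autoImplicit false

/-! # Finite sets of integers blown up to functions on the line, and their smoothed differences -/

namespace Pool.Agent.H96.WG

open MeasureTheory Set
open Pool.Agent.K7.H77.WG (CB ac abs_ac_le ac_cont swap2 int_eq_interval)

/-- a hat of width `1/4` -/
noncomputable def hat (x : ℝ) : ℝ := max 0 (1 - 8 * |x|)

lemma hat_cont : Continuous hat := by unfold hat; fun_prop

lemma hat_nonneg (x : ℝ) : 0 ≤ hat x := le_max_left _ _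

lemma hat_le (x : ℝ) : hat x ≤ 1 := by
  unfold hat
  apply max_le (by norm_num)
  have := abs_nonneg x
  linarith

lemma hat_zero {x : ℝ} (hx : 1 / 8 ≤ |x|) : hat x = 0 := by
  unfold hat
  apply max_eq_left
  linarith

lemma hat_CB : CB hat := ⟨hat_cont, 1, by norm_num, fun x hx => hat_zero (by linarith)⟩

/-- the mass of the hat -/
noncomputable def mass : ℝ := ∫ x, hat x

lemma mass_pos : 0 < mass := by
  apply hat_cont.integral_pos_of_hasCompactSupport_nonneg_nonzero hat_CB.hcs hat_nonneg (x := 0)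
  unfold hat
  simp

/-- the function of a set -/
noncomputable def F (A : Finset ℕ) (x : ℝ) : ℝ := ∑ a ∈ A, hat (x - a)

lemma F_cont (A : Finset ℕ) : Continuous (F A) := by
  unfold F
  exact continuous_finsetSum _ fun a _ => hat_cont.comp (by fun_prop)

lemma F_nonneg (A : Finset ℕ) (x : ℝ) : 0 ≤ F A x := Finset.sum_nonneg fun _ _ => hat_nonneg _

lemma F_le (A : Finset ℕ) (x : ℝ) : F A x ≤ 1 := by
  unfold F
  by_cases h : ∃ a ∈ A, |x - (a : ℝ)| < 1 / 8
  · obtain ⟨a, ha, h1⟩ := h
    rw [Finset.sum_eq_single a]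
    · exact hat_le _
    · intro b _ hba
      apply hat_zero
      have h2 : (1 : ℝ) ≤ |(b : ℝ) - a| := by
        have h3 : (1 : ℤ) ≤ |(b : ℤ) - a| := Int.one_le_abs (by omega)
        exact_mod_cast h3
      have h3 := abs_sub_le (b : ℝ) x a
      rw [abs_sub_comm (b : ℝ) x] at h3
      linarith
    · intro h2
      exact (h2 ha).elim
  · push Not at h
    rw [Finset.sum_eq_zero fun a ha => hat_zero (h a ha)]
    norm_num

/-- the support of `F` -/
lemma F_supp (A : Finset ℕ) (M : ℝ) (hM : ∀ a ∈ A, (a : ℝ) ≤ M) {x : ℝ} (hx : x ≤ -1 ∨ M + 1 ≤ x) : F A x = 0 := by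
  unfold F
  apply Finset.sum_eq_zero
  intro a ha
  apply hat_zero
  have h1 := hM a ha
  have h2 : (0 : ℝ) ≤ a := Nat.cast_nonneg a
  rcases hx with h | h
  · rw [abs_of_neg (by linarith)]
    linarith
  · rw [abs_of_pos (by linarith)]
    linarith

lemma exM (A : Finset ℕ) : ∃ M : ℝ, 0 ≤ M ∧ ∀ a ∈ A, (a : ℝ) ≤ M :=
  ⟨∑ a ∈ A, (a : ℝ), by positivity, fun a ha => Finset.single_le_sum (f := fun a : ℕ => (a : ℝ)) (fun _ _ => Nat.cast_nonneg _) ha⟩

lemma F_CB (A : Finset ℕ) : CB (F A) := by
  obtain ⟨M, hM0, hM⟩ := exM A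
  refine ⟨F_cont A, M + 1, by linarith, fun x hx => F_supp A M hM ?_⟩
  rcases lt_abs.1 hx with h | h
  · exact Or.inr h.le
  · left; linarith

lemma F_int (A : Finset ℕ) : ∫ x, F A x = A.card * mass := by
  unfold F
  rw [integral_finsetSum _ fun a _ => hat_CB.integrable.comp_sub_right _]
  have h1 : ∀ a ∈ A, ∫ x, hat (x - (a : ℝ)) = mass := fun a _ => integral_sub_right_eq_self hat (a : ℝ)
  rw [Finset.sum_congr rfl h1, Finset.sum_const, nsmul_eq_mul]

/-- the primitive -/
noncomputable def Ph (A : Finset ℕ) (x : ℝ) : ℝ := ∫ u in (-1 : ℝ)..x, F A u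

lemma F_ii (A : Finset ℕ) (a b : ℝ) : IntervalIntegrable (F A) volume a b := (F_cont A).intervalIntegrable _ _

lemma Ph_sub (A : Finset ℕ) (a b : ℝ) : Ph A b - Ph A a = ∫ u in a..b, F A u := by
  unfold Ph
  rw [intervalIntegral.integral_interval_sub_left (F_ii _ _ _) (F_ii _ _ _)]

lemma Ph_mono (A : Finset ℕ) {a b : ℝ} (h : a ≤ b) : Ph A a ≤ Ph A b := by
  rw [← sub_nonneg, Ph_sub]
  exact intervalIntegral.integral_nonneg h fun x _ => F_nonneg A x

lemma Ph_lip (A : Finset ℕ) {a b : ℝ} (h : a ≤ b) : Ph A b - Ph A a ≤ b - a := by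
  rw [Ph_sub]
  have h1 : ∫ u in a..b, F A u ≤ ∫ u in a..b, (1 : ℝ) :=
    intervalIntegral.integral_mono_on h (F_ii _ _ _) intervalIntegrable_const fun x _ => F_le A x
  simpa using h1

lemma Ph_cont (A : Finset ℕ) : Continuous (Ph A) := by
  unfold Ph
  exact intervalIntegral.continuous_primitive (F_ii A) _

/-- the smoothed function -/
noncomputable def FL (A : Finset ℕ) (L x : ℝ) : ℝ := (Ph A x - Ph A (x - L)) / L

lemma FL_nonneg (A : Finset ℕ) {L : ℝ} (hL : 0 < L) (x : ℝ) : 0 ≤ FL A L x :=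
  div_nonneg (by have := Ph_mono A (show x - L ≤ x by linarith); linarith) hL.le

lemma FL_le (A : Finset ℕ) {L : ℝ} (hL : 0 < L) (x : ℝ) : FL A L x ≤ 1 := by
  unfold FL
  rw [div_le_one hL]
  have := Ph_lip A (show x - L ≤ x by linarith)
  linarith

lemma FL_cont (A : Finset ℕ) (L : ℝ) : Continuous (FL A L) := by
  unfold FL
  exact ((Ph_cont A).sub ((Ph_cont A).comp (by fun_prop))).div_const _

lemma FL_supp (A : Finset ℕ) (M : ℝ) (hM : ∀ a ∈ A, (a : ℝ) ≤ M) {L : ℝ} (hL : 0 < L) {x : ℝ} (hx : x ≤ -1 ∨ M + 1 + L ≤ x) :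
    FL A L x = 0 := by
  unfold FL
  rw [Ph_sub]
  have h1 : ∫ u in (x - L)..x, F A u = 0 := by
    rw [intervalIntegral.integral_congr (g := fun _ => (0 : ℝ))]
    · simp
    · intro u hu
      rw [uIcc_of_le (by linarith)] at hu
      apply F_supp A M hM
      rcases hx with h | h
      · left; linarith [hu.2]
      · right; linarith [hu.1]
  rw [h1, zero_div]

lemma FL_CB (A : Finset ℕ) {L : ℝ} (hL : 0 < L) : CB (FL A L) := by
  obtain ⟨M, hM0, hM⟩ := exM A
  refine ⟨FL_cont A L, M + 1 + L, by linarith, fun x hx => FL_supp A M hM hL ?_⟩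
  rcases lt_abs.1 hx with h | h
  · exact Or.inr h.le
  · left; linarith

lemma FL_int (A : Finset ℕ) {L : ℝ} (hL : 0 < L) : ∫ x, FL A L x = A.card * mass := by
  obtain ⟨M, hM0, hM⟩ := exM A
  obtain ⟨R, hR⟩ : ∃ R : ℝ, R = M + 1 + L := ⟨_, rfl⟩
  have hR0 : 0 ≤ R := by linarith
  have h1 : ∀ x, FL A L x = (∫ s in (0 : ℝ)..L, F A (x - s)) / L := by
    intro x
    unfold FL
    rw [Ph_sub, intervalIntegral.integral_comp_sub_left (fun u => F A u) x, sub_zero]
  rw [int_eq_interval hR0 (fun x hx => FL_supp A M hM hL (by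
    rcases lt_abs.1 hx with h | h
    · right; linarith
    · left; linarith))]
  simp_rw [h1]
  rw [intervalIntegral.integral_div, swap2 (F := fun x s => F A (x - s)) (by
    have := F_cont A
    fun_prop)]
  have h2 : ∀ s ∈ uIcc (0 : ℝ) L, ∫ x in (-R)..R, F A (x - s) = A.card * mass := by
    intro s hs
    rw [uIcc_of_le hL.le] at hs
    rw [← int_eq_interval (h := fun x => F A (x - s)) hR0 (fun x hx => F_supp A M hM (by
      rcases lt_abs.1 hx with h | h
      · right; linarith [hs.2]
      · left; linarith [hs.1]))]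
    rw [integral_sub_right_eq_self (F A) s, F_int]
  rw [intervalIntegral.integral_congr h2]
  simp
  field_simp

/-- the difference -/
noncomputable def D (A : Finset ℕ) (L x : ℝ) : ℝ := F A x - FL A L x

lemma D_CB (A : Finset ℕ) {L : ℝ} (hL : 0 < L) : CB (D A L) := by
  obtain ⟨R₁, h1, h2⟩ := (F_CB A).supp
  obtain ⟨R₂, h3, h4⟩ := (FL_CB A hL).supp
  refine ⟨(F_cont A).sub (FL_cont A L), max R₁ R₂, le_max_of_le_left h1, fun x hx => ?_⟩
  unfold D
  rw [h2 x ((le_max_left _ _).trans_lt hx), h4 x ((le_max_right _ _).trans_lt hx), sub_zero]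

lemma D_abs (A : Finset ℕ) {L : ℝ} (hL : 0 < L) (x : ℝ) : |D A L x| ≤ 1 := by
  unfold D
  rw [abs_le]
  have h1 := F_nonneg A x
  have h2 := F_le A x
  have h3 := FL_nonneg A hL x
  have h4 := FL_le A hL x
  constructor <;> linarith

lemma D_l1 (A : Finset ℕ) {L : ℝ} (hL : 0 < L) : ∫ x, |D A L x| ≤ 2 * (A.card * mass) := by
  have h1 : ∫ x, |D A L x| ≤ ∫ x, (F A x + FL A L x) := by
    apply integral_mono (D_CB A hL).integrable.abs ((F_CB A).integrable.add (FL_CB A hL).integrable)
    intro x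
    show |F A x - FL A L x| ≤ F A x + FL A L x
    rw [abs_le]
    have h1 := F_nonneg A x
    have h3 := FL_nonneg A hL x
    constructor <;> linarith
  rw [integral_add (F_CB A).integrable (FL_CB A hL).integrable, F_int, FL_int A hL] at h1
  linarith

/-- the integral of the difference over any interval is small -/
lemma D_interval (A : Finset ℕ) {L : ℝ} (hL : 0 < L) (a b : ℝ) : |∫ u in a..b, D A L u| ≤ L := by
  have hc := Ph_cont A
  have ii : ∀ p q : ℝ, IntervalIntegrable (Ph A) volume p q := fun p q => hc.intervalIntegrable _ _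
  have h1 : ∫ u in a..b, D A L u = (Ph A b - (∫ u in (b - L)..b, Ph A u) / L) - (Ph A a - (∫ u in (a - L)..a, Ph A u) / L) := by
    unfold D FL
    rw [intervalIntegral.integral_sub (F_ii _ _ _) (by
      apply Continuous.intervalIntegrable
      exact (hc.sub (hc.comp (by fun_prop))).div_const _), intervalIntegral.integral_div,
      intervalIntegral.integral_sub (ii _ _) (by
        apply Continuous.intervalIntegrable
        exact hc.comp (by fun_prop)),
      intervalIntegral.integral_comp_sub_right (fun u => Ph A u) L, ← Ph_sub]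
    have e1 : (∫ u in a..b, Ph A u) - ∫ u in (a - L)..(b - L), Ph A u = (∫ u in (b - L)..b, Ph A u) - ∫ u in (a - L)..a, Ph A u := by
      have e2 := intervalIntegral.integral_add_adjacent_intervals (ii (a - L) a) (ii a b)
      have e3 := intervalIntegral.integral_add_adjacent_intervals (ii (a - L) (b - L)) (ii (b - L) b)
      linarith
    rw [e1]
    ring
  have key : ∀ x : ℝ, 0 ≤ Ph A x - (∫ u in (x - L)..x, Ph A u) / L ∧ Ph A x - (∫ u in (x - L)..x, Ph A u) / L ≤ L := by
    intro x
    have h2 : ∫ u in (x - L)..x, Ph A u ≤ ∫ _u in (x - L)..x, Ph A x :=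
      intervalIntegral.integral_mono_on (by linarith) (ii _ _) intervalIntegrable_const fun u hu => Ph_mono A hu.2
    have h3 : ∫ _u in (x - L)..x, (Ph A x - L) ≤ ∫ u in (x - L)..x, Ph A u :=
      intervalIntegral.integral_mono_on (by linarith) intervalIntegrable_const (ii _ _) fun u hu => by
        have := Ph_lip A hu.2
        linarith [hu.1]
    rw [intervalIntegral.integral_const, smul_eq_mul] at h2 h3
    have e : x - (x - L) = L := by ring
    rw [e] at h2 h3
    constructor
    · rw [sub_nonneg, div_le_iff₀ hL]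
      linarith
    · have h4 : Ph A x - L ≤ (∫ u in (x - L)..x, Ph A u) / L := by
        rw [le_div_iff₀ hL]
        linarith
      linarith
  rw [h1, abs_le]
  have h2 := key a
  have h3 := key b
  constructor <;> linarith [h2.1, h2.2, h3.1, h3.2]

lemma ac_D_le (A : Finset ℕ) {L : ℝ} (hL : 0 < L) (u : ℝ) : |ac (D A L) u| ≤ 2 * (A.card * mass) := by
  refine (abs_ac_le (D_CB A hL) u).trans (le_trans ?_ (D_l1 A hL))
  apply integral_mono (D_CB A hL).sq.integrable (D_CB A hL).integrable.abs
  intro x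
  have h1 := D_abs A hL x
  simp only
  rw [← sq_abs]
  have h2 := abs_nonneg (D A L x)
  nlinarith

lemma ac_D_interval (A : Finset ℕ) {L : ℝ} (hL : 0 < L) (a b : ℝ) :
    |∫ u in a..b, ac (D A L) u| ≤ 2 * (A.card * mass) * L := by
  have hCB := D_CB A hL
  obtain ⟨R, hR0, hR⟩ := hCB.supp
  have hc := hCB.cont
  have h1 : ∫ u in a..b, ac (D A L) u = ∫ x, D A L x * ∫ u in (x + a)..(x + b), D A L u := by
    have e1 : ∀ u, ac (D A L) u = ∫ x in (-R)..R, D A L x * D A L (x + u) := by
      intro u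
      unfold ac
      exact int_eq_interval hR0 fun x hx => by rw [hR x hx, zero_mul]
    simp_rw [e1]
    rw [swap2 (F := fun u x => D A L x * D A L (x + u)) (by fun_prop)]
    rw [int_eq_interval hR0 fun x hx => by rw [hR x hx, zero_mul]]
    apply intervalIntegral.integral_congr
    intro x _
    simp only
    rw [intervalIntegral.integral_const_mul, intervalIntegral.integral_comp_add_left (fun u => D A L u) x]
  rw [h1]
  refine (abs_integral_le_integral_abs).trans ?_
  have h2 : ∫ x, |D A L x * ∫ u in (x + a)..(x + b), D A L u| ≤ ∫ x, |D A L x| * L := by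
    apply integral_mono_of_nonneg (Filter.Eventually.of_forall fun x => abs_nonneg _) (hCB.integrable.abs.mul_const _)
    refine Filter.Eventually.of_forall fun x => ?_
    simp only
    rw [abs_mul]
    exact mul_le_mul_of_nonneg_left (D_interval A hL _ _) (abs_nonneg _)
  rw [integral_mul_const] at h2
  exact h2.trans (mul_le_mul_of_nonneg_right (D_l1 A hL) hL.le)

end Pool.Agent.H96.WG
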