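import Pool.Agent.H96.WG.A
import Mathlib.NumberTheory.Harmonic.Bounds

set_option autoImplicit false

/-! # The second moment over the coefficient, and representations -/

namespace Pool.Agent.H96.WG

open MeasureTheory Set
open Pool.Agent.K7.H77.WG (CB ac abs_ac_le ac_cont swap2 int_eq_interval)

/-- the energy of the translates -/
noncomputable def En (A : Finset ℕ) (L : ℝ) (Y : Finset ℕ) (p q : ℕ → ℝ) (t : ℝ) : ℝ :=
  ∑ y ∈ Y, ∑ z ∈ Y, ac (D A L) ((t * p y + q y) - (t * p z + q z))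

lemma ac_shift (f : ℝ → ℝ) (a b : ℝ) : ∫ x, f (x - a) * f (x - b) = ac f (a - b) := by
  unfold ac
  rw [← integral_add_right_eq_self (fun x => f (x - a) * f (x - b)) a]
  congr 1
  funext x
  congr 2 <;> ring_nf

lemma shift_int {f : ℝ → ℝ} (h : CB f) (a b : ℝ) : Integrable fun x => f (x - a) * f (x - b) := by
  obtain ⟨R, hR0, hR⟩ := h.supp
  have hc := h.cont
  have h1 : CB fun x => f (x - a) * f (x - b) := by
    refine ⟨by fun_prop, R + |a|, by positivity, fun x hx => ?_⟩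
    rw [hR (x - a) (by have := abs_sub_abs_le_abs_sub x a; linarith), zero_mul]
  exact h1.integrable

lemma En_eq (A : Finset ℕ) {L : ℝ} (hL : 0 < L) (Y : Finset ℕ) (p q : ℕ → ℝ) (t : ℝ) :
    ∫ x, (∑ y ∈ Y, D A L (x - (t * p y + q y))) ^ 2 = En A L Y p q t := by
  have h1 : ∀ x, (∑ y ∈ Y, D A L (x - (t * p y + q y))) ^ 2 =
      ∑ y ∈ Y, ∑ z ∈ Y, D A L (x - (t * p y + q y)) * D A L (x - (t * p z + q z)) := by
    intro x
    rw [sq, Finset.sum_mul_sum]
  simp_rw [h1]
  rw [integral_finsetSum _ fun y _ => integrable_finsetSum _ fun z _ => shift_int (D_CB A hL) _ _]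
  unfold En
  refine Finset.sum_congr rfl fun y _ => ?_
  rw [integral_finsetSum _ fun z _ => shift_int (D_CB A hL) _ _]
  exact Finset.sum_congr rfl fun z _ => ac_shift _ _ _

lemma En_nonneg (A : Finset ℕ) {L : ℝ} (hL : 0 < L) (Y : Finset ℕ) (p q : ℕ → ℝ) (t : ℝ) : 0 ≤ En A L Y p q t := by
  rw [← En_eq A hL]
  exact integral_nonneg fun x => sq_nonneg _

lemma En_cont (A : Finset ℕ) {L : ℝ} (hL : 0 < L) (Y : Finset ℕ) (p q : ℕ → ℝ) : Continuous (En A L Y p q) := by
  unfold En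
  refine continuous_finsetSum _ fun y _ => continuous_finsetSum _ fun z _ => ?_
  exact (ac_cont (D_CB A hL)).comp (by fun_prop)

lemma harm (Y : Finset ℕ) (M : ℕ) (hY : ∀ y ∈ Y, y ≤ M) (y : ℕ) (hy : y ≤ M) :
    ∑ z ∈ Y.erase y, 1 / |(y : ℝ) - z| ≤ 2 * (1 + Real.log M) := by
  have hH : ∑ j ∈ Finset.Icc 1 M, 1 / (j : ℝ) ≤ 1 + Real.log M := by
    have h1 := harmonic_le_one_add_log M
    have h2 : ((harmonic M : ℚ) : ℝ) = ∑ j ∈ Finset.Icc 1 M, 1 / (j : ℝ) := by
      rw [harmonic_eq_sum_Icc]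
      push_cast
      exact Finset.sum_congr rfl fun j _ => by rw [one_div]
    rw [h2] at h1
    exact h1
  have h1 : ∑ z ∈ (Y.erase y).filter (fun z => z < y), 1 / |(y : ℝ) - z| ≤ ∑ j ∈ Finset.Icc 1 M, 1 / (j : ℝ) := by
    have e1 : ∑ z ∈ (Y.erase y).filter (fun z => z < y), 1 / |(y : ℝ) - z| =
        ∑ j ∈ ((Y.erase y).filter (fun z => z < y)).image (fun z => y - z), 1 / (j : ℝ) := by
      rw [Finset.sum_image]
      · refine Finset.sum_congr rfl fun z hz => ?_
        have h2 := (Finset.mem_filter.1 hz).2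
        rw [Nat.cast_sub h2.le, abs_of_pos]
        have : (z : ℝ) < y := by exact_mod_cast h2
        linarith
      · intro z hz z' hz' h
        have h2 := (Finset.mem_filter.1 hz).2
        have h3 := (Finset.mem_filter.1 hz').2
        simp only at h
        omega
    rw [e1]
    apply Finset.sum_le_sum_of_subset_of_nonneg
    · intro j hj
      obtain ⟨z, hz, rfl⟩ := Finset.mem_image.1 hj
      have h2 := (Finset.mem_filter.1 hz).2
      rw [Finset.mem_Icc]
      omega
    · intro j _ _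
      positivity
  have h2 : ∑ z ∈ (Y.erase y).filter (fun z => ¬ z < y), 1 / |(y : ℝ) - z| ≤ ∑ j ∈ Finset.Icc 1 M, 1 / (j : ℝ) := by
    have hgt : ∀ z ∈ (Y.erase y).filter (fun z => ¬ z < y), y < z ∧ z ≤ M := by
      intro z hz
      rw [Finset.mem_filter, Finset.mem_erase] at hz
      have := hY z hz.1.2
      omega
    have e1 : ∑ z ∈ (Y.erase y).filter (fun z => ¬ z < y), 1 / |(y : ℝ) - z| =
        ∑ j ∈ ((Y.erase y).filter (fun z => ¬ z < y)).image (fun z => z - y), 1 / (j : ℝ) := by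
      rw [Finset.sum_image]
      · refine Finset.sum_congr rfl fun z hz => ?_
        have h2 := (hgt z hz).1
        rw [Nat.cast_sub h2.le, abs_of_neg]
        · ring
        · have : (y : ℝ) < z := by exact_mod_cast h2
          linarith
      · intro z hz z' hz' h
        have h2 := hgt z hz
        have h3 := hgt z' hz'
        simp only at h
        omega
    rw [e1]
    apply Finset.sum_le_sum_of_subset_of_nonneg
    · intro j hj
      obtain ⟨z, hz, rfl⟩ := Finset.mem_image.1 hj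
      have h2 := hgt z hz
      rw [Finset.mem_Icc]
      omega
    · intro j _ _
      positivity
  rw [← Finset.sum_filter_add_sum_filter_not (Y.erase y) (fun z => z < y)]
  linarith

/-- the mean over the coefficient -/
theorem En_mean (A : Finset ℕ) {L g : ℝ} (hL : 0 < L) (hg : 0 < g) (Y : Finset ℕ) (M : ℕ) (hY : ∀ y ∈ Y, y ≤ M)
    (p q : ℕ → ℝ) (hp : ∀ y ∈ Y, ∀ z ∈ Y, g * |(y : ℝ) - z| ≤ |p y - p z|) {t₀ t₁ : ℝ} (ht : t₀ ≤ t₁) :
    ∫ t in t₀..t₁, En A L Y p q t ≤ 2 * (A.card * mass) * Y.card * ((t₁ - t₀) + L / g * (2 * (1 + Real.log M))) := by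
  have hac := ac_cont (D_CB A hL)
  have hK : 0 ≤ 2 * (A.card * mass) := by
    have := mass_pos
    positivity
  obtain ⟨K, hKe⟩ : ∃ K : ℝ, K = 2 * (A.card * mass) := ⟨_, rfl⟩
  rw [← hKe] at hK
  have ii : ∀ y z, IntervalIntegrable (fun t => ac (D A L) ((t * p y + q y) - (t * p z + q z))) volume t₀ t₁ := by
    intro y z
    exact (hac.comp (by fun_prop)).intervalIntegrable _ _
  have h1 : ∫ t in t₀..t₁, En A L Y p q t = ∑ y ∈ Y, ∑ z ∈ Y, ∫ t in t₀..t₁, ac (D A L) ((t * p y + q y) - (t * p z + q z)) := by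
    unfold En
    rw [intervalIntegral.integral_finsetSum fun y _ => by
      apply Continuous.intervalIntegrable
      exact continuous_finsetSum _ fun z _ => hac.comp (by fun_prop)]
    refine Finset.sum_congr rfl fun y _ => ?_
    rw [intervalIntegral.integral_finsetSum fun z _ => ii y z]
  have hdiag : ∀ y, ∫ t in t₀..t₁, ac (D A L) ((t * p y + q y) - (t * p y + q y)) ≤ K * (t₁ - t₀) := by
    intro y
    have h2 : ∫ t in t₀..t₁, ac (D A L) ((t * p y + q y) - (t * p y + q y)) ≤ ∫ _t in t₀..t₁, K := by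
      apply intervalIntegral.integral_mono_on ht (ii y y) intervalIntegrable_const
      intro t _
      rw [hKe]
      exact (le_abs_self _).trans (ac_D_le A hL _)
    rw [intervalIntegral.integral_const, smul_eq_mul] at h2
    linarith
  have hoff : ∀ y ∈ Y, ∀ z ∈ Y.erase y, ∫ t in t₀..t₁, ac (D A L) ((t * p y + q y) - (t * p z + q z)) ≤
      K * (L / g) * (1 / |(y : ℝ) - z|) := by
    intro y hy z hz
    rw [Finset.mem_erase] at hz
    have hyz : (0 : ℝ) < |(y : ℝ) - z| := by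
      rw [abs_pos, sub_ne_zero]
      exact_mod_cast hz.1.symm
    have h2 := hp y hy z hz.2
    have hP : 0 < |p y - p z| := lt_of_lt_of_le (by positivity) h2
    have hP0 : p y - p z ≠ 0 := abs_pos.1 hP
    have e1 : ∀ t : ℝ, (t * p y + q y) - (t * p z + q z) = (p y - p z) * t + (q y - q z) := fun t => by ring
    have e2 : ∫ t in t₀..t₁, ac (D A L) ((t * p y + q y) - (t * p z + q z)) =
        (p y - p z)⁻¹ * ∫ u in ((p y - p z) * t₀ + (q y - q z))..((p y - p z) * t₁ + (q y - q z)), ac (D A L) u := by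
      simp_rw [e1]
      rw [intervalIntegral.integral_comp_mul_add (fun u => ac (D A L) u) hP0, smul_eq_mul]
    rw [e2]
    refine (le_abs_self _).trans ?_
    rw [abs_mul, abs_inv]
    have h3 := ac_D_interval A hL ((p y - p z) * t₀ + (q y - q z)) ((p y - p z) * t₁ + (q y - q z))
    rw [← hKe] at h3
    calc |p y - p z|⁻¹ * |∫ u in ((p y - p z) * t₀ + (q y - q z))..((p y - p z) * t₁ + (q y - q z)), ac (D A L) u|
        ≤ (g * |(y : ℝ) - z|)⁻¹ * (K * L) := mul_le_mul (inv_anti₀ (by positivity) h2) h3 (abs_nonneg _) (by positivity)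
      _ = _ := by field_simp
  rw [h1, ← hKe]
  have h2 : ∀ y ∈ Y, ∑ z ∈ Y, ∫ t in t₀..t₁, ac (D A L) ((t * p y + q y) - (t * p z + q z)) ≤
      K * ((t₁ - t₀) + L / g * (2 * (1 + Real.log M))) := by
    intro y hy
    rw [← Finset.add_sum_erase Y _ hy]
    have h3 : ∑ z ∈ Y.erase y, ∫ t in t₀..t₁, ac (D A L) ((t * p y + q y) - (t * p z + q z)) ≤
        K * (L / g) * (2 * (1 + Real.log M)) := by
      refine (Finset.sum_le_sum (hoff y hy)).trans ?_
      rw [← Finset.mul_sum]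
      exact mul_le_mul_of_nonneg_left (harm Y M hY y (hY y hy)) (by positivity)
    have h4 := hdiag y
    have e : K * ((t₁ - t₀) + L / g * (2 * (1 + Real.log M))) = K * (t₁ - t₀) + K * (L / g) * (2 * (1 + Real.log M)) := by ring
    rw [e]
    exact add_le_add h4 h3
  refine (Finset.sum_le_sum h2).trans (le_of_eq ?_)
  rw [Finset.sum_const, nsmul_eq_mul]
  ring

/-- Few separated coefficients with a large energy. -/
theorem En_few (A : Finset ℕ) {L g : ℝ} (hL : 0 < L) (hg : 0 < g) (Y : Finset ℕ) (M : ℕ) (hY : ∀ y ∈ Y, y ≤ M)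
    (p q : ℕ → ℝ) (hp : ∀ y ∈ Y, ∀ z ∈ Y, g * |(y : ℝ) - z| ≤ |p y - p z|) {δ Z : ℝ} (hδ : 0 < δ) (hδ1 : δ ≤ 1) (hZ : 0 < Z)
    (x : ℝ) (T : Finset ℝ) (hT : ∀ a ∈ T, x ≤ a ∧ a ≤ x + 1) (hsep : ∀ a ∈ T, ∀ b ∈ T, a ≠ b → δ < |b - a|)
    (hbad : ∀ a ∈ T, ∀ t : ℝ, a ≤ t → t ≤ a + δ → Z ≤ En A L Y p q t) :
    (T.card : ℝ) ≤ 2 * (A.card * mass) * Y.card * (2 + L / g * (2 * (1 + Real.log M))) / (δ * Z) := by
  have hE0 := En_nonneg A hL Y p q
  have hEc := En_cont A hL Y p q
  have h1 := En_mean A hL hg Y M hY p q hp (show x ≤ x + 2 by linarith)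
  have e1 : x + 2 - x = 2 := by ring
  rw [e1] at h1
  rw [le_div_iff₀ (by positivity)]
  refine le_trans ?_ h1
  rw [intervalIntegral.integral_of_le (by linarith)]
  have hio : IntegrableOn (En A L Y p q) (Ioc x (x + 2)) :=
    (hEc.intervalIntegrable x (x + 2)).1
  have hsub : (⋃ a ∈ T, Ioc a (a + δ)) ⊆ Ioc x (x + 2) := by
    intro t ht
    rw [mem_iUnion₂] at ht
    obtain ⟨a, ha, h2⟩ := ht
    have := hT a ha
    constructor <;> linarith [h2.1, h2.2]
  have h2 : ∫ t in (⋃ a ∈ T, Ioc a (a + δ)), En A L Y p q t ≤ ∫ t in Ioc x (x + 2), En A L Y p q t :=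
    setIntegral_mono_set hio (Filter.Eventually.of_forall fun t => hE0 t) (LE.le.eventuallyLE hsub)
  refine le_trans ?_ h2
  have hdis : (↑T : Set ℝ).PairwiseDisjoint fun a => Ioc a (a + δ) := by
    intro a ha b hb hab
    rw [Function.onFun, Set.disjoint_left]
    intro t h3 h4
    have h5 := hsep a ha b hb hab
    rcases lt_abs.1 h5 with h6 | h6
    · linarith [h3.1, h3.2, h4.1, h4.2]
    · linarith [h3.1, h3.2, h4.1, h4.2]
  rw [integral_biUnion_finset T (fun a _ => measurableSet_Ioc) hdis (fun a ha => hio.mono_set (fun t ht => hsub (mem_iUnion₂.2 ⟨a, ha, ht⟩)))]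
  have h3 : ∀ a ∈ T, δ * Z ≤ ∫ t in Ioc a (a + δ), En A L Y p q t := by
    intro a ha
    rw [← intervalIntegral.integral_of_le (by linarith)]
    have h4 : ∫ _t in a..(a + δ), Z ≤ ∫ t in a..(a + δ), En A L Y p q t :=
      intervalIntegral.integral_mono_on (by linarith) intervalIntegrable_const (hEc.intervalIntegrable _ _)
        fun t ht => hbad a ha t ht.1 ht.2
    rw [intervalIntegral.integral_const, smul_eq_mul] at h4
    linarith
  calc (T.card : ℝ) * (δ * Z) = ∑ _a ∈ T, δ * Z := by rw [Finset.sum_const, nsmul_eq_mul]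
    _ ≤ _ := Finset.sum_le_sum h3

/-- the smoothed sum is large -/
lemma FL_sum (A : Finset ℕ) {L : ℝ} (hL : 0 < L) (Y : Finset ℕ) (r : ℕ → ℝ) (x : ℝ)
    (hcov : ∀ a ∈ A, ∃ y ∈ Y, x - a - L + 1 / 8 ≤ r y ∧ r y ≤ x - a - 1 / 8) :
    A.card * mass / L ≤ ∑ y ∈ Y, FL A L (x - r y) := by
  have e1 : ∀ y, FL A L (x - r y) = (∑ a ∈ A, ∫ u in (x - r y - L)..(x - r y), hat (u - a)) / L := by
    intro y
    unfold FL
    rw [Ph_sub]
    unfold F
    have hh := hat_cont
    have h1 : ∫ u in (x - r y - L)..(x - r y), ∑ a ∈ A, hat (u - (a : ℝ)) =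
        ∑ a ∈ A, ∫ u in (x - r y - L)..(x - r y), hat (u - (a : ℝ)) :=
      intervalIntegral.integral_finsetSum (f := fun (a : ℕ) (u : ℝ) => hat (u - (a : ℝ)))
        fun a _ => (by fun_prop : Continuous fun u : ℝ => hat (u - (a : ℝ))).intervalIntegrable _ _
    rw [h1]
  simp_rw [e1]
  rw [← Finset.sum_div, Finset.sum_comm]
  apply div_le_div_of_nonneg_right _ hL.le
  have h1 : ∀ a ∈ A, mass ≤ ∑ y ∈ Y, ∫ u in (x - r y - L)..(x - r y), hat (u - a) := by
    intro a ha
    obtain ⟨y, hy, h2, h3⟩ := hcov a ha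
    have h4 : ∫ u in (x - r y - L)..(x - r y), hat (u - a) = mass := by
      have h5 : mass = ∫ u, hat (u - a) := (integral_sub_right_eq_self hat (a : ℝ)).symm
      rw [h5, intervalIntegral.integral_of_le (by linarith), ← integral_Icc_eq_integral_Ioc,
        setIntegral_eq_integral_of_forall_compl_eq_zero]
      intro u hu
      apply hat_zero
      rw [mem_Icc, not_and_or, not_le, not_le] at hu
      rcases hu with h | h
      · rw [abs_of_neg (by linarith)]; linarith
      · rw [abs_of_pos (by linarith)]; linarith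
    rw [← h4]
    exact Finset.single_le_sum (f := fun y => ∫ u in (x - r y - L)..(x - r y), hat (u - a))
      (fun z _ => intervalIntegral.integral_nonneg (by linarith) fun u _ => hat_nonneg _) hy
  calc (A.card : ℝ) * mass = ∑ _a ∈ A, mass := by rw [Finset.sum_const, nsmul_eq_mul]
    _ ≤ _ := Finset.sum_le_sum h1

/-- small energy: every number is represented -/
theorem det (A B : Finset ℕ) {L : ℝ} (hL : 0 < L) (Y : Finset ℕ) (p q : ℕ → ℝ) (t n : ℝ)
    (hcov : ∀ a ∈ A, ∀ b ∈ B, ∃ y ∈ Y, n - b - a - L + 1 / 4 ≤ t * p y + q y ∧ t * p y + q y ≤ n - b - a - 1 / 4)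
    (hE : En A L Y p q t < mass ^ 3 * A.card ^ 2 * B.card / L ^ 2) :
    ∃ a ∈ A, ∃ b ∈ B, ∃ y ∈ Y, |n - b - a - (t * p y + q y)| < 1 / 4 := by
  have hm := mass_pos
  have hE0 := En_nonneg A hL Y p q t
  obtain ⟨a', ha'⟩ : ∃ a' : ℝ, a' = A.card := ⟨_, rfl⟩
  obtain ⟨b', hb'⟩ : ∃ b' : ℝ, b' = B.card := ⟨_, rfl⟩
  rw [← ha', ← hb'] at hE
  have ha0 : 0 ≤ a' := by rw [ha']; positivity
  have hb0 : 0 ≤ b' := by rw [hb']; positivity
  have hpos : 0 < mass ^ 3 * a' ^ 2 * b' / L ^ 2 := hE0.trans_lt hE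
  have ha1 : 0 < a' := by
    rcases ha0.lt_or_eq with h | h
    · exact h
    · rw [← h] at hpos; simp at hpos
  have hb1 : 0 < b' := by
    rcases hb0.lt_or_eq with h | h
    · exact h
    · rw [← h] at hpos; simp at hpos
  obtain ⟨G, hG⟩ : ∃ G : ℝ → ℝ, G = fun x => F B (n - x) := ⟨_, rfl⟩
  obtain ⟨S, hS⟩ : ∃ S : ℝ → ℝ, S = fun x => ∑ y ∈ Y, D A L (x - (t * p y + q y)) := ⟨_, rfl⟩
  obtain ⟨S₁, hS₁⟩ : ∃ S₁ : ℝ → ℝ, S₁ = fun x => ∑ y ∈ Y, F A (x - (t * p y + q y)) := ⟨_, rfl⟩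
  obtain ⟨S₂, hS₂⟩ : ∃ S₂ : ℝ → ℝ, S₂ = fun x => ∑ y ∈ Y, FL A L (x - (t * p y + q y)) := ⟨_, rfl⟩
  have hSS : ∀ x, S₁ x = S₂ x + S x := by
    intro x
    rw [hS, hS₁, hS₂]
    simp only
    rw [← Finset.sum_add_distrib]
    refine Finset.sum_congr rfl fun y _ => ?_
    unfold D
    ring
  have hG0 : ∀ x, 0 ≤ G x := fun x => by rw [hG]; exact F_nonneg _ _
  have hG1 : ∀ x, G x ≤ 1 := fun x => by rw [hG]; exact F_le _ _
  have hGi : Integrable G := by rw [hG]; exact (F_CB B).integrable.comp_sub_left n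
  have hGint : ∫ x, G x = b' * mass := by
    rw [hG, hb', integral_sub_left_eq_self (F B) volume n, F_int]
  by_contra hcon
  push Not at hcon
  -- `G * S₁ = 0`
  have hzero : ∀ x, G x * S₁ x = 0 := by
    intro x
    by_contra hne
    have h1 : G x ≠ 0 := left_ne_zero_of_mul hne
    have h2 : S₁ x ≠ 0 := right_ne_zero_of_mul hne
    rw [hG] at h1
    rw [hS₁] at h2
    obtain ⟨b, hb, hb2⟩ := Finset.exists_ne_zero_of_sum_ne_zero h1
    obtain ⟨y, hy, hy2⟩ := Finset.exists_ne_zero_of_sum_ne_zero h2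
    obtain ⟨a, ha, ha2⟩ := Finset.exists_ne_zero_of_sum_ne_zero hy2
    have h3 : |n - x - b| < 1 / 8 := by
      by_contra h; exact hb2 (hat_zero (not_lt.1 h))
    have h4 : |x - (t * p y + q y) - a| < 1 / 8 := by
      by_contra h; exact ha2 (hat_zero (not_lt.1 h))
    have h5 := hcon a ha b hb y hy
    have h6 := abs_add_le (n - x - b) (x - (t * p y + q y) - a)
    have e : n - x - b + (x - (t * p y + q y) - a) = n - b - a - (t * p y + q y) := by ring
    rw [e] at h6
    linarith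
  -- the smoothed part is large on the support of `G`
  have hlow : ∀ x, G x * (a' * mass / L) ≤ G x * S₂ x := by
    intro x
    by_cases hx : G x = 0
    · rw [hx, zero_mul, zero_mul]
    · apply mul_le_mul_of_nonneg_left _ (hG0 x)
      rw [hG] at hx
      obtain ⟨b, hb, hb2⟩ := Finset.exists_ne_zero_of_sum_ne_zero hx
      have h3 : |n - x - b| < 1 / 8 := by
        by_contra h; exact hb2 (hat_zero (not_lt.1 h))
      rw [abs_lt] at h3
      rw [hS₂, ha']
      apply FL_sum A hL Y (fun y => t * p y + q y) x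
      intro a ha
      obtain ⟨y, hy, h4, h5⟩ := hcov a ha b hb
      exact ⟨y, hy, by linarith [h3.1, h3.2], by linarith [h3.1, h3.2]⟩
  obtain ⟨lam, hlam⟩ : ∃ lam : ℝ, lam = a' * mass / L := ⟨_, rfl⟩
  have hlam0 : 0 < lam := by rw [hlam]; positivity
  have hpt : ∀ x, G x * lam ≤ (lam * G x ^ 2 + S x ^ 2 / lam) / 2 := by
    intro x
    have h1 := hlow x
    have h2 := hzero x
    rw [hSS] at h2
    rw [← hlam] at h1
    have h3 : G x * lam ≤ -(G x * S x) := by linarith
    refine h3.trans ?_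
    rw [le_div_iff₀ (by norm_num), ← sub_nonneg]
    have e : lam * G x ^ 2 + S x ^ 2 / lam - -(G x * S x) * 2 = (lam * G x + S x) ^ 2 / lam := by field_simp; ring
    rw [e]
    positivity
  have hSi : Integrable fun x => S x ^ 2 := by
    have : ∀ x, S x ^ 2 = ∑ y ∈ Y, ∑ z ∈ Y, D A L (x - (t * p y + q y)) * D A L (x - (t * p z + q z)) := by
      intro x
      rw [hS, sq]
      simp only
      rw [Finset.sum_mul_sum]
    simp_rw [this]
    exact integrable_finsetSum _ fun y _ => integrable_finsetSum _ fun z _ => shift_int (D_CB A hL) _ _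
  have hG2 : Integrable fun x => G x ^ 2 := by
    rw [hG]
    exact (F_CB B).sq.integrable.comp_sub_left n
  have hG2le : ∫ x, G x ^ 2 ≤ b' * mass := by
    rw [← hGint]
    apply integral_mono hG2 hGi
    intro x
    simp only
    have := hG0 x
    have := hG1 x
    nlinarith
  have h1 : ∫ x, G x * lam ≤ ∫ x, (lam * G x ^ 2 + S x ^ 2 / lam) / 2 := by
    apply integral_mono (hGi.mul_const _) (((hG2.const_mul _).add (hSi.div_const _)).div_const _)
    intro x
    exact hpt x
  rw [integral_mul_const, hGint, integral_div, integral_add (hG2.const_mul _) (hSi.div_const _), integral_const_mul, integral_div] at h1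
  have h2 : ∫ x, S x ^ 2 = En A L Y p q t := by rw [hS]; exact En_eq A hL Y p q t
  rw [h2] at h1
  have h3 : b' * mass * lam ≤ (lam * (b' * mass) + En A L Y p q t / lam) / 2 := by
    refine h1.trans ?_
    apply div_le_div_of_nonneg_right _ (by norm_num)
    have := mul_le_mul_of_nonneg_left hG2le hlam0.le
    linarith
  have h4 : b' * mass * lam ≤ En A L Y p q t / lam := by linarith
  rw [le_div_iff₀ hlam0] at h4
  have h5 : b' * mass * lam * lam = mass ^ 3 * a' ^ 2 * b' / L ^ 2 := by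
    rw [hlam]
    field_simp
  rw [h5] at h4
  linarith

end Pool.Agent.H96.WG
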