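import Pool.Agent.H96.WG.B
import Pool.Agent.H96.FL.H

set_option autoImplicit false

/-! # One generic term: the exceptional coefficients at one scale -/

namespace Pool.Agent.H96.WG

open MeasureTheory Set
open Pool.Agent.H96.FL (Cov cov_of_sep Cov.mono)

lemma pow_gap {c : ℝ} (hc : 1 ≤ c) (y : ℕ) : ((y : ℝ) + 1) ^ c - (y : ℝ) ^ c ≤ c * ((y : ℝ) + 1) ^ (c - 1) := by
  have hy : (0 : ℝ) < (y : ℝ) + 1 := by positivity
  have h1 := one_add_mul_self_le_rpow_one_add (s := -1 / ((y : ℝ) + 1)) (by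
    rw [le_div_iff₀ hy]
    have : (0 : ℝ) ≤ y := Nat.cast_nonneg y
    linarith) hc
  have h2 : 1 + -1 / ((y : ℝ) + 1) = y / (y + 1) := by field_simp; ring
  rw [h2, Real.div_rpow (Nat.cast_nonneg y) hy.le, le_div_iff₀ (Real.rpow_pos_of_pos hy _)] at h1
  have h3 : ((y : ℝ) + 1) ^ c = ((y : ℝ) + 1) ^ (c - 1) * (y + 1) := by
    rw [← Real.rpow_add_one hy.ne']
    congr 1
    ring
  have h4 : (1 + c * (-1 / ((y : ℝ) + 1))) * ((y : ℝ) + 1) ^ c = ((y : ℝ) + 1) ^ c - c * ((y : ℝ) + 1) ^ (c - 1) := by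
    rw [h3]
    field_simp
    ring
  rw [h4] at h1
  linarith

lemma pow_sep {c : ℝ} (hc : 1 ≤ c) {Y₀ : ℝ} (hY₀ : 0 < Y₀) (y z : ℕ) (hy : Y₀ ≤ y) (hz : Y₀ ≤ z) :
    Y₀ ^ (c - 1) * |(y : ℝ) - z| ≤ |(y : ℝ) ^ c - (z : ℝ) ^ c| := by
  have key : ∀ y z : ℕ, Y₀ ≤ z → z ≤ y → Y₀ ^ (c - 1) * |(y : ℝ) - z| ≤ |(y : ℝ) ^ c - (z : ℝ) ^ c| := by
    intro y z hz hzy
    have hz0 : (0 : ℝ) < z := by linarith
    have hzy' : (z : ℝ) ≤ y := by exact_mod_cast hzy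
    have hy0 : (0 : ℝ) < y := by linarith
    have e : ∀ w : ℝ, 0 < w → w ^ c = w ^ (c - 1) * w := by
      intro w hw
      rw [← Real.rpow_add_one hw.ne']
      congr 1
      ring
    have h1 : (z : ℝ) ^ (c - 1) ≤ (y : ℝ) ^ (c - 1) := Real.rpow_le_rpow hz0.le hzy' (by linarith)
    have h2 : Y₀ ^ (c - 1) ≤ (z : ℝ) ^ (c - 1) := Real.rpow_le_rpow hY₀.le hz (by linarith)
    have h3 : (z : ℝ) ^ (c - 1) * ((y : ℝ) - z) ≤ (y : ℝ) ^ c - (z : ℝ) ^ c := by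
      rw [e y hy0, e z hz0]
      nlinarith
    rw [abs_of_nonneg (by linarith : (0 : ℝ) ≤ (y : ℝ) - z)]
    refine le_trans ?_ (le_abs_self _)
    refine le_trans ?_ h3
    exact mul_le_mul_of_nonneg_right h2 (by linarith)
  rcases le_total z y with h | h
  · exact key y z hz h
  · rw [abs_sub_comm, abs_sub_comm ((y : ℝ) ^ c)]
    exact key z y hy h

/-- the data of one scale -/
lemma scale {c : ℝ} (hc : 1 ≤ c) (C : ℝ) (hC : 0 ≤ C) (m : ℕ) (hm : 1 ≤ m) :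
    ∃ K : ℝ, 1 ≤ K ∧ ∃ X₀ : ℝ, 1 ≤ X₀ ∧ ∀ X, X₀ ≤ X → ∃ (M : ℕ) (Y₀ L : ℝ), 1 ≤ Y₀ ∧ 1 ≤ M ∧ (M : ℝ) + 1 ≤ K * X ^ (1 / c) ∧
      (M : ℝ) ^ c ≤ K * X ∧ (M : ℝ) ≤ K * X ∧ 1 ≤ L ∧ L ≤ K * X ^ (1 - 1 / c) ∧ L / Y₀ ^ (c - 1) ≤ K ∧ X ^ (1 / c) ≤ K * Y₀ ∧
      ∀ g : ℕ → ℝ, (∀ y, |g y| ≤ C * ((y : ℝ) + 1) ^ (c - 1)) → ∀ t w : ℝ, 1 / m ≤ t → t ≤ m + 1 → X / 2 ≤ w → w ≤ 5 * X →
        ∃ y : ℕ, 0 < y ∧ y ≤ M ∧ Y₀ ≤ y ∧ w - L + 1 / 4 ≤ t * (y : ℝ) ^ c + g y ∧ t * (y : ℝ) ^ c + g y ≤ w - 1 / 4 := by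
  have hc0 : 0 < c := by linarith
  have hm1 : (1 : ℝ) ≤ m := by exact_mod_cast hm
  have hic : 0 < 1 / c := by positivity
  have hic1 : 1 / c ≤ 1 := by rw [div_le_one hc0]; exact hc
  obtain ⟨K₁, hK₁⟩ : ∃ K₁ : ℝ, K₁ = (m + 1) * c + C := ⟨_, rfl⟩
  have hK₁0 : 1 ≤ K₁ := by rw [hK₁]; nlinarith
  obtain ⟨K₂, hK₂⟩ : ∃ K₂ : ℝ, K₂ = (2 * (5 * m)) ^ c := ⟨_, rfl⟩
  have hb : (1 : ℝ) ≤ 2 * (5 * m) := by linarith
  have hK₂1 : 1 ≤ K₂ := by rw [hK₂]; exact Real.one_le_rpow hb hc0.le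
  obtain ⟨κ, hκ⟩ : ∃ κ : ℝ, κ = 4 * (5 * m * (4 * (m + 1))) := ⟨_, rfl⟩
  have hκ1 : 1 ≤ κ := by rw [hκ]; nlinarith
  have hκp : 1 ≤ κ ^ c := Real.one_le_rpow hκ1 hc0.le
  obtain ⟨K, hK⟩ : ∃ K : ℝ, K = 4 * K₁ * K₂ * κ ^ c * κ := ⟨_, rfl⟩
  have hK4 : 4 * K₁ * K₂ ≤ K := by
    rw [hK]
    have : (1 : ℝ) ≤ κ ^ c * κ := one_le_mul_of_one_le_of_one_le hκp hκ1
    calc 4 * K₁ * K₂ = 4 * K₁ * K₂ * 1 := by ring
      _ ≤ 4 * K₁ * K₂ * (κ ^ c * κ) := mul_le_mul_of_nonneg_left this (by positivity)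
      _ = _ := by ring
  have hKκ : 4 * K₁ * κ ^ c ≤ K := by
    rw [hK]
    have : (1 : ℝ) ≤ K₂ * κ := one_le_mul_of_one_le_of_one_le hK₂1 hκ1
    calc 4 * K₁ * κ ^ c = 4 * K₁ * κ ^ c * 1 := by ring
      _ ≤ 4 * K₁ * κ ^ c * (K₂ * κ) := mul_le_mul_of_nonneg_left this (by positivity)
      _ = _ := by ring
  have hKκ2 : κ ≤ K := by
    rw [hK]
    have : (1 : ℝ) ≤ 4 * K₁ * K₂ * κ ^ c := one_le_mul_of_one_le_of_one_le
      (one_le_mul_of_one_le_of_one_le (by linarith) hK₂1) hκp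
    calc κ = 1 * κ := (one_mul _).symm
      _ ≤ _ := mul_le_mul_of_nonneg_right this (by linarith)
  have h6m : 2 * (5 * (m : ℝ)) ≤ K₂ := by
    rw [hK₂]
    calc 2 * (5 * (m : ℝ)) = (2 * (5 * (m : ℝ))) ^ (1 : ℝ) := (Real.rpow_one _).symm
      _ ≤ _ := Real.rpow_le_rpow_of_exponent_le hb hc
  have hKK₂ : K₂ ≤ K := by
    refine le_trans ?_ hK4
    nlinarith
  -- the eventual conditions
  have ev1 : ∀ᶠ X : ℝ in Filter.atTop, 4 * (2 * K₁ * K₂) ≤ X ^ (1 / c) := (tendsto_rpow_atTop hic).eventually_ge_atTop _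
  have ev2 : ∀ᶠ X : ℝ in Filter.atTop, 2 ≤ (X / (4 * (m + 1))) ^ (1 / c) := by
    have : Filter.Tendsto (fun X : ℝ => X / (4 * ((m : ℝ) + 1))) Filter.atTop Filter.atTop :=
      Filter.tendsto_id.atTop_div_const (by positivity)
    exact ((tendsto_rpow_atTop hic).comp this).eventually_ge_atTop 2
  obtain ⟨X₁, hX₁⟩ := Filter.eventually_atTop.1 (ev1.and ev2)
  refine ⟨K, by linarith, max 1 X₁, le_max_left _ _, fun X hX => ?_⟩
  have hX1 : 1 ≤ X := (le_max_left _ _).trans hX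
  have hX0 : 0 < X := by linarith
  obtain ⟨hA1, hA2⟩ := hX₁ X ((le_max_right _ _).trans hX)
  -- the quantities
  obtain ⟨U, hU⟩ : ∃ U : ℝ, U = (5 * m * X) ^ (1 / c) := ⟨_, rfl⟩
  have h3mX : 1 ≤ 5 * m * X := by nlinarith
  have hU1 : 1 ≤ U := by rw [hU]; exact Real.one_le_rpow h3mX hic.le
  obtain ⟨M, hM⟩ : ∃ M : ℕ, M = ⌈U⌉₊ := ⟨_, rfl⟩
  have hM1 : U ≤ M := by rw [hM]; exact Nat.le_ceil _
  have hM2 : (M : ℝ) < U + 1 := by rw [hM]; exact Nat.ceil_lt_add_one (by linarith)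
  obtain ⟨V, hV⟩ : ∃ V : ℝ, V = (X / (4 * (m + 1))) ^ (1 / c) := ⟨_, rfl⟩
  rw [← hV] at hA2
  have hUV : 4 * (U / V) ≤ κ := by
    have e1 : U / V = (5 * m * (4 * (m + 1))) ^ (1 / c) := by
      rw [hU, hV, ← Real.div_rpow (by positivity) (by positivity)]
      congr 1
      field_simp
    have hb2 : (1 : ℝ) ≤ 5 * m * (4 * (m + 1)) := by nlinarith
    have h1 : (5 * m * (4 * ((m : ℝ) + 1))) ^ (1 / c) ≤ (5 * m * (4 * (m + 1))) ^ (1 : ℝ) :=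
      Real.rpow_le_rpow_of_exponent_le hb2 hic1
    rw [Real.rpow_one] at h1
    rw [e1, hκ]
    linarith
  have hU2 : U ^ c = 5 * m * X := by
    rw [hU, ← Real.rpow_mul (by positivity), one_div_mul_cancel hc0.ne', Real.rpow_one]
  have hU3 : U ≤ 5 * m * X ^ (1 / c) := by
    rw [hU, Real.mul_rpow (by positivity) hX0.le]
    apply mul_le_mul_of_nonneg_right _ (by positivity)
    have h1 : (5 * (m : ℝ)) ^ (1 / c) ≤ (5 * m) ^ (1 : ℝ) := Real.rpow_le_rpow_of_exponent_le (by linarith) hic1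
    rwa [Real.rpow_one] at h1
  -- the powers of `M`
  have hMU : (M : ℝ) + 1 ≤ 3 * U := by linarith
  have hXX : X ^ (1 / c) * X ^ (1 - 1 / c) = X := by
    rw [← Real.rpow_add hX0]
    have : 1 / c + (1 - 1 / c) = 1 := by ring
    rw [this, Real.rpow_one]
  have hMp : ((M : ℝ) + 1) ^ (c - 1) ≤ K₂ * X ^ (1 - 1 / c) := by
    have h1 : (M : ℝ) + 1 ≤ 2 * (5 * m) * X ^ (1 / c) := by
      have : U + 1 + 1 ≤ 2 * U + U := by linarith
      have h2 : (M : ℝ) + 1 ≤ U + 2 := by linarith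
      -- `U ≥ 2`
      have hU4 : 2 ≤ U := by
        refine hA2.trans ?_
        rw [hU, hV]
        apply Real.rpow_le_rpow (by positivity) _ hic.le
        rw [div_le_iff₀ (by positivity)]
        nlinarith
      have h3 : (M : ℝ) + 1 ≤ 2 * U := by linarith
      calc (M : ℝ) + 1 ≤ 2 * U := h3
        _ ≤ 2 * (5 * m * X ^ (1 / c)) := by linarith
        _ = _ := by ring
    have h2 : ((M : ℝ) + 1) ^ (c - 1) ≤ (2 * (5 * m) * X ^ (1 / c)) ^ (c - 1) :=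
      Real.rpow_le_rpow (by positivity) h1 (by linarith)
    refine h2.trans ?_
    rw [Real.mul_rpow (by positivity) (by positivity), ← Real.rpow_mul hX0.le]
    have e : 1 / c * (c - 1) = 1 - 1 / c := by field_simp
    rw [e]
    apply mul_le_mul_of_nonneg_right _ (by positivity)
    rw [hK₂]
    exact Real.rpow_le_rpow_of_exponent_le hb (by linarith)
  have hU4 : 2 ≤ U := by
    refine hA2.trans ?_
    rw [hU, hV]
    apply Real.rpow_le_rpow (by positivity) _ hic.le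
    rw [div_le_iff₀ (by positivity)]
    nlinarith
  obtain ⟨L₁, hL₁⟩ : ∃ L₁ : ℝ, L₁ = K₁ * ((M : ℝ) + 1) ^ (c - 1) + 1 := ⟨_, rfl⟩
  have hMp1 : 1 ≤ ((M : ℝ) + 1) ^ (c - 1) := Real.one_le_rpow (by linarith) (by linarith)
  have hX1c : 1 ≤ X ^ (1 - 1 / c) := Real.one_le_rpow hX1 (by linarith)
  have hL₁1 : 1 ≤ L₁ := by
    rw [hL₁]
    have h0 : 0 ≤ K₁ * ((M : ℝ) + 1) ^ (c - 1) := mul_nonneg (by linarith) (by linarith)
    linarith
  have hL₁le : L₁ ≤ 2 * K₁ * K₂ * X ^ (1 - 1 / c) := by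
    rw [hL₁]
    have h1 := mul_le_mul_of_nonneg_left hMp (by linarith : 0 ≤ K₁)
    have h2 : 1 ≤ K₁ * K₂ * X ^ (1 - 1 / c) :=
      one_le_mul_of_one_le_of_one_le (one_le_mul_of_one_le_of_one_le hK₁0 hK₂1) hX1c
    calc K₁ * ((M : ℝ) + 1) ^ (c - 1) + 1 ≤ K₁ * (K₂ * X ^ (1 - 1 / c)) + K₁ * K₂ * X ^ (1 - 1 / c) := by linarith
      _ = _ := by ring
  have hL₁X : L₁ ≤ X / 4 := by
    rw [le_div_iff₀ (by norm_num)]
    calc L₁ * 4 ≤ 2 * K₁ * K₂ * X ^ (1 - 1 / c) * 4 := by linarith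
      _ = 4 * (2 * K₁ * K₂) * X ^ (1 - 1 / c) := by ring
      _ ≤ X ^ (1 / c) * X ^ (1 - 1 / c) := mul_le_mul_of_nonneg_right hA1 (by positivity)
      _ = X := hXX
  refine ⟨M, V / 2, 2 * L₁, by linarith, ?_, ?_, ?_, ?_, by linarith, ?_, ?_, ?_, ?_⟩
  · rw [hM]
    exact Nat.one_le_ceil_iff.2 (by linarith)
  · calc (M : ℝ) + 1 ≤ 3 * U / 2 + U / 2 := by linarith
      _ ≤ 2 * (5 * m * X ^ (1 / c)) := by linarith
      _ = (2 * (5 * m)) * X ^ (1 / c) := by ring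
      _ ≤ K * X ^ (1 / c) := mul_le_mul_of_nonneg_right (h6m.trans hKK₂) (by positivity)
  · have h1 : (M : ℝ) ≤ 2 * U := by linarith
    calc (M : ℝ) ^ c ≤ (2 * U) ^ c := Real.rpow_le_rpow (Nat.cast_nonneg _) h1 hc0.le
      _ = 2 ^ c * (5 * m * X) := by rw [Real.mul_rpow (by norm_num) (by linarith), hU2]
      _ ≤ K₂ * X := by
          rw [hK₂, Real.mul_rpow (by norm_num) (by positivity)]
          have h2 : 5 * (m : ℝ) ≤ (5 * m) ^ c := by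
            calc 5 * (m : ℝ) = (5 * (m : ℝ)) ^ (1 : ℝ) := (Real.rpow_one _).symm
              _ ≤ _ := Real.rpow_le_rpow_of_exponent_le (by linarith) hc
          have h3 : (0 : ℝ) < 2 ^ c := by positivity
          calc 2 ^ c * (5 * m * X) = 2 ^ c * (5 * m) * X := by ring
            _ ≤ 2 ^ c * (5 * m) ^ c * X := by gcongr
      _ ≤ K * X := mul_le_mul_of_nonneg_right hKK₂ hX0.le
  · have h1 : (M : ℝ) ≤ 2 * U := by linarith
    have h2 : U ≤ 5 * m * X := by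
      refine hU3.trans ?_
      apply mul_le_mul_of_nonneg_left _ (by positivity)
      calc X ^ (1 / c) ≤ X ^ (1 : ℝ) := Real.rpow_le_rpow_of_exponent_le hX1 hic1
        _ = X := Real.rpow_one _
    calc (M : ℝ) ≤ 2 * (5 * m) * X := by linarith
      _ ≤ K * X := mul_le_mul_of_nonneg_right (h6m.trans hKK₂) hX0.le
  · calc 2 * L₁ ≤ 2 * (2 * K₁ * K₂ * X ^ (1 - 1 / c)) := by linarith
      _ = 4 * K₁ * K₂ * X ^ (1 - 1 / c) := by ring
      _ ≤ _ := mul_le_mul_of_nonneg_right hK4 (by positivity)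
  · have hV0 : 0 < V / 2 := by linarith
    have hVp : 0 < (V / 2) ^ (c - 1) := by positivity
    have hVp1 : 1 ≤ (V / 2) ^ (c - 1) := Real.one_le_rpow (by linarith) (by linarith)
    rw [div_le_iff₀ hVp]
    have h1 : ((M : ℝ) + 1) ^ (c - 1) ≤ κ ^ c * (V / 2) ^ (c - 1) := by
      have h2 : (M : ℝ) + 1 ≤ κ * (V / 2) := by
        have h3 : 4 * U ≤ κ * V := by
          have h4 := mul_le_mul_of_nonneg_right hUV (by linarith : 0 ≤ V)
          have e : 4 * (U / V) * V = 4 * U := by field_simp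
          rwa [e] at h4
        linarith
      calc ((M : ℝ) + 1) ^ (c - 1) ≤ (κ * (V / 2)) ^ (c - 1) := Real.rpow_le_rpow (by positivity) h2 (by linarith)
        _ = κ ^ (c - 1) * (V / 2) ^ (c - 1) := Real.mul_rpow (by linarith) hV0.le
        _ ≤ _ := mul_le_mul_of_nonneg_right (Real.rpow_le_rpow_of_exponent_le hκ1 (by linarith)) hVp.le
    have h2 : L₁ ≤ 2 * K₁ * κ ^ c * (V / 2) ^ (c - 1) := by
      rw [hL₁]
      have h3 := mul_le_mul_of_nonneg_left h1 (by linarith : 0 ≤ K₁)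
      have h4 : 1 ≤ K₁ * κ ^ c * (V / 2) ^ (c - 1) :=
        one_le_mul_of_one_le_of_one_le (one_le_mul_of_one_le_of_one_le hK₁0 hκp) hVp1
      linarith
    calc 2 * L₁ ≤ 4 * K₁ * κ ^ c * (V / 2) ^ (c - 1) := by linarith
      _ ≤ _ := mul_le_mul_of_nonneg_right hKκ hVp.le
  · have h1 : X ^ (1 / c) = (4 * ((m : ℝ) + 1)) ^ (1 / c) * V := by
      rw [hV, ← Real.mul_rpow (by positivity) (by positivity)]
      congr 1
      field_simp
    have h2 : (4 * ((m : ℝ) + 1)) ^ (1 / c) ≤ 4 * (m + 1) := by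
      calc (4 * ((m : ℝ) + 1)) ^ (1 / c) ≤ (4 * ((m : ℝ) + 1)) ^ (1 : ℝ) :=
            Real.rpow_le_rpow_of_exponent_le (by linarith) hic1
        _ = _ := Real.rpow_one _
    have h3 : 4 * ((m : ℝ) + 1) ≤ K / 2 := by
      have : 8 * ((m : ℝ) + 1) ≤ κ := by rw [hκ]; nlinarith
      linarith
    rw [h1]
    calc (4 * ((m : ℝ) + 1)) ^ (1 / c) * V ≤ (K / 2) * V := mul_le_mul_of_nonneg_right (h2.trans h3) (by linarith)
      _ = _ := by ring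
  · intro g hg t w ht1 ht2 hw1 hw2
    have hm0 : (0 : ℝ) < m := by linarith
    have ht0 : 0 < t := lt_of_lt_of_le (by positivity) ht1
    obtain ⟨W, hW⟩ : ∃ W : ℝ, W = (w - L₁) / t := ⟨_, rfl⟩
    have hW1 : X / (4 * (m + 1)) ≤ W := by
      rw [hW, div_le_div_iff₀ (by positivity) ht0]
      have h1 : X / 4 ≤ w - L₁ := by linarith
      have h2 : X * t ≤ X * (m + 1) := mul_le_mul_of_nonneg_left ht2 hX0.le
      nlinarith
    have hW2 : W ≤ 5 * m * X := by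
      rw [hW, div_le_iff₀ ht0]
      have h1 : 1 ≤ m * t := by
        have := mul_le_mul_of_nonneg_left ht1 hm0.le
        rwa [mul_one_div_cancel hm0.ne'] at this
      nlinarith
    have hW0 : 0 < W := lt_of_lt_of_le (by positivity) hW1
    obtain ⟨R, hR⟩ : ∃ R : ℝ, R = W ^ (1 / c) := ⟨_, rfl⟩
    have hRc : R ^ c = W := by rw [hR, ← Real.rpow_mul hW0.le, one_div_mul_cancel hc0.ne', Real.rpow_one]
    have hR1 : V ≤ R := by rw [hV, hR]; exact Real.rpow_le_rpow (by positivity) hW1 hic.le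
    have hR2 : R ≤ U := by rw [hU, hR]; exact Real.rpow_le_rpow hW0.le hW2 hic.le
    have hR0 : 0 ≤ R := by linarith
    obtain ⟨y, hy⟩ : ∃ y : ℕ, y = ⌊R⌋₊ := ⟨_, rfl⟩
    have hy1 : (y : ℝ) ≤ R := by rw [hy]; exact Nat.floor_le hR0
    have hy2 : R < (y : ℝ) + 1 := by rw [hy]; exact Nat.lt_floor_add_one R
    have hyM : (y : ℝ) ≤ M := by linarith
    have hyc : (y : ℝ) ^ c ≤ W := by
      rw [← hRc]
      exact Real.rpow_le_rpow (Nat.cast_nonneg _) hy1 hc0.le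
    have hyc2 : W ≤ ((y : ℝ) + 1) ^ c := by
      rw [← hRc]
      exact Real.rpow_le_rpow hR0 hy2.le hc0.le
    have hgy := hg y
    rw [abs_le] at hgy
    have hpm : ((y : ℝ) + 1) ^ (c - 1) ≤ ((M : ℝ) + 1) ^ (c - 1) := Real.rpow_le_rpow (by positivity) (by linarith) (by linarith)
    have hCp : C * ((y : ℝ) + 1) ^ (c - 1) ≤ C * ((M : ℝ) + 1) ^ (c - 1) := mul_le_mul_of_nonneg_left hpm hC
    have htW : t * W = w - L₁ := by rw [hW]; field_simp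
    have hK₁' : L₁ - 1 = (m + 1) * c * ((M : ℝ) + 1) ^ (c - 1) + C * ((M : ℝ) + 1) ^ (c - 1) := by rw [hL₁, hK₁]; ring
    have hmc : 0 ≤ (m + 1) * c * ((M : ℝ) + 1) ^ (c - 1) := by positivity
    refine ⟨y, ?_, by exact_mod_cast hyM, by linarith, ?_, ?_⟩
    · have : (1 : ℝ) < (y : ℝ) + 1 := by linarith
      have h2 : (0 : ℝ) < y := by linarith
      exact_mod_cast h2
    · have h1 := pow_gap hc y
      have h2 : t * (((y : ℝ) + 1) ^ c - (y : ℝ) ^ c) ≤ (m + 1) * c * ((M : ℝ) + 1) ^ (c - 1) := by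
        calc t * (((y : ℝ) + 1) ^ c - (y : ℝ) ^ c) ≤ t * (c * ((y : ℝ) + 1) ^ (c - 1)) := mul_le_mul_of_nonneg_left h1 ht0.le
          _ ≤ (m + 1) * (c * ((M : ℝ) + 1) ^ (c - 1)) := by gcongr
          _ = _ := by ring
      have h3 := mul_le_mul_of_nonneg_left hyc2 ht0.le
      rw [htW] at h3
      linarith [hgy.1]
    · have h3 := mul_le_mul_of_nonneg_left hyc ht0.le
      rw [htW] at h3
      linarith [hgy.2]

/-- the exceptional coefficients of one scale -/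
def BadAt (c : ℝ) (g : ℕ → ℝ) (m : ℕ) (A : Finset ℕ) (β X : ℝ) : Set ℝ :=
  {α : ℝ | 1 / (m : ℝ) ≤ α ∧ α ≤ m ∧ ∃ S : Finset ℕ, (∀ s ∈ S, 3 / 4 * X ≤ s ∧ (s : ℝ) ≤ 4 * X) ∧ β ≤ S.card ∧
    ∀ a ∈ A, ∀ s ∈ S, ∀ y : ℕ, 0 < y → (s : ℤ) ≠ a + ⌊α * (y : ℝ) ^ c + g y⌋}

open Classical in
theorem core {c : ℝ} (hc : 1 ≤ c) (C : ℝ) (hC : 0 ≤ C) (m : ℕ) (hm : 1 ≤ m) :
    ∃ K : ℝ, 0 < K ∧ ∃ X₀ : ℝ, 1 ≤ X₀ ∧ ∀ X, X₀ ≤ X → ∀ g : ℕ → ℝ, (∀ y, |g y| ≤ C * ((y : ℝ) + 1) ^ (c - 1)) →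
      ∀ A : Finset ℕ, (∀ a ∈ A, (a : ℝ) ≤ X / 8) → 1 ≤ A.card → ∀ β : ℝ, 0 < β →
        Cov (BadAt c g m A β X) (K * X ^ (3 - 1 / c) * (1 + Real.log X) / (A.card * β)) (1 / X) := by
  obtain ⟨K, hK1, X₀, hX₀, H⟩ := scale hc C hC m hm
  have hc0 : 0 < c := by linarith
  have hm1 : (1 : ℝ) ≤ m := by exact_mod_cast hm
  have hmass := mass_pos
  have hK0 : 0 < K := by linarith
  obtain ⟨K', hK'⟩ : ∃ K' : ℝ, K' = 4 * K * (2 * K * (2 + K * (2 * (1 + Real.log K + 1)))) * K ^ 2 / mass ^ 2 := ⟨_, rfl⟩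
  have hlK : 0 ≤ Real.log K := Real.log_nonneg hK1
  have hK'0 : 0 < K' := by rw [hK']; positivity
  refine ⟨K', hK'0, X₀, hX₀, fun X hX g hg A hA hA1 β hβ => ?_⟩
  obtain ⟨M, Y₀, L, hY₀, hM1, hMle, hMc, hMX, hL1, hLle, hLg, _, hreg⟩ := H X hX
  have hX1 : 1 ≤ X := hX₀.trans hX
  have hX0 : 0 < X := by linarith
  have hA1' : (1 : ℝ) ≤ A.card := by exact_mod_cast hA1
  have hlX : 0 ≤ Real.log X := Real.log_nonneg hX1
  obtain ⟨δ, hδ⟩ : ∃ δ : ℝ, δ = 1 / (4 * K * X) := ⟨_, rfl⟩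
  have hKX : 1 ≤ K * X := one_le_mul_of_one_le_of_one_le hK1 hX1
  have hδ0 : 0 < δ := by rw [hδ]; positivity
  have hδ1 : δ ≤ 1 := by
    rw [hδ, div_le_one (by positivity)]
    nlinarith
  have hδX : δ ≤ 1 / X := by
    rw [hδ]
    apply one_div_le_one_div_of_le hX0
    nlinarith
  obtain ⟨Y, hY⟩ : ∃ Y : Finset ℕ, Y = (Finset.range (M + 1)).filter (fun y : ℕ => Y₀ ≤ (y : ℝ)) := ⟨_, rfl⟩
  have hYM : ∀ y ∈ Y, y ≤ M := by
    intro y hy
    rw [hY, Finset.mem_filter, Finset.mem_range] at hy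
    omega
  have hYY : ∀ y ∈ Y, Y₀ ≤ (y : ℝ) := by
    intro y hy
    rw [hY, Finset.mem_filter] at hy
    exact hy.2
  have hYc : (Y.card : ℝ) ≤ K * X ^ (1 / c) := by
    have h1 : Y.card ≤ M + 1 := by
      rw [hY]
      refine (Finset.card_filter_le _ _).trans ?_
      rw [Finset.card_range]
    have h2 : (Y.card : ℝ) ≤ (M : ℝ) + 1 := by exact_mod_cast h1
    exact h2.trans hMle
  have hY₀0 : 0 < Y₀ := by linarith
  have hg0 : 0 < Y₀ ^ (c - 1) := by positivity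
  have hL0 : 0 < L := by linarith
  obtain ⟨Z, hZ⟩ : ∃ Z : ℝ, Z = mass ^ 3 * A.card ^ 2 * β / L ^ 2 := ⟨_, rfl⟩
  have hZ0 : 0 < Z := by rw [hZ]; positivity
  have hcov : Cov (BadAt c g m A β X) (2 * (A.card * mass) * Y.card * (2 + L / Y₀ ^ (c - 1) * (2 * (1 + Real.log M))) / (δ * Z)) δ := by
    apply cov_of_sep _ _ _ hδ0.le
    intro x T hT hsep
    apply En_few A hL0 hg0 Y M hYM (fun y => (y : ℝ) ^ c) g (fun y hy z hz => pow_sep hc hY₀0 y z (hYY y hy) (hYY z hz))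
      hδ0 hδ1 hZ0 x T (fun a ha => ⟨(hT a ha).2.1, (hT a ha).2.2⟩) hsep
    intro α hα t ht1 ht2
    obtain ⟨hα1, hα2, S, hS, hβS, hno⟩ := (hT α hα).1
    obtain ⟨n, hn⟩ : ∃ n : ℕ, n = ⌈4 * X⌉₊ := ⟨_, rfl⟩
    have hSn : ∀ s ∈ S, s ≤ n := by
      intro s hs
      have h1 : (s : ℝ) ≤ n := by
        rw [hn]
        exact (hS s hs).2.trans (Nat.le_ceil _)
      exact_mod_cast h1
    obtain ⟨B, hB⟩ : ∃ B : Finset ℕ, B = S.image (fun s => n - s) := ⟨_, rfl⟩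
    have hBc : B.card = S.card := by
      rw [hB]
      apply Finset.card_image_of_injOn
      intro s hs s' hs' h
      have h1 := hSn s hs
      have h2 := hSn s' hs'
      simp only at h
      omega
    have hβB : β ≤ B.card := by rw [hBc]; exact hβS
    by_contra hcon
    push Not at hcon
    have h1 : En A L Y (fun y => (y : ℝ) ^ c) g t < mass ^ 3 * A.card ^ 2 * B.card / L ^ 2 := by
      refine hcon.trans_le ?_
      rw [hZ]
      gcongr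
    have hrep := det A B hL0 Y (fun y => (y : ℝ) ^ c) g t ((n : ℝ) + 1 / 2) (by
      intro a ha b hb
      have ha1 := hA a ha
      have ha0 : (0 : ℝ) ≤ a := Nat.cast_nonneg a
      rw [hB, Finset.mem_image] at hb
      obtain ⟨s, hs, rfl⟩ := hb
      have hs1 := hS s hs
      have hcast : ((n - s : ℕ) : ℝ) = n - s := by rw [Nat.cast_sub (hSn s hs)]
      rw [hcast]
      obtain ⟨y, hy0, hyM, hyY, hy1, hy2⟩ := hreg g hg t ((n : ℝ) + 1 / 2 - (n - s) - a) (by linarith) (by linarith)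
        (by linarith [hs1.1]) (by linarith [hs1.2])
      refine ⟨y, ?_, hy1, hy2⟩
      rw [hY, Finset.mem_filter, Finset.mem_range]
      exact ⟨by omega, hyY⟩) h1
    obtain ⟨a, ha, b, hb, y, hy, hlt⟩ := hrep
    have hy1 : (1 : ℝ) ≤ y := hY₀.trans (hYY y hy)
    have hyp : 0 < y := by
      have : (0 : ℝ) < y := by linarith
      exact_mod_cast this
    have hyc : (y : ℝ) ^ c ≤ K * X := by
      refine le_trans ?_ hMc
      exact Real.rpow_le_rpow (Nat.cast_nonneg _) (by exact_mod_cast hYM y hy) hc0.le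
    have hyc0 : 0 ≤ (y : ℝ) ^ c := by positivity
    have hdif : |(t - α) * (y : ℝ) ^ c| ≤ 1 / 4 := by
      rw [abs_mul, abs_of_nonneg (by linarith : 0 ≤ t - α), abs_of_nonneg hyc0]
      calc (t - α) * (y : ℝ) ^ c ≤ δ * (K * X) := mul_le_mul (by linarith) hyc hyc0 hδ0.le
        _ = 1 / 4 := by rw [hδ]; field_simp
    rw [hB, Finset.mem_image] at hb
    obtain ⟨s, hs, rfl⟩ := hb
    have hcast : ((n - s : ℕ) : ℝ) = n - s := by rw [Nat.cast_sub (hSn s hs)]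
    rw [hcast] at hlt
    apply hno a ha s hs y hyp
    have h2 : |(s : ℝ) + 1 / 2 - a - (α * (y : ℝ) ^ c + g y)| < 1 / 2 := by
      have e : (s : ℝ) + 1 / 2 - a - (α * (y : ℝ) ^ c + g y) =
          ((n : ℝ) + 1 / 2 - (n - s) - a - (t * (y : ℝ) ^ c + g y)) + (t - α) * (y : ℝ) ^ c := by ring
      rw [e]
      exact (abs_add_le _ _).trans_lt (by linarith)
    rw [abs_lt] at h2
    have h3 : ⌊α * (y : ℝ) ^ c + g y⌋ = (s : ℤ) - a := by
      rw [Int.floor_eq_iff]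
      push_cast
      constructor <;> linarith [h2.1, h2.2]
    rw [h3]
    ring
  refine hcov.mono le_rfl ?_ hδX
  -- the size
  have hlM : Real.log M ≤ Real.log K + Real.log X := by
    rw [← Real.log_mul hK0.ne' hX0.ne']
    have hM0 : (0 : ℝ) < M := by exact_mod_cast hM1
    exact Real.log_le_log hM0 hMX
  have hlog : 2 + L / Y₀ ^ (c - 1) * (2 * (1 + Real.log M)) ≤ (2 + K * (2 * (1 + Real.log K + 1))) * (1 + Real.log X) := by
    have h1 : L / Y₀ ^ (c - 1) * (2 * (1 + Real.log M)) ≤ K * (2 * (1 + (Real.log K + Real.log X))) := by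
      have hlM0 : 0 ≤ Real.log M := Real.log_nonneg (by exact_mod_cast hM1)
      gcongr
    refine (add_le_add_right h1 2).trans ?_
    have h2 : 0 ≤ K * Real.log K := by positivity
    have h3 : 0 ≤ K * Real.log X := by positivity
    have h4 : 0 ≤ K * Real.log K * Real.log X := by positivity
    nlinarith
  rw [hZ]
  have hX2 : X ^ (1 / c) * (X ^ (1 - 1 / c)) ^ 2 * X = X ^ (3 - 1 / c) := by
    rw [← Real.rpow_natCast (X ^ (1 - 1 / c)) 2, ← Real.rpow_mul hX0.le, ← Real.rpow_add hX0, ← Real.rpow_add_one hX0.ne']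
    congr 1
    push_cast
    ring
  have hstep : 2 * (A.card * mass) * Y.card * (2 + L / Y₀ ^ (c - 1) * (2 * (1 + Real.log M))) / (δ * (mass ^ 3 * A.card ^ 2 * β / L ^ 2)) =
      4 * K * X * (2 * Y.card * (2 + L / Y₀ ^ (c - 1) * (2 * (1 + Real.log M)))) * L ^ 2 / (mass ^ 2 * (A.card * β)) := by
    rw [hδ]
    field_simp
  rw [hstep, hK', ← hX2]
  have hL2 : L ^ 2 ≤ (K * X ^ (1 - 1 / c)) ^ 2 := pow_le_pow_left₀ (by linarith) hLle 2
  have hlog0 : 0 ≤ 2 + L / Y₀ ^ (c - 1) * (2 * (1 + Real.log M)) := by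
    have hlM0 : 0 ≤ Real.log M := Real.log_nonneg (by exact_mod_cast hM1)
    positivity
  calc 4 * K * X * (2 * Y.card * (2 + L / Y₀ ^ (c - 1) * (2 * (1 + Real.log M)))) * L ^ 2 / (mass ^ 2 * (A.card * β))
      ≤ 4 * K * X * (2 * (K * X ^ (1 / c)) * ((2 + K * (2 * (1 + Real.log K + 1))) * (1 + Real.log X))) *
        (K * X ^ (1 - 1 / c)) ^ 2 / (mass ^ 2 * (A.card * β)) := by gcongr
    _ = _ := by field_simp

end Pool.Agent.H96.WG
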