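import Pool.Agent.H96.WG.C

set_option autoImplicit false

/-! # Large and small sets of integers, and the sets of exceptional coefficients -/

namespace Pool.Agent.H96.WG

open MeasureTheory Set Filter
open scoped NNReal ENNReal Topology
open Pool.Agent.H96.FL (Cov cov_of_sep Cov.mono dim_limsup)

/-- `A` has at least `X ^ a` elements up to `X`, for all large `X`. -/
def Many (A : Set ℕ) (a : ℝ) : Prop :=
  ∀ᶠ X : ℝ in atTop, ∃ S : Finset ℕ, (∀ s ∈ S, s ∈ A ∧ (s : ℝ) ≤ X) ∧ X ^ a ≤ S.card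

/-- `E` has fewer than `X ^ e` elements in `[X, 4 X]`, for all large powers `X` of two. -/
def Few (E : Set ℕ) (e : ℝ) : Prop :=
  ∀ᶠ i : ℕ in atTop, ∀ S : Finset ℕ, (∀ s ∈ S, s ∈ E ∧ (2 : ℝ) ^ i ≤ s ∧ (s : ℝ) ≤ 4 * 2 ^ i) → (S.card : ℝ) < ((2 : ℝ) ^ i) ^ e

/-- the sums of an element of `S` and of an integral part `⌊f y⌋`, `y ≥ 1` -/
def Plus (f : ℕ → ℝ) (S : Set ℕ) : Set ℕ := {n : ℕ | ∃ s ∈ S, ∃ y : ℕ, 0 < y ∧ (n : ℤ) = s + ⌊f y⌋}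

lemma geo_sum (ρ σ : ℝ) (h : ρ < σ) : Summable fun i : ℕ => ((2 : ℝ) ^ i) ^ ρ * (1 + i) * (2 * (1 / 2 ^ i)) ^ σ := by
  obtain ⟨r, hr⟩ : ∃ r : ℝ, r = (2 : ℝ) ^ (ρ - σ) := ⟨_, rfl⟩
  have hr0 : 0 < r := by rw [hr]; positivity
  have hr1 : r < 1 := by rw [hr]; exact Real.rpow_lt_one_of_one_lt_of_neg (by norm_num) (by linarith)
  have hrn : ‖r‖ < 1 := by rw [Real.norm_of_nonneg hr0.le]; exact hr1
  have h1 : Summable fun i : ℕ => (2 : ℝ) ^ σ * (((i : ℝ) ^ 1 * r ^ i) + r ^ i) :=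
    ((summable_pow_mul_geometric_of_norm_lt_one 1 hrn).add (summable_geometric_of_norm_lt_one hrn)).mul_left _
  refine h1.congr fun i => ?_
  have e1 : ((2 : ℝ) ^ i) ^ ρ * (2 * (1 / 2 ^ i)) ^ σ = 2 ^ σ * r ^ i := by
    rw [Real.mul_rpow (by norm_num) (by positivity), one_div, Real.inv_rpow (by positivity), hr,
      ← Real.rpow_natCast ((2 : ℝ) ^ (ρ - σ)) i, ← Real.rpow_mul (by norm_num), ← Real.rpow_natCast 2 i,
      ← Real.rpow_mul (by norm_num), ← Real.rpow_mul (by norm_num), ← Real.rpow_neg (by norm_num)]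
    rw [mul_left_comm, ← Real.rpow_add (by norm_num)]
    congr 2
    ring
  rw [pow_one]
  calc (2 : ℝ) ^ σ * ((i : ℝ) * r ^ i + r ^ i) = (1 + i) * (2 ^ σ * r ^ i) := by ring
    _ = _ := by rw [← e1]; ring

/-- the exceptional sets of the scales `2 ^ i` -/
theorem dim_scale (E : ℕ → Set ℝ) (K ρ : ℝ) (hρ : 0 ≤ ρ) (i₀ : ℕ)
    (hE : ∀ i, i₀ ≤ i → Cov (E i) (K * (((2 : ℝ) ^ i) ^ ρ * (1 + i))) (1 / 2 ^ i)) :
    dimH {α : ℝ | ∃ᶠ i in atTop, α ∈ E i} ≤ ENNReal.ofReal ρ := by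
  apply le_of_forall_gt
  intro s hs
  rcases eq_or_ne s ⊤ with h | h
  · rw [h]
    have h1 : dimH (Set.univ : Set ℝ) = 1 := Real.dimH_univ
    refine lt_of_le_of_lt (dimH_mono (subset_univ _)) ?_
    rw [h1]
    exact ENNReal.one_lt_top
  lift s to ℝ≥0 using h with σ
  have hσ : ρ < σ := by
    have h1 := (ENNReal.ofReal_lt_iff_lt_toReal hρ ENNReal.coe_ne_top).1 hs
    rwa [ENNReal.coe_toReal] at h1
  obtain ⟨τ, hτ1, hτ2⟩ := exists_between hσ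
  obtain ⟨τ', hτ'⟩ : ∃ τ' : ℝ≥0, τ' = τ.toNNReal := ⟨_, rfl⟩
  have hτ0 : 0 < τ := lt_of_le_of_lt hρ hτ1
  have hτc : (τ' : ℝ) = τ := by rw [hτ']; exact Real.coe_toNNReal _ hτ0.le
  have hτ'0 : 0 < τ' := by
    have : (0 : ℝ) < (τ' : ℝ) := by rw [hτc]; exact hτ0
    exact_mod_cast this
  have hsh : {α : ℝ | ∃ᶠ i in atTop, α ∈ E i} ⊆ {α : ℝ | ∃ᶠ i in atTop, α ∈ E (i + i₀)} := by
    intro α hα
    rw [mem_ofPred_eq, frequently_atTop] at hα ⊢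
    intro k
    obtain ⟨j, hj1, hj2⟩ := hα (k + i₀)
    exact ⟨j - i₀, by omega, by rwa [show j - i₀ + i₀ = j by omega]⟩
  refine lt_of_le_of_lt (dimH_mono hsh) ?_
  refine lt_of_le_of_lt (dim_limsup (fun i => E (i + i₀)) (fun i => K * (((2 : ℝ) ^ (i + i₀)) ^ ρ * (1 + ((i + i₀ : ℕ) : ℝ))))
    (fun i => 1 / 2 ^ (i + i₀)) τ' hτ'0 (fun i => hE _ (by omega)) (fun i => by positivity) ?_ ?_ ?_) ?_
  · intro i j hij
    apply one_div_le_one_div_of_le (by positivity)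
    exact pow_le_pow_right₀ (by norm_num) (by omega)
  · have h1 : Tendsto (fun i : ℕ => ((1 : ℝ) / 2) ^ i) atTop (𝓝 0) :=
      tendsto_pow_atTop_nhds_zero_of_lt_one (by norm_num) (by norm_num)
    have h2 := (tendsto_add_atTop_iff_nat i₀).2 h1
    refine h2.congr fun i => ?_
    rw [div_pow, one_pow]
  · rw [hτc]
    have h1 := (summable_nat_add_iff i₀).2 ((geo_sum ρ τ hτ1).mul_left K)
    refine h1.congr fun i => ?_
    ring
  · rw [ENNReal.coe_lt_coe]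
    have : (τ' : ℝ) < σ := by rw [hτc]; exact hτ2
    exact_mod_cast this

/-- a property of `α > 0`, covered for each `m` in `[1 / m, m]` -/
theorem dim_union (E : ℕ → ℕ → Set ℝ) (ρ : ℝ) (hρ : 0 ≤ ρ)
    (hE : ∀ m : ℕ, 1 ≤ m → ∃ K : ℝ, ∃ i₀ : ℕ, ∀ i, i₀ ≤ i → Cov (E m i) (K * (((2 : ℝ) ^ i) ^ ρ * (1 + i))) (1 / 2 ^ i)) :
    dimH (⋃ m : ℕ, {α : ℝ | ∃ᶠ i in atTop, α ∈ E (m + 1) i}) ≤ ENNReal.ofReal ρ := by
  rw [dimH_iUnion]
  refine iSup_le fun m => ?_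
  obtain ⟨K, i₀, h⟩ := hE (m + 1) (by omega)
  exact dim_scale _ K ρ hρ i₀ h

lemma two_tendsto : Tendsto (fun i : ℕ => (2 : ℝ) ^ i) atTop atTop := tendsto_pow_atTop_atTop_of_one_lt (by norm_num)

/-- every large number lies in a dyadic interval -/
lemma dyadic {P : ℕ → Prop} (i₀ : ℕ) (h : ∀ i, i₀ ≤ i → ∀ n : ℕ, (2 : ℝ) ^ i ≤ n → (n : ℝ) ≤ 2 * 2 ^ i → P n) : ∀ᶠ n in atTop, P n := by
  filter_upwards [eventually_ge_atTop (2 ^ i₀), eventually_ge_atTop 1] with n hn hn1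
  have h1 : 2 ^ Nat.log 2 n ≤ n := Nat.pow_log_le_self 2 (by omega)
  have h2 : n < 2 ^ (Nat.log 2 n + 1) := Nat.lt_pow_succ_log_self (by norm_num) n
  have h3 : i₀ ≤ Nat.log 2 n := Nat.le_log_of_pow_le (by norm_num) hn
  apply h (Nat.log 2 n) h3 n (by exact_mod_cast h1)
  have h4 : (n : ℝ) < 2 ^ (Nat.log 2 n + 1) := by exact_mod_cast h2
  rw [pow_succ] at h4
  linarith

lemma one_add_log_le (i : ℕ) : 1 + Real.log ((2 : ℝ) ^ i) ≤ 1 + i := by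
  rw [Real.log_pow]
  have h1 : Real.log 2 ≤ 1 := by have := Real.log_two_lt_d9; linarith
  have h2 : (0 : ℝ) ≤ i := Nat.cast_nonneg i
  nlinarith

/-- the exceptional integers, for almost all coefficients -/
theorem exc (A : Set ℕ) (a c : ℝ) (hc : 1 ≤ c) (hA : Many A a) (g : ℕ → ℝ) (C : ℝ) (hg : ∀ y, |g y| ≤ C * ((y : ℝ) + 1) ^ (c - 1))
    (e κ ρ : ℝ) (hκ : 0 < κ) (hρ : 0 ≤ ρ) (hρe : 3 - a - e - 1 / c ≤ ρ) :
    ∃ E : Set ℝ, dimH E ≤ ENNReal.ofReal ρ ∧ ∀ α : ℝ, 0 < α → α ∉ E → ∀ᶠ i : ℕ in atTop, ∀ S : Finset ℕ,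
      (∀ s ∈ S, (3 / 4 * 2 ^ i ≤ (s : ℝ) ∧ (s : ℝ) ≤ 4 * 2 ^ i) ∧ s ∉ Plus (fun y => α * (y : ℝ) ^ c + g y) A) →
        (S.card : ℝ) < κ * ((2 : ℝ) ^ i) ^ e := by
  have hC : 0 ≤ C := by
    have h1 := hg 0
    have h2 : (((0 : ℕ) : ℝ) + 1) ^ (c - 1) = 1 := by simp
    rw [h2, mul_one] at h1
    exact (abs_nonneg _).trans h1
  obtain ⟨X₁, hX₁⟩ := eventually_atTop.1 hA
  choose! S hS1 hS2 using hX₁
  obtain ⟨E, hE⟩ : ∃ E : ℕ → ℕ → Set ℝ, E = fun m i => BadAt c g m (S ((2 : ℝ) ^ i / 8)) (κ * ((2 : ℝ) ^ i) ^ e) ((2 : ℝ) ^ i) := ⟨_, rfl⟩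
  refine ⟨⋃ m : ℕ, {α : ℝ | ∃ᶠ i in atTop, α ∈ E (m + 1) i}, ?_, ?_⟩
  · apply dim_union E _ hρ
    intro m hm
    obtain ⟨K, hK0, X₀, hX₀, H⟩ := core hc C hC m hm
    obtain ⟨i₀, hi₀⟩ := eventually_atTop.1 ((two_tendsto.eventually_ge_atTop X₀).and
      ((two_tendsto.eventually_ge_atTop (8 * X₁)).and (two_tendsto.eventually_ge_atTop 8)))
    refine ⟨K * 8 ^ a / κ, i₀, fun i hi => ?_⟩
    obtain ⟨h1, h2, h3⟩ := hi₀ i hi
    obtain ⟨X, hX⟩ : ∃ X : ℝ, X = (2 : ℝ) ^ i := ⟨_, rfl⟩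
    have hlog := one_add_log_le i
    rw [hE]
    simp only
    rw [← hX] at h1 h2 h3 hlog ⊢
    have hX0 : 0 < X := by linarith
    have hX1 : 1 ≤ X := by linarith
    have hX8 : 0 < X / 8 := by linarith
    have h4 : X₁ ≤ X / 8 := by linarith
    have hcard := hS2 (X / 8) h4
    have hcp : 0 < (X / 8) ^ a := Real.rpow_pos_of_pos hX8 _
    have hcard0 : (0 : ℝ) < (S (X / 8)).card := hcp.trans_le hcard
    have hc1 : 1 ≤ (S (X / 8)).card := by exact_mod_cast hcard0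
    have hbp : 0 < κ * X ^ e := by positivity
    have h5 := H X h1 g hg (S (X / 8)) (fun s hs => (hS1 (X / 8) h4 s hs).2) hc1 (κ * X ^ e) hbp
    refine h5.mono le_rfl ?_ le_rfl
    rw [div_le_iff₀ (by positivity)]
    have e1 : (X / 8) ^ a = X ^ a / 8 ^ a := Real.div_rpow hX0.le (by norm_num) _
    have e2 : X ^ (3 - a - e - 1 / c) * (X ^ a * X ^ e) = X ^ (3 - 1 / c) := by
      rw [← Real.rpow_add hX0, ← Real.rpow_add hX0]
      congr 1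
      ring
    have e3 : X ^ (3 - a - e - 1 / c) ≤ X ^ ρ := Real.rpow_le_rpow_of_exponent_le hX1 hρe
    have h8p : (0 : ℝ) < 8 ^ a := by positivity
    have hi0 : (0 : ℝ) ≤ i := Nat.cast_nonneg i
    calc K * X ^ (3 - 1 / c) * (1 + Real.log X) ≤ K * X ^ (3 - 1 / c) * (1 + i) :=
          mul_le_mul_of_nonneg_left hlog (by positivity)
      _ = K * 8 ^ a / κ * (X ^ (3 - a - e - 1 / c) * (1 + i)) * ((X / 8) ^ a * (κ * X ^ e)) := by
          rw [e1, ← e2]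
          field_simp
      _ ≤ K * 8 ^ a / κ * (X ^ ρ * (1 + i)) * ((S (X / 8)).card * (κ * X ^ e)) := by gcongr
  · intro α hα0 hαE
    rw [mem_iUnion, not_exists] at hαE
    obtain ⟨m, hm⟩ := exists_nat_ge (max α (1 / α))
    have h1 := hαE m
    rw [mem_ofPred_eq, not_frequently] at h1
    filter_upwards [h1, two_tendsto.eventually_ge_atTop (8 * X₁)] with i h2 h4 T hT
    by_contra hcon
    push Not at hcon
    apply h2
    rw [hE]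
    have hm1 : (1 : ℝ) / ((m + 1 : ℕ) : ℝ) ≤ α := by
      push_cast
      rw [div_le_iff₀ (by positivity)]
      have h5 : 1 / α ≤ m := (le_max_right _ _).trans hm
      rw [div_le_iff₀ hα0] at h5
      nlinarith
    have hm2 : α ≤ ((m + 1 : ℕ) : ℝ) := by
      push_cast
      have h5 : α ≤ m := (le_max_left _ _).trans hm
      linarith
    refine ⟨hm1, hm2, T, fun s hs => (hT s hs).1, hcon, ?_⟩
    intro a' ha' s hs y hy h6
    exact (hT s hs).2 ⟨a', (hS1 _ (by linarith) a' ha').1, y, hy, h6⟩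

/-- **One generic term.** -/
theorem one_term (A : Set ℕ) (a b c : ℝ) (hc : 1 ≤ c) (hA : Many A a)
    (g : ℕ → ℝ) (C : ℝ) (hg : ∀ y, |g y| ≤ C * ((y : ℝ) + 1) ^ (c - 1)) :
    ∃ E : Set ℝ, dimH E ≤ ENNReal.ofReal (3 - a - b - 1 / c) ∧ ∀ α : ℝ, 0 < α → α ∉ E → ∀ B : Set ℕ, Many B b →
      ∀ᶠ n : ℕ in atTop, ∃ t ∈ B, ∃ m ∈ Plus (fun y => α * (y : ℝ) ^ c + g y) A, n = m + t := by
  classical
  obtain ⟨E, hE1, hE2⟩ := exc A a c hc hA g C hg b ((8 : ℝ) ^ (-b)) (max 0 (3 - a - b - 1 / c)) (by positivity) (le_max_left _ _) (le_max_right _ _)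
  have hmax : ENNReal.ofReal (max 0 (3 - a - b - 1 / c)) = ENNReal.ofReal (3 - a - b - 1 / c) := by
    rcases le_total 0 (3 - a - b - 1 / c) with h | h
    · rw [max_eq_right h]
    · rw [max_eq_left h, ENNReal.ofReal_zero, ENNReal.ofReal_of_nonpos h]
  rw [hmax] at hE1
  refine ⟨E, hE1, fun α hα0 hα B hB => ?_⟩
  obtain ⟨X₂, hX₂⟩ := eventually_atTop.1 hB
  obtain ⟨i₀, hi₀⟩ := eventually_atTop.1 ((hE2 α hα0 hα).and (two_tendsto.eventually_ge_atTop (8 * X₂)))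
  apply dyadic i₀
  intro i hi n hn1 hn2
  obtain ⟨h2, h3⟩ := hi₀ i hi
  obtain ⟨T, hT1, hT2⟩ := hX₂ ((2 : ℝ) ^ i / 8) (by linarith)
  have h2i : (0 : ℝ) < 2 ^ i := by positivity
  have hTn : ∀ t ∈ T, t ≤ n := by
    intro t ht
    have h9 := (hT1 t ht).2
    have h10 : (t : ℝ) ≤ n := by linarith
    exact_mod_cast h10
  by_contra hcon
  push Not at hcon
  have h4 := h2 (T.image fun t => n - t) (by
    intro s hs
    obtain ⟨t, ht, rfl⟩ := Finset.mem_image.1 hs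
    have h9 := (hT1 t ht).2
    have h11 : (0 : ℝ) ≤ t := Nat.cast_nonneg t
    rw [Nat.cast_sub (hTn t ht)]
    refine ⟨⟨by linarith, by linarith⟩, fun hmem => ?_⟩
    have h12 := hTn t ht
    exact hcon t (hT1 t ht).1 (n - t) hmem (by omega))
  rw [Finset.card_image_of_injOn (fun t ht t' ht' h => by
    have h5 := hTn t ht
    have h6 := hTn t' ht'
    have h7 : n - t = n - t' := h
    omega)] at h4
  rw [Real.div_rpow h2i.le (by norm_num), div_eq_mul_inv, ← Real.rpow_neg (by norm_num), mul_comm] at hT2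
  linarith

/-- **The exceptional set of one generic term.** -/
theorem few_plus (A : Set ℕ) (a c : ℝ) (hc : 1 ≤ c) (hA : Many A a) (g : ℕ → ℝ) (C : ℝ)
    (hg : ∀ y, |g y| ≤ C * ((y : ℝ) + 1) ^ (c - 1)) (e : ℝ) (he : 2 - a - 1 / c < e) :
    ∃ E : Set ℝ, dimH E < 1 ∧ ∀ α : ℝ, 0 < α → α ∉ E → Few (Plus (fun y => α * (y : ℝ) ^ c + g y) A)ᶜ e := by
  obtain ⟨ρ, hρ⟩ : ∃ ρ : ℝ, ρ = max 0 (3 - a - e - 1 / c) := ⟨_, rfl⟩
  have hρ0 : 0 ≤ ρ := by rw [hρ]; exact le_max_left _ _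
  have hρ1 : ρ < 1 := by rw [hρ]; exact max_lt (by norm_num) (by linarith)
  obtain ⟨E, hE1, hE2⟩ := exc A a c hc hA g C hg e 1 ρ one_pos hρ0 (by rw [hρ]; exact le_max_right _ _)
  refine ⟨E, lt_of_le_of_lt hE1 (by rw [← ENNReal.ofReal_one]; exact (ENNReal.ofReal_lt_ofReal_iff one_pos).2 hρ1), fun α hα0 hα => ?_⟩
  filter_upwards [hE2 α hα0 hα] with i hi S hS
  have h2i : (0 : ℝ) < 2 ^ i := by positivity
  have h3 := hi S (fun s hs => by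
    obtain ⟨h4, h5, h6⟩ := hS s hs
    exact ⟨⟨by linarith, h6⟩, h4⟩)
  rwa [one_mul] at h3

end Pool.Agent.H96.WG
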