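import Pool.Agent.H96.WG.D

set_option autoImplicit false

/-! # One more generic term: the saving is doubled -/

namespace Pool.Agent.H96.WG

open MeasureTheory Set Filter
open scoped NNReal ENNReal Topology
open Pool.Agent.H96.FL (Cov cov_of_sep Cov.mono)

/-- a separated finite set in a short interval is small -/
lemma sep_card (T : Finset ℝ) (δ u l : ℝ) (hδ : 0 < δ) (hl : 0 ≤ l) (hT : ∀ t ∈ T, u ≤ t ∧ t ≤ u + l)
    (hsep : ∀ a ∈ T, ∀ b ∈ T, a ≠ b → δ < |b - a|) : (T.card : ℝ) ≤ l / δ + 1 := by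
  have h1 : T.card ≤ (Finset.range (⌊l / δ⌋₊ + 1)).card := by
    apply Finset.card_le_card_of_injOn (fun t => ⌊(t - u) / δ⌋₊)
    · intro t ht
      have h2 := hT t ht
      simp only [Finset.coe_range, Set.mem_Iio]
      apply Nat.lt_succ_of_le
      apply Nat.floor_le_floor
      apply div_le_div_of_nonneg_right _ hδ.le
      linarith [h2.2]
    · intro t ht t' ht' h
      by_contra hne
      have h2 := hsep t ht t' ht' hne
      have h3 : 0 ≤ (t - u) / δ := div_nonneg (by linarith [(hT t ht).1]) hδ.le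
      have h4 : 0 ≤ (t' - u) / δ := div_nonneg (by linarith [(hT t' ht').1]) hδ.le
      have h5 := Nat.floor_le h3
      have h6 := Nat.lt_floor_add_one ((t - u) / δ)
      have h7 := Nat.floor_le h4
      have h8 := Nat.lt_floor_add_one ((t' - u) / δ)
      simp only at h
      rw [h] at h5 h6
      have h9 : |(t' - t) / δ| < 1 := by
        have e : (t' - t) / δ = (t' - u) / δ - (t - u) / δ := by ring
        rw [e, abs_lt]
        constructor <;> linarith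
      rw [abs_div, abs_of_pos hδ, div_lt_one hδ] at h9
      linarith
  rw [Finset.card_range] at h1
  have h2 : (⌊l / δ⌋₊ : ℝ) ≤ l / δ := Nat.floor_le (by positivity)
  have h3 : (T.card : ℝ) ≤ (⌊l / δ⌋₊ : ℝ) + 1 := by exact_mod_cast h1
  linarith

/-- few separated coefficients with a given difference of two integral parts -/
lemma floor_few (T : Finset ℝ) (X D u₁ u₂ w₁ w₂ : ℝ) (h : ℤ) (hX : 0 < X) (hD : 0 < D) (hu : D ≤ |u₁ - u₂|)
    (hsep : ∀ a ∈ T, ∀ b ∈ T, a ≠ b → 1 / X < |b - a|) :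
    ((T.filter fun β => ⌊β * u₁ + w₁⌋ - ⌊β * u₂ + w₂⌋ = h).card : ℝ) ≤ 2 * X / D + 1 := by
  have hP : 0 < |u₁ - u₂| := lt_of_lt_of_le hD hu
  have hP0 : u₁ - u₂ ≠ 0 := abs_pos.1 hP
  obtain ⟨p, hp⟩ : ∃ p : ℝ, p = u₁ - u₂ := ⟨_, rfl⟩
  obtain ⟨q, hq⟩ : ∃ q : ℝ, q = ((h : ℝ) - (w₁ - w₂)) / p := ⟨_, rfl⟩
  rw [← hp] at hP hP0 hu
  have key : ∀ β ∈ T.filter (fun β => ⌊β * u₁ + w₁⌋ - ⌊β * u₂ + w₂⌋ = h), q - 1 / |p| ≤ β ∧ β ≤ q - 1 / |p| + 2 / |p| := by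
    intro β hβ
    rw [Finset.mem_filter] at hβ
    have h1 := Int.floor_le (β * u₁ + w₁)
    have h2 := Int.lt_floor_add_one (β * u₁ + w₁)
    have h3 := Int.floor_le (β * u₂ + w₂)
    have h4 := Int.lt_floor_add_one (β * u₂ + w₂)
    have h5 : (⌊β * u₁ + w₁⌋ : ℝ) - ⌊β * u₂ + w₂⌋ = h := by exact_mod_cast hβ.2
    have h6 : |p * β - (h - (w₁ - w₂))| ≤ 1 := by
      rw [hp, abs_le]
      constructor <;> linarith
    have h7 : |β - q| ≤ 1 / |p| := by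
      rw [le_div_iff₀ hP, ← abs_mul, hq]
      have e : (β - (h - (w₁ - w₂)) / p) * p = p * β - (h - (w₁ - w₂)) := by field_simp
      rw [e]
      exact h6
    rw [abs_le] at h7
    have e2 : 2 / |p| = 1 / |p| + 1 / |p| := by ring
    constructor <;> linarith [h7.1, h7.2]
  have h1 := sep_card (T.filter fun β => ⌊β * u₁ + w₁⌋ - ⌊β * u₂ + w₂⌋ = h) (1 / X) (q - 1 / |p|) (2 / |p|) (by positivity)
    (by positivity) key (fun a ha b hb hab => hsep a (Finset.mem_filter.1 ha).1 b (Finset.mem_filter.1 hb).1 hab)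
  refine h1.trans ?_
  have e : 2 / |p| / (1 / X) = 2 * X / |p| := by field_simp
  rw [e]
  have := div_le_div_of_nonneg_left (by positivity : 0 ≤ 2 * X) hD hu
  linarith

open Classical in
theorem dbl_cov (S : Set ℕ) (d h : ℕ → ℝ) (m : ℕ) (hm : 1 ≤ m) (X D R ρ : ℝ) (hX : 1 ≤ X) (hD : 0 < D) (hR0 : 0 ≤ R) (hρ : 0 < ρ)
    (y₁ y₂ : ℕ) (hy₁ : 0 < y₁) (hy₂ : 0 < y₂) (h1 : (m + 1) * d y₁ ≤ X / 4) (h0 : 0 ≤ d y₂) (hDd : D ≤ d y₁ - d y₂)
    (hh₁ : |h y₁| ≤ d y₁ / m) (hh₂ : |h y₂| ≤ d y₂ / m)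
    (hR : ∀ U : Finset ℕ, (∀ s ∈ U, s ∈ Sᶜ ∧ X / 2 ≤ s ∧ (s : ℝ) ≤ 4 * X) → (U.card : ℝ) ≤ R) :
    Cov {β : ℝ | 1 / (m : ℝ) ≤ β ∧ β ≤ m ∧ ∃ U : Finset ℕ, (∀ s ∈ U, s ∈ (Plus (fun y => β * d y + h y) S)ᶜ ∧ X ≤ s ∧ (s : ℝ) ≤ 4 * X) ∧
      ρ ≤ U.card} (R ^ 2 * (2 * X / D + 1) / ρ) (1 / X) := by
  have hm1 : (1 : ℝ) ≤ m := by exact_mod_cast hm
  have hm0 : (0 : ℝ) < m := by linarith
  have hX0 : 0 < X := by linarith
  obtain ⟨F₀, hF₀⟩ : ∃ F₀ : Finset ℕ, F₀ = (Finset.range (⌊4 * X⌋₊ + 1)).filter (fun k : ℕ => k ∈ Sᶜ ∧ X / 2 ≤ (k : ℝ)) := ⟨_, rfl⟩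
  have hF₀c : (F₀.card : ℝ) ≤ R := by
    apply hR
    intro s hs
    rw [hF₀, Finset.mem_filter, Finset.mem_range] at hs
    refine ⟨hs.2.1, hs.2.2, ?_⟩
    have h2 : s ≤ ⌊4 * X⌋₊ := by omega
    exact (Nat.le_floor_iff (by positivity)).1 h2
  apply cov_of_sep _ _ _ (by positivity)
  intro x T hT hsep
  have hd1 : D ≤ |d y₁ - d y₂| := hDd.trans (le_abs_self _)
  -- each bad coefficient gives many pairs
  have hmany : ∀ β ∈ T, ρ ≤ (((F₀ ×ˢ F₀).filter fun q : ℕ × ℕ => ⌊β * d y₁ + h y₁⌋ - ⌊β * d y₂ + h y₂⌋ = (q.2 : ℤ) - q.1).card : ℝ) := by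
    intro β hβ
    obtain ⟨hβ1, hβ2, U, hU, hUc⟩ := (hT β hβ).1
    refine hUc.trans ?_
    have hβ0 : 0 < β := lt_of_lt_of_le (by positivity) hβ1
    have hdy1 : 0 ≤ d y₁ := by linarith
    have hb : ∀ y, 0 ≤ d y → d y ≤ d y₁ → |h y| ≤ d y / m → 0 ≤ β * d y + h y ∧ β * d y + h y ≤ X / 4 := by
      intro y h2 h3 h4
      have h5 := abs_le.1 h4
      have h6 : 1 / (m : ℝ) * d y ≤ β * d y := mul_le_mul_of_nonneg_right hβ1 h2
      have h7 : β * d y ≤ m * d y := mul_le_mul_of_nonneg_right hβ2 h2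
      have h8 : d y / m = 1 / (m : ℝ) * d y := by ring
      have h9 : d y / m ≤ d y := div_le_self h2 hm1
      have h10 : (m + 1) * d y ≤ (m + 1) * d y₁ := mul_le_mul_of_nonneg_left h3 (by positivity)
      constructor
      · linarith [h5.1]
      · linarith [h5.2]
    have hb1 := hb y₁ hdy1 le_rfl hh₁
    have hb2 := hb y₂ h0 (by linarith) hh₂
    have hfl : ∀ y, (0 ≤ β * d y + h y ∧ β * d y + h y ≤ X / 4) → 0 ≤ ⌊β * d y + h y⌋ ∧ (⌊β * d y + h y⌋ : ℝ) ≤ X / 4 := by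
      intro y hy
      exact ⟨Int.floor_nonneg.2 hy.1, (Int.floor_le _).trans hy.2⟩
    have hkey : ∀ y, 0 < y → (0 ≤ β * d y + h y ∧ β * d y + h y ≤ X / 4) → ∀ s ∈ U, ((s : ℤ) - ⌊β * d y + h y⌋).toNat ∈ F₀ ∧
        (((s : ℤ) - ⌊β * d y + h y⌋).toNat : ℤ) = (s : ℤ) - ⌊β * d y + h y⌋ := by
      intro y hy0 hy s hs
      obtain ⟨h2, h3⟩ := hfl y hy
      obtain ⟨h4, h5, h6⟩ := hU s hs
      have h7 : (0 : ℤ) ≤ (s : ℤ) - ⌊β * d y + h y⌋ := by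
        have : (0 : ℝ) ≤ (s : ℝ) - (⌊β * d y + h y⌋ : ℝ) := by linarith
        exact_mod_cast this
      have h8 : (((s : ℤ) - ⌊β * d y + h y⌋).toNat : ℤ) = (s : ℤ) - ⌊β * d y + h y⌋ := Int.toNat_of_nonneg h7
      have h9 : ((((s : ℤ) - ⌊β * d y + h y⌋).toNat : ℕ) : ℝ) = (s : ℝ) - ⌊β * d y + h y⌋ := by exact_mod_cast h8
      refine ⟨?_, h8⟩
      rw [hF₀, Finset.mem_filter, Finset.mem_range]
      have h10 : (0 : ℝ) ≤ (⌊β * d y + h y⌋ : ℝ) := by exact_mod_cast h2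
      refine ⟨?_, ?_, ?_⟩
      · apply Nat.lt_succ_of_le
        apply Nat.le_floor
        rw [h9]
        linarith
      · intro hmem
        apply h4
        exact ⟨_, hmem, y, hy0, by rw [h8]; ring⟩
      · rw [h9]
        linarith
    have h2 : U.card ≤ ((F₀ ×ˢ F₀).filter fun q : ℕ × ℕ => ⌊β * d y₁ + h y₁⌋ - ⌊β * d y₂ + h y₂⌋ = (q.2 : ℤ) - q.1).card := by
      apply Finset.card_le_card_of_injOn (fun s : ℕ => (((s : ℤ) - ⌊β * d y₁ + h y₁⌋).toNat, ((s : ℤ) - ⌊β * d y₂ + h y₂⌋).toNat))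
      · intro s hs
        obtain ⟨h3, h4⟩ := hkey y₁ hy₁ hb1 s hs
        obtain ⟨h5, h6⟩ := hkey y₂ hy₂ hb2 s hs
        simp only [Finset.coe_filter, Finset.mem_product, Set.mem_ofPred_eq]
        refine ⟨⟨h3, h5⟩, ?_⟩
        rw [h4, h6]
        ring
      · intro s hs s' hs' hss
        simp only [Prod.mk.injEq] at hss
        have h3 := (hkey y₁ hy₁ hb1 s hs).2
        have h4 := (hkey y₁ hy₁ hb1 s' hs').2
        rw [hss.1, h4] at h3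
        have : (s : ℤ) = s' := by linarith
        exact_mod_cast this
    exact_mod_cast h2
  rw [le_div_iff₀ hρ]
  have h2 : (T.card : ℝ) * ρ ≤ ∑ β ∈ T, (((F₀ ×ˢ F₀).filter fun q : ℕ × ℕ => ⌊β * d y₁ + h y₁⌋ - ⌊β * d y₂ + h y₂⌋ = (q.2 : ℤ) - q.1).card : ℝ) := by
    calc (T.card : ℝ) * ρ = ∑ _β ∈ T, ρ := by rw [Finset.sum_const, nsmul_eq_mul]
      _ ≤ _ := Finset.sum_le_sum hmany
  refine h2.trans ?_
  have h3 : ∑ β ∈ T, (((F₀ ×ˢ F₀).filter fun q : ℕ × ℕ => ⌊β * d y₁ + h y₁⌋ - ⌊β * d y₂ + h y₂⌋ = (q.2 : ℤ) - q.1).card : ℝ) =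
      ∑ q ∈ F₀ ×ˢ F₀, ((T.filter fun β => ⌊β * d y₁ + h y₁⌋ - ⌊β * d y₂ + h y₂⌋ = (q.2 : ℤ) - q.1).card : ℝ) := by
    have e1 : ∀ β, (((F₀ ×ˢ F₀).filter fun q : ℕ × ℕ => ⌊β * d y₁ + h y₁⌋ - ⌊β * d y₂ + h y₂⌋ = (q.2 : ℤ) - q.1).card : ℝ) =
        ∑ q ∈ F₀ ×ˢ F₀, if ⌊β * d y₁ + h y₁⌋ - ⌊β * d y₂ + h y₂⌋ = (q.2 : ℤ) - q.1 then (1 : ℝ) else 0 := by
      intro β
      rw [Finset.card_filter]
      push_cast
      rfl
    have e2 : ∀ q : ℕ × ℕ, ((T.filter fun β => ⌊β * d y₁ + h y₁⌋ - ⌊β * d y₂ + h y₂⌋ = (q.2 : ℤ) - q.1).card : ℝ) =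
        ∑ β ∈ T, if ⌊β * d y₁ + h y₁⌋ - ⌊β * d y₂ + h y₂⌋ = (q.2 : ℤ) - q.1 then (1 : ℝ) else 0 := by
      intro q
      rw [Finset.card_filter]
      push_cast
      rfl
    simp_rw [e1, e2]
    exact Finset.sum_comm
  rw [h3]
  have h4 : ∑ q ∈ F₀ ×ˢ F₀, ((T.filter fun β => ⌊β * d y₁ + h y₁⌋ - ⌊β * d y₂ + h y₂⌋ = (q.2 : ℤ) - q.1).card : ℝ) ≤
      ∑ _q ∈ F₀ ×ˢ F₀, (2 * X / D + 1) :=
    Finset.sum_le_sum fun q _ => floor_few T X D (d y₁) (d y₂) (h y₁) (h y₂) _ hX0 hD hd1 hsep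
  refine h4.trans ?_
  rw [Finset.sum_const, Finset.card_product, nsmul_eq_mul]
  push_cast
  have h5 : (F₀.card : ℝ) * F₀.card ≤ R ^ 2 := by
    rw [sq]
    exact mul_le_mul hF₀c hF₀c (Nat.cast_nonneg _) hR0
  exact mul_le_mul_of_nonneg_right h5 (by positivity)

/-- a term of the sequence between `X` and `C X`, for all large `X` -/
def NoGaps (d : ℕ → ℝ) : Prop := ∃ C : ℝ, 1 ≤ C ∧ ∀ᶠ X : ℝ in atTop, ∃ y : ℕ, 0 < y ∧ X ≤ d y ∧ d y ≤ C * X

/-- `h` is of a smaller order than `d` -/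
def Smaller (h d : ℕ → ℝ) : Prop := ∀ ε : ℝ, 0 < ε → ∀ᶠ y : ℕ in atTop, |h y| ≤ ε * |d y|

open Classical in
theorem double (S : Set ℕ) (e e' : ℝ) (he : 0 ≤ e) (hee : 2 * e - 1 < e') (hS : Few Sᶜ e) (d h : ℕ → ℝ) (hd : NoGaps d) (hh : Smaller h d) :
    ∃ E : Set ℝ, dimH E < 1 ∧ ∀ β : ℝ, 0 < β → β ∉ E → Few (Plus (fun y => β * d y + h y) S)ᶜ e' := by
  obtain ⟨C, hC1, hd⟩ := hd
  have hd' : ∀ m : ℕ, 1 ≤ m → ∃ X₁ : ℝ, ∀ X, X₁ ≤ X → ∃ y : ℕ, 0 < y ∧ X ≤ d y ∧ d y ≤ C * X ∧ |h y| ≤ d y / m := by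
    intro m hm
    have hm1 : (1 : ℝ) ≤ m := by exact_mod_cast hm
    obtain ⟨N, hN⟩ := eventually_atTop.1 (hh (1 / m) (by positivity))
    obtain ⟨X₁, hX₁⟩ := eventually_atTop.1 hd
    refine ⟨max X₁ (∑ y ∈ Finset.range N, |d y| + 1), fun X hX => ?_⟩
    obtain ⟨y, hy0, hy1, hy2⟩ := hX₁ X ((le_max_left _ _).trans hX)
    have hX2 := (le_max_right _ _).trans hX
    have hs0 : 0 ≤ ∑ y ∈ Finset.range N, |d y| := Finset.sum_nonneg fun _ _ => abs_nonneg _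
    have hdy : 0 ≤ d y := by linarith
    refine ⟨y, hy0, hy1, hy2, ?_⟩
    have hNy : N ≤ y := by
      by_contra hcon
      have h1 : |d y| ≤ ∑ y ∈ Finset.range N, |d y| :=
        Finset.single_le_sum (f := fun y => |d y|) (fun _ _ => abs_nonneg _) (Finset.mem_range.2 (by omega))
      rw [abs_of_nonneg hdy] at h1
      linarith
    have h2 := hN y hNy
    rw [abs_of_nonneg hdy] at h2
    refine h2.trans (le_of_eq ?_)
    ring
  obtain ⟨j₀, hj₀⟩ := eventually_atTop.1 hS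
  obtain ⟨ρ, hρ⟩ : ∃ ρ : ℝ, ρ = max 0 (2 * e - e') := ⟨_, rfl⟩
  have hρ0 : 0 ≤ ρ := by rw [hρ]; exact le_max_left _ _
  have hρ1 : ρ < 1 := by rw [hρ]; exact max_lt (by norm_num) (by linarith)
  obtain ⟨E, hE⟩ : ∃ E : ℕ → ℕ → Set ℝ, E = fun m i : ℕ => {β : ℝ | 1 / (m : ℝ) ≤ β ∧ β ≤ m ∧ ∃ U : Finset ℕ,
    (∀ s ∈ U, s ∈ (Plus (fun y => β * d y + h y) S)ᶜ ∧ (2 : ℝ) ^ i ≤ s ∧ (s : ℝ) ≤ 4 * 2 ^ i) ∧ ((2 : ℝ) ^ i) ^ e' ≤ U.card} := ⟨_, rfl⟩
  refine ⟨⋃ m : ℕ, {α : ℝ | ∃ᶠ i in atTop, α ∈ E (m + 1) i}, ?_, ?_⟩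
  · have h1 : dimH (⋃ m : ℕ, {α : ℝ | ∃ᶠ i in atTop, α ∈ E (m + 1) i}) ≤ ENNReal.ofReal ρ := by
      apply dim_union E _ hρ0
      intro m hm
      have hm1 : (1 : ℝ) ≤ m := by exact_mod_cast hm
      obtain ⟨X₁, hX₁⟩ := hd' m hm
      obtain ⟨M, hM⟩ : ∃ M : ℝ, M = m + 1 := ⟨_, rfl⟩
      have hM0 : 0 < M := by rw [hM]; linarith
      obtain ⟨i₀, hi₀⟩ := eventually_atTop.1 ((two_tendsto.eventually_ge_atTop (8 * M * C ^ 2 * max 0 X₁)).and
        (eventually_ge_atTop (j₀ + 1)))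
      refine ⟨4 * (16 * M * C + 1), i₀, fun i hi => ?_⟩
      obtain ⟨h2, h3⟩ := hi₀ i hi
      obtain ⟨X, hX⟩ : ∃ X : ℝ, X = (2 : ℝ) ^ i := ⟨_, rfl⟩
      have hX1 : 1 ≤ X := by rw [hX]; exact one_le_pow₀ (by norm_num)
      have hX0 : 0 < X := by linarith
      have hC0 : 0 < C := by linarith
      have hXm : 8 * M * C ^ 2 * X₁ ≤ X := by
        rw [hX]
        refine le_trans ?_ h2
        exact mul_le_mul_of_nonneg_left (le_max_right _ _) (by positivity)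
      have hz1 : X₁ ≤ X / (4 * M * C) := by
        rw [le_div_iff₀ (by positivity)]
        rcases le_total X₁ 0 with hz | hz
        · have : X₁ * (4 * M * C) ≤ 0 := mul_nonpos_of_nonpos_of_nonneg hz (by positivity)
          linarith
        · calc X₁ * (4 * M * C) = 4 * M * C * X₁ := by ring
            _ ≤ 8 * M * C ^ 2 * X₁ := by
                apply mul_le_mul_of_nonneg_right _ hz
                have h9 : 0 ≤ M * C * (2 * C - 1) := mul_nonneg (by positivity) (by linarith)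
                nlinarith
            _ ≤ X := hXm
      have hz2 : X₁ ≤ X / (8 * M * C ^ 2) := by
        rw [le_div_iff₀ (by positivity)]
        linarith
      obtain ⟨y₁, hy₁, ha1, ha2, ha3⟩ := hX₁ _ hz1
      obtain ⟨y₂, hy₂, hb1, hb2, hb3⟩ := hX₁ _ hz2
      have hR : ∀ U : Finset ℕ, (∀ s ∈ U, s ∈ Sᶜ ∧ X / 2 ≤ s ∧ (s : ℝ) ≤ 4 * X) → (U.card : ℝ) ≤ 2 * X ^ e := by
        intro U hU
        obtain ⟨i', rfl⟩ : ∃ i', i = i' + 1 := ⟨i - 1, by omega⟩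
        have hXi : X = 2 * 2 ^ i' := by rw [hX, pow_succ]; ring
        have hXi2 : (2 : ℝ) ^ i' = X / 2 := by rw [hXi]; ring
        have h5 := hj₀ i' (by omega) (U.filter fun s : ℕ => (s : ℝ) ≤ 4 * 2 ^ i') (fun s hs => by
          rw [Finset.mem_filter] at hs
          have h6 := hU s hs.1
          refine ⟨h6.1, ?_, hs.2⟩
          rw [hXi2]
          exact h6.2.1)
        have h6 := hj₀ (i' + 1) (by omega) (U.filter fun s : ℕ => ¬ (s : ℝ) ≤ 4 * 2 ^ i') (fun s hs => by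
          rw [Finset.mem_filter, not_le] at hs
          have h7 := hU s hs.1
          rw [← hX]
          refine ⟨h7.1, ?_, h7.2.2⟩
          rw [hXi]
          have : (0 : ℝ) < 2 ^ i' := by positivity
          linarith [hs.2])
        have h7 := Finset.card_filter_add_card_filter_not (s := U) (fun s : ℕ => (s : ℝ) ≤ 4 * 2 ^ i')
        have h8 : (U.card : ℝ) = ((U.filter fun s : ℕ => (s : ℝ) ≤ 4 * 2 ^ i').card : ℝ) +
            ((U.filter fun s : ℕ => ¬ (s : ℝ) ≤ 4 * 2 ^ i').card : ℝ) := by exact_mod_cast h7.symm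
        have h9 : ((2 : ℝ) ^ i') ^ e ≤ X ^ e := Real.rpow_le_rpow (by positivity) (by rw [hXi2]; linarith) he
        rw [← hX] at h6
        linarith
      have h5 := dbl_cov S d h m hm X (X / (8 * M * C)) (2 * X ^ e) (X ^ e') hX1 (by positivity) (by positivity) (by positivity)
        y₁ y₂ hy₁ hy₂ (by
          rw [← hM]
          calc M * d y₁ ≤ M * (C * (X / (4 * M * C))) := mul_le_mul_of_nonneg_left ha2 hM0.le
            _ = X / 4 := by field_simp) (by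
          refine le_trans ?_ hb1
          positivity) (by
          have h6 : d y₂ ≤ X / (8 * M * C) := by
            refine hb2.trans (le_of_eq ?_)
            field_simp
          have h7 : X / (4 * M * C) = X / (8 * M * C) + X / (8 * M * C) := by field_simp; ring
          linarith) ha3 hb3 hR
      rw [hE]
      simp only
      rw [← hX]
      refine h5.mono le_rfl ?_ le_rfl
      have e1 : 2 * X / (X / (8 * M * C)) + 1 = 16 * M * C + 1 := by field_simp; ring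
      have e2 : (2 * X ^ e) ^ 2 * (16 * M * C + 1) / X ^ e' = 4 * (16 * M * C + 1) * X ^ (2 * e - e') := by
        rw [Real.rpow_sub hX0, two_mul e, Real.rpow_add hX0]
        ring
      rw [e1, e2]
      apply mul_le_mul_of_nonneg_left _ (by positivity)
      have h6 : X ^ (2 * e - e') ≤ X ^ ρ := Real.rpow_le_rpow_of_exponent_le hX1 (by rw [hρ]; exact le_max_right _ _)
      have h7 : (0 : ℝ) ≤ i := Nat.cast_nonneg i
      have h8 : 0 < X ^ ρ := by positivity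
      nlinarith
    exact lt_of_le_of_lt h1 (by rw [← ENNReal.ofReal_one]; exact (ENNReal.ofReal_lt_ofReal_iff one_pos).2 hρ1)
  · intro β hβ0 hβE
    rw [mem_iUnion, not_exists] at hβE
    obtain ⟨m, hm⟩ := exists_nat_ge (max β (1 / β))
    have h1 := hβE m
    rw [mem_ofPred_eq, not_frequently] at h1
    filter_upwards [h1] with i h2 U hU
    by_contra hcon
    push Not at hcon
    apply h2
    rw [hE]
    have hm1 : (1 : ℝ) / ((m + 1 : ℕ) : ℝ) ≤ β := by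
      push_cast
      rw [div_le_iff₀ (by positivity)]
      have h5 : 1 / β ≤ m := (le_max_right _ _).trans hm
      rw [div_le_iff₀ hβ0] at h5
      nlinarith
    have hm2 : β ≤ ((m + 1 : ℕ) : ℝ) := by
      push_cast
      have h5 : β ≤ m := (le_max_left _ _).trans hm
      linarith
    exact ⟨hm1, hm2, U, hU, hcon⟩

end Pool.Agent.H96.WG
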