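import Pool.Agent.H96.WG.E

set_option autoImplicit false

/-! # One more generic term: the set of the sums becomes larger -/

namespace Pool.Agent.H96.WG

open MeasureTheory Set Filter
open scoped NNReal ENNReal Topology
open Pool.Agent.H96.FL (Cov cov_of_sep Cov.mono)

open Classical in
/-- the number of the values and the number of the coincidences -/
lemma cs {ι : Type} (P : Finset ι) (φ : ι → ℤ) :
    (P.card : ℝ) ^ 2 ≤ (P.image φ).card * ((P ×ˢ P).filter (fun q : ι × ι => φ q.1 = φ q.2)).card := by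
  have h1 : (P.card : ℝ) = ∑ v ∈ P.image φ, ((P.filter fun p => φ p = v).card : ℝ) := by
    have := Finset.card_eq_sum_card_image φ P
    exact_mod_cast this
  have h2 : (((P ×ˢ P).filter (fun q : ι × ι => φ q.1 = φ q.2)).card : ℝ) = ∑ v ∈ P.image φ, ((P.filter fun p => φ p = v).card : ℝ) ^ 2 := by
    have h3 := Finset.card_eq_sum_card_fiberwise (f := fun q : ι × ι => φ q.1) (s := (P ×ˢ P).filter (fun q : ι × ι => φ q.1 = φ q.2))
      (t := P.image φ) (by
        intro q hq
        rw [Finset.mem_coe, Finset.mem_filter, Finset.mem_product] at hq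
        exact Finset.mem_coe.2 (Finset.mem_image_of_mem φ hq.1.1))
    rw [h3]
    push_cast
    apply Finset.sum_congr rfl
    intro v _
    rw [sq, ← Nat.cast_mul, ← Finset.card_product]
    congr 2
    ext q
    simp only [Finset.mem_filter, Finset.mem_product]
    constructor
    · rintro ⟨⟨⟨h4, h5⟩, h6⟩, h7⟩
      exact ⟨⟨h4, h7⟩, h5, by rw [← h6]; exact h7⟩
    · rintro ⟨⟨h4, h5⟩, h6, h7⟩
      exact ⟨⟨⟨h4, h6⟩, by rw [h5, h7]⟩, h5⟩
  rw [h1, h2]
  exact sq_sum_le_card_mul_sum_sq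

/-- separated coefficients for which there are few sums -/
theorem grow_cov (A Y : Finset ℕ) (u w : ℕ → ℝ) (X D θ W : ℝ) (hX : 0 < X) (hD : 0 < D) (hθ : 0 < θ)
    (M : ℕ) (hY : ∀ y ∈ Y, y ≤ M) (hu : ∀ y ∈ Y, ∀ y' ∈ Y, D * |(y : ℝ) - y'| ≤ |u y - u y'|)
    (hW : 2 * X / D * (2 * (1 + Real.log M)) + (M + 1) ≤ W) (hP : 2 * θ ≤ A.card * Y.card) (S : Set ℝ)
    (hS : ∀ α ∈ S, ∃ B : Finset ℤ, (∀ a ∈ A, ∀ y ∈ Y, (a : ℤ) + ⌊α * u y + w y⌋ ∈ B) ∧ (B.card : ℝ) ≤ θ) :
    Cov S (2 * θ * W / Y.card) (1 / X) := by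
  classical
  have hAY : (0 : ℝ) < A.card * Y.card := by linarith
  have hA0 : (0 : ℝ) < A.card := by
    by_contra hcon
    have h1 : (A.card : ℝ) = 0 := le_antisymm (not_lt.1 hcon) (Nat.cast_nonneg _)
    rw [h1, zero_mul] at hAY
    exact lt_irrefl _ hAY
  have hY0 : (0 : ℝ) < Y.card := by
    by_contra hcon
    have h1 : (Y.card : ℝ) = 0 := le_antisymm (not_lt.1 hcon) (Nat.cast_nonneg _)
    rw [h1, mul_zero] at hAY
    exact lt_irrefl _ hAY
  have hW0 : 0 ≤ W := by
    refine le_trans ?_ hW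
    have : 0 ≤ Real.log M := Real.log_natCast_nonneg M
    positivity
  apply cov_of_sep _ _ _ (by positivity)
  intro x T hT hsep
  obtain ⟨P, hPd⟩ : ∃ P : Finset (ℕ × ℕ), P = A ×ˢ Y := ⟨_, rfl⟩
  have hPc : (P.card : ℝ) = A.card * Y.card := by rw [hPd, Finset.card_product]; push_cast; rfl
  obtain ⟨φ, hφ⟩ : ∃ φ : ℝ → ℕ × ℕ → ℤ, φ = fun α p => (p.1 : ℤ) + ⌊α * u p.2 + w p.2⌋ := ⟨_, rfl⟩
  -- many coincidences
  have h1 : ∀ α ∈ T, (P.card : ℝ) ^ 2 / θ ≤ (((P ×ˢ P).filter (fun q => φ α q.1 = φ α q.2)).card : ℝ) := by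
    intro α hα
    obtain ⟨B, hB, hBc⟩ := hS α (hT α hα).1
    have h2 := cs P (φ α)
    have h3 : (P.image (φ α)) ⊆ B := by
      intro v hv
      rw [Finset.mem_image] at hv
      obtain ⟨p, hp, rfl⟩ := hv
      rw [hPd, Finset.mem_product] at hp
      rw [hφ]
      exact hB _ hp.1 _ hp.2
    have h4 : ((P.image (φ α)).card : ℝ) ≤ θ := le_trans (by exact_mod_cast Finset.card_le_card h3) hBc
    rw [div_le_iff₀ hθ]
    refine h2.trans ?_
    rw [mul_comm]
    exact mul_le_mul_of_nonneg_left h4 (Nat.cast_nonneg _)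
  have h2 : (T.card : ℝ) * ((P.card : ℝ) ^ 2 / θ) ≤ ∑ α ∈ T, (((P ×ˢ P).filter (fun q => φ α q.1 = φ α q.2)).card : ℝ) := by
    calc (T.card : ℝ) * ((P.card : ℝ) ^ 2 / θ) = ∑ _α ∈ T, (P.card : ℝ) ^ 2 / θ := by rw [Finset.sum_const, nsmul_eq_mul]
      _ ≤ _ := Finset.sum_le_sum h1
  have h3 : ∑ α ∈ T, (((P ×ˢ P).filter (fun q => φ α q.1 = φ α q.2)).card : ℝ) =
      ∑ q ∈ P ×ˢ P, ((T.filter fun α => φ α q.1 = φ α q.2).card : ℝ) := by
    have e1 : ∀ α, (((P ×ˢ P).filter (fun q => φ α q.1 = φ α q.2)).card : ℝ) =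
        ∑ q ∈ P ×ˢ P, if φ α q.1 = φ α q.2 then (1 : ℝ) else 0 := by
      intro α
      rw [Finset.card_filter]
      push_cast
      rfl
    have e2 : ∀ q : (ℕ × ℕ) × (ℕ × ℕ), ((T.filter fun α => φ α q.1 = φ α q.2).card : ℝ) =
        ∑ α ∈ T, if φ α q.1 = φ α q.2 then (1 : ℝ) else 0 := by
      intro q
      rw [Finset.card_filter]
      push_cast
      rfl
    simp_rw [e1, e2]
    exact Finset.sum_comm
  -- the count for a pair
  obtain ⟨κ, hκ⟩ : ∃ κ : ℕ → ℕ → ℝ, κ = fun y y' : ℕ => if y = y' then 0 else 2 * X / D * (1 / |(y : ℝ) - y'|) + 1 := ⟨_, rfl⟩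
  have hκ0 : ∀ y y', 0 ≤ κ y y' := by
    intro y y'
    rw [hκ]
    simp only
    split_ifs
    · exact le_rfl
    · positivity
  have h4 : ∀ q ∈ P ×ˢ P, ((T.filter fun α => φ α q.1 = φ α q.2).card : ℝ) ≤
      (if q.1 = q.2 then (T.card : ℝ) else 0) + κ q.1.2 q.2.2 := by
    rintro ⟨⟨a, y⟩, ⟨a', y'⟩⟩ hq
    rw [Finset.mem_product, hPd, Finset.mem_product, Finset.mem_product] at hq
    simp only at hq ⊢
    by_cases hy : y = y'
    · subst hy
      by_cases ha : a = a'
      · subst ha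
        rw [if_pos rfl]
        have h5 := hκ0 y y
        have h6 : ((T.filter fun α => φ α (a, y) = φ α (a, y)).card : ℝ) ≤ T.card := by exact_mod_cast Finset.card_filter_le _ _
        linarith
      · rw [if_neg (by intro h; apply ha; exact (Prod.mk.inj h).1)]
        have h5 := hκ0 y y
        have h6 : (T.filter fun α => φ α (a, y) = φ α (a', y)) = ∅ := by
          apply Finset.filter_eq_empty_iff.2
          intro α _ h7
          rw [hφ] at h7
          simp only at h7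
          apply ha
          have : (a : ℤ) = a' := by linarith
          exact_mod_cast this
        rw [h6, Finset.card_empty, Nat.cast_zero]
        linarith
    · rw [if_neg (by intro h; apply hy; exact (Prod.mk.inj h).2)]
      have hyy : (0 : ℝ) < |(y : ℝ) - y'| := by
        apply abs_pos.2
        intro h
        apply hy
        have : (y : ℝ) = y' := by linarith
        exact_mod_cast this
      have h5 := floor_few T X (D * |(y : ℝ) - y'|) (u y) (u y') (w y) (w y') ((a' : ℤ) - a) hX (by positivity)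
        (hu y hq.1.2 y' hq.2.2) hsep
      have h6 : (T.filter fun α => φ α (a, y) = φ α (a', y')) ⊆
          (T.filter fun β => ⌊β * u y + w y⌋ - ⌊β * u y' + w y'⌋ = (a' : ℤ) - a) := by
        intro α hα
        rw [Finset.mem_filter] at hα ⊢
        refine ⟨hα.1, ?_⟩
        have h7 := hα.2
        rw [hφ] at h7
        simp only at h7
        linarith
      have h7 : ((T.filter fun α => φ α (a, y) = φ α (a', y')).card : ℝ) ≤
          ((T.filter fun β => ⌊β * u y + w y⌋ - ⌊β * u y' + w y'⌋ = (a' : ℤ) - a).card : ℝ) := by exact_mod_cast Finset.card_le_card h6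
      rw [zero_add, hκ]
      simp only
      rw [if_neg hy]
      refine h7.trans (h5.trans (le_of_eq ?_))
      have hD0 := hD.ne'
      have hyy0 := hyy.ne'
      field_simp
  have h5 : ∑ q ∈ P ×ˢ P, ((T.filter fun α => φ α q.1 = φ α q.2).card : ℝ) ≤ T.card * P.card + (A.card : ℝ) ^ 2 * (Y.card * W) := by
    refine (Finset.sum_le_sum h4).trans ?_
    rw [Finset.sum_add_distrib]
    apply add_le_add
    · rw [Finset.sum_product]
      have e : ∀ p ∈ P, ∑ p' ∈ P, (if p = p' then (T.card : ℝ) else 0) = T.card := by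
        intro p hp
        rw [Finset.sum_ite_eq, if_pos hp]
      simp only
      rw [Finset.sum_congr rfl e, Finset.sum_const, nsmul_eq_mul, mul_comm]
    · have e1 : ∑ q ∈ P ×ˢ P, κ q.1.2 q.2.2 = (A.card : ℝ) ^ 2 * ∑ y ∈ Y, ∑ y' ∈ Y, κ y y' := by
        rw [Finset.sum_product, hPd, Finset.sum_product]
        simp only [Finset.sum_product, Finset.sum_const, nsmul_eq_mul]
        rw [← Finset.mul_sum, sq, mul_assoc]
      rw [e1]
      apply mul_le_mul_of_nonneg_left _ (by positivity)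
      have e2 : ∀ y ∈ Y, ∑ y' ∈ Y, κ y y' ≤ W := by
        intro y hy
        have e3 : ∑ y' ∈ Y, κ y y' = ∑ y' ∈ Y.erase y, (2 * X / D * (1 / |(y : ℝ) - y'|) + 1) := by
          rw [← Finset.add_sum_erase Y _ hy]
          have e4 : κ y y = 0 := by rw [hκ]; simp
          rw [e4, zero_add]
          apply Finset.sum_congr rfl
          intro z hz
          rw [hκ]
          simp only
          rw [if_neg (Finset.ne_of_mem_erase hz).symm]
        rw [e3, Finset.sum_add_distrib, ← Finset.mul_sum]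
        have e5 := harm Y M hY y (hY y hy)
        have e6 : ∑ _z ∈ Y.erase y, (1 : ℝ) ≤ M + 1 := by
          rw [Finset.sum_const, nsmul_eq_mul, mul_one]
          have h8 : (Y.erase y).card ≤ (Finset.range (M + 1)).card := by
            apply Finset.card_le_card
            intro z hz
            rw [Finset.mem_range]
            have := hY z (Finset.mem_of_mem_erase hz)
            omega
          rw [Finset.card_range] at h8
          exact_mod_cast h8
        refine le_trans ?_ hW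
        have h9 : 0 ≤ 2 * X / D := by positivity
        exact add_le_add (mul_le_mul_of_nonneg_left e5 h9) e6
      calc ∑ y ∈ Y, ∑ y' ∈ Y, κ y y' ≤ ∑ _y ∈ Y, W := Finset.sum_le_sum e2
        _ = Y.card * W := by rw [Finset.sum_const, nsmul_eq_mul]
  rw [h3] at h2
  have h6 := h2.trans h5
  rw [hPc] at h6
  obtain ⟨p, hp⟩ : ∃ p : ℝ, p = A.card * Y.card := ⟨_, rfl⟩
  rw [← hp] at h6 hP hAY
  have h7 : (T.card : ℝ) * (p ^ 2 / θ) ≥ T.card * (2 * p) := by
    apply mul_le_mul_of_nonneg_left _ (Nat.cast_nonneg _)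
    rw [le_div_iff₀ hθ]
    nlinarith
  have h8 : (T.card : ℝ) * (p ^ 2 / θ) ≤ 2 * ((A.card : ℝ) ^ 2 * (Y.card * W)) := by linarith
  rw [le_div_iff₀ hY0]
  have h9 : (T.card : ℝ) * p ^ 2 ≤ 2 * θ * ((A.card : ℝ) ^ 2 * (Y.card * W)) := by
    have h10 : (T.card : ℝ) * (p ^ 2 / θ) * θ ≤ 2 * ((A.card : ℝ) ^ 2 * (Y.card * W)) * θ := mul_le_mul_of_nonneg_right h8 hθ.le
    have e : (T.card : ℝ) * (p ^ 2 / θ) * θ = T.card * p ^ 2 := by field_simp
    rw [e] at h10
    linarith
  have h10 : ((A.card : ℝ) ^ 2 * Y.card) * (T.card * Y.card) ≤ ((A.card : ℝ) ^ 2 * Y.card) * (2 * θ * W) := by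
    calc ((A.card : ℝ) ^ 2 * Y.card) * (T.card * Y.card) = T.card * p ^ 2 := by rw [hp]; ring
      _ ≤ 2 * θ * ((A.card : ℝ) ^ 2 * (Y.card * W)) := h9
      _ = _ := by ring
  exact le_of_mul_le_mul_left h10 (by positivity)

end Pool.Agent.H96.WG
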