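import Pool.Agent.H96.WG.F

set_option autoImplicit false

/-! # One more generic term: the exponent of the set of the sums -/

namespace Pool.Agent.H96.WG

open MeasureTheory Set Filter
open scoped NNReal ENNReal Topology
open Pool.Agent.H96.FL (Cov cov_of_sep Cov.mono)

/-- the range of the variable -/
lemma range {c : ℝ} (hc : 1 ≤ c) (C : ℝ) (hC : 0 ≤ C) (m : ℕ) (hm : 1 ≤ m) :
    ∃ κ : ℝ, 0 < κ ∧ κ ≤ 1 ∧ ∃ K : ℝ, 1 ≤ K ∧ ∃ X₀ : ℝ, 1 ≤ X₀ ∧ ∀ X, X₀ ≤ X → ∃ P : ℕ, 1 ≤ P ∧ (P : ℝ) ≤ X ∧ κ / 2 * X ^ (1 / c) ≤ P ∧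
      X ≤ K * (P : ℝ) ^ (c - 1) * P ∧
      ∀ g : ℕ → ℝ, (∀ y, |g y| ≤ C * ((y : ℝ) + 1) ^ (c - 1)) → ∀ α : ℝ, 1 / m ≤ α → α ≤ m → ∀ y : ℕ, P ≤ y → y ≤ 2 * P →
        0 ≤ α * (y : ℝ) ^ c + g y ∧ α * (y : ℝ) ^ c + g y ≤ X / 2 := by
  have hc0 : 0 < c := by linarith
  have hm1 : (1 : ℝ) ≤ m := by exact_mod_cast hm
  have hm0 : (0 : ℝ) < m := by linarith
  obtain ⟨q, hq⟩ : ∃ q : ℝ, q = 1 / (2 * ((m + C) * 3 ^ c)) := ⟨_, rfl⟩
  have h3c : (1 : ℝ) ≤ 3 ^ c := Real.one_le_rpow (by norm_num) hc0.le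
  have hq0 : 0 < q := by rw [hq]; positivity
  have hq1 : q ≤ 1 := by
    rw [hq, div_le_one (by positivity)]
    nlinarith
  obtain ⟨κ, hκ⟩ : ∃ κ : ℝ, κ = q ^ (1 / c) := ⟨_, rfl⟩
  have hκ0 : 0 < κ := by rw [hκ]; positivity
  have hκ1 : κ ≤ 1 := by rw [hκ]; exact Real.rpow_le_one hq0.le hq1 (by positivity)
  have hκc : κ ^ c = q := by rw [hκ, ← Real.rpow_mul hq0.le, one_div_mul_cancel hc0.ne', Real.rpow_one]
  obtain ⟨X₁, hX₁⟩ := eventually_atTop.1 ((tendsto_rpow_atTop (by positivity : 0 < 1 / c)).eventually_ge_atTop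
    (max (2 / κ) (2 / κ * (m * C * 2 ^ (c - 1)))))
  refine ⟨κ, hκ0, hκ1, max 1 ((2 / κ) ^ c), le_max_left _ _, max 1 X₁, le_max_left _ _, fun X hX => ?_⟩
  have hX1 : 1 ≤ X := (le_max_left _ _).trans hX
  have hX0 : 0 < X := by linarith
  have h1 := hX₁ X ((le_max_right _ _).trans hX)
  obtain ⟨Z, hZ⟩ : ∃ Z : ℝ, Z = X ^ (1 / c) := ⟨_, rfl⟩
  have hZ0 : 0 < Z := by rw [hZ]; positivity
  have hZc : Z ^ c = X := by rw [hZ, ← Real.rpow_mul hX0.le, one_div_mul_cancel hc0.ne', Real.rpow_one]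
  rw [← hZ] at h1 ⊢
  have h2 : 2 / κ ≤ Z := (le_max_left _ _).trans h1
  have h3 : 2 / κ * (m * C * 2 ^ (c - 1)) ≤ Z := (le_max_right _ _).trans h1
  have h2' : 2 ≤ κ * Z := by
    rw [div_le_iff₀ hκ0] at h2
    linarith
  have h3' : m * C * 2 ^ (c - 1) ≤ κ * Z / 2 := by
    have h4 : 2 / κ * (m * C * 2 ^ (c - 1)) * (κ / 2) ≤ Z * (κ / 2) := mul_le_mul_of_nonneg_right h3 (by positivity)
    have e : 2 / κ * (m * C * 2 ^ (c - 1)) * (κ / 2) = m * C * 2 ^ (c - 1) := by field_simp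
    rw [e] at h4
    linarith
  obtain ⟨P, hP⟩ : ∃ P : ℕ, P = ⌊κ * Z⌋₊ := ⟨_, rfl⟩
  have hP1 : (P : ℝ) ≤ κ * Z := by rw [hP]; exact Nat.floor_le (by positivity)
  have hP2 : κ * Z < P + 1 := by rw [hP]; exact Nat.lt_floor_add_one _
  have hP3 : κ * Z / 2 ≤ P := by linarith
  have hP4 : (1 : ℝ) ≤ P := by linarith
  have hP0 : (0 : ℝ) < P := by linarith
  have hPc : (P : ℝ) ^ c ≤ q * X := by
    calc (P : ℝ) ^ c ≤ (κ * Z) ^ c := Real.rpow_le_rpow hP0.le hP1 hc0.le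
      _ = q * X := by rw [Real.mul_rpow hκ0.le hZ0.le, hκc, hZc]
  refine ⟨P, by exact_mod_cast hP4, ?_, by linarith, ?_, ?_⟩
  · calc (P : ℝ) = (P : ℝ) ^ (1 : ℝ) := (Real.rpow_one _).symm
      _ ≤ (P : ℝ) ^ c := Real.rpow_le_rpow_of_exponent_le hP4 hc
      _ ≤ q * X := hPc
      _ ≤ X := by nlinarith
  · have e : (P : ℝ) ^ (c - 1) * P = (P : ℝ) ^ c := by
      rw [← Real.rpow_add_one hP0.ne']
      congr 1
      ring
    rw [mul_assoc, e]
    have h4 : Z ≤ 2 / κ * P := by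
      rw [div_mul_eq_mul_div, le_div_iff₀ hκ0]
      linarith
    calc X = Z ^ c := hZc.symm
      _ ≤ (2 / κ * P) ^ c := Real.rpow_le_rpow hZ0.le h4 hc0.le
      _ = (2 / κ) ^ c * (P : ℝ) ^ c := Real.mul_rpow (by positivity) hP0.le
      _ ≤ max 1 ((2 / κ) ^ c) * (P : ℝ) ^ c := mul_le_mul_of_nonneg_right (le_max_right _ _) (by positivity)
  · intro g hg α hα1 hα2 y hy1 hy2
    have hα0 : 0 < α := lt_of_lt_of_le (by positivity) hα1
    have hy1' : (P : ℝ) ≤ y := by exact_mod_cast hy1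
    have hy2' : (y : ℝ) ≤ 2 * P := by exact_mod_cast hy2
    have hy0 : (0 : ℝ) < y := by linarith
    have hgy := abs_le.1 (hg y)
    have e : (y : ℝ) ^ c = (y : ℝ) ^ (c - 1) * y := by
      rw [← Real.rpow_add_one hy0.ne']
      congr 1
      ring
    have hyc : 0 < (y : ℝ) ^ (c - 1) := by positivity
    constructor
    · have h5 : ((y : ℝ) + 1) ^ (c - 1) ≤ 2 ^ (c - 1) * (y : ℝ) ^ (c - 1) := by
        rw [← Real.mul_rpow (by norm_num) hy0.le]
        exact Real.rpow_le_rpow (by positivity) (by linarith) (by linarith)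
      have h6 : C * ((y : ℝ) + 1) ^ (c - 1) ≤ C * 2 ^ (c - 1) * (y : ℝ) ^ (c - 1) := by
        rw [mul_assoc]
        exact mul_le_mul_of_nonneg_left h5 hC
      have h7 : C * 2 ^ (c - 1) ≤ α * y := by
        have h8 : C * 2 ^ (c - 1) ≤ 1 / m * y := by
          rw [one_div_mul_eq_div, le_div_iff₀ hm0]
          linarith
        exact h8.trans (mul_le_mul_of_nonneg_right hα1 hy0.le)
      have h8 : C * 2 ^ (c - 1) * (y : ℝ) ^ (c - 1) ≤ α * (y : ℝ) ^ c := by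
        rw [e]
        calc C * 2 ^ (c - 1) * (y : ℝ) ^ (c - 1) ≤ α * y * (y : ℝ) ^ (c - 1) := mul_le_mul_of_nonneg_right h7 hyc.le
          _ = _ := by ring
      linarith [hgy.1]
    · have h3P : (1 : ℝ) ≤ 3 * P := by linarith
      have h5 : (y : ℝ) ^ c ≤ (3 * P) ^ c := Real.rpow_le_rpow hy0.le (by linarith) hc0.le
      have h6 : ((y : ℝ) + 1) ^ (c - 1) ≤ (3 * P) ^ c := by
        calc ((y : ℝ) + 1) ^ (c - 1) ≤ (3 * P) ^ (c - 1) := Real.rpow_le_rpow (by positivity) (by linarith) (by linarith)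
          _ ≤ (3 * P) ^ c := Real.rpow_le_rpow_of_exponent_le h3P (by linarith)
      have h7 : (3 * (P : ℝ)) ^ c ≤ 3 ^ c * (q * X) := by
        rw [Real.mul_rpow (by norm_num) hP0.le]
        exact mul_le_mul_of_nonneg_left hPc (by positivity)
      have h8 : α * (y : ℝ) ^ c ≤ m * (3 * P) ^ c := mul_le_mul hα2 h5 (by positivity) (by positivity)
      have h9 : C * ((y : ℝ) + 1) ^ (c - 1) ≤ C * (3 * P) ^ c := mul_le_mul_of_nonneg_left h6 hC
      have h10 : (m + C) * (3 * (P : ℝ)) ^ c ≤ X / 2 := by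
        calc (m + C) * (3 * (P : ℝ)) ^ c ≤ (m + C) * (3 ^ c * (q * X)) := mul_le_mul_of_nonneg_left h7 (by positivity)
          _ = X / 2 := by
              rw [hq]
              field_simp
      linarith [hgy.2]

/-- from the powers of two to all real numbers -/
lemma many_of_dyadic (A : Set ℕ) (a a' : ℝ) (h0 : 0 ≤ a) (ha : a' < a)
    (h : ∀ᶠ i : ℕ in atTop, ∃ S : Finset ℕ, (∀ s ∈ S, s ∈ A ∧ (s : ℝ) ≤ 2 ^ i) ∧ ((2 : ℝ) ^ i) ^ a ≤ S.card) : Many A a' := by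
  obtain ⟨i₀, hi₀⟩ := eventually_atTop.1 h
  have h1 : ∀ᶠ X : ℝ in atTop, (2 : ℝ) ^ a ≤ X ^ (a - a') := (tendsto_rpow_atTop (by linarith)).eventually_ge_atTop _
  filter_upwards [h1, eventually_ge_atTop ((2 : ℝ) ^ i₀), eventually_ge_atTop 1] with X h2 h3 h4
  have hX0 : 0 < X := by linarith
  obtain ⟨n, hn⟩ : ∃ n : ℕ, n = ⌊X⌋₊ := ⟨_, rfl⟩
  have hn1 : (n : ℝ) ≤ X := by rw [hn]; exact Nat.floor_le hX0.le
  have hn2 : X < n + 1 := by rw [hn]; exact Nat.lt_floor_add_one _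
  have hn3 : 1 ≤ n := by rw [hn]; exact Nat.le_floor (by push_cast; exact h4)
  have hn4 : 2 ^ i₀ ≤ n := by rw [hn]; exact Nat.le_floor (by push_cast; exact h3)
  obtain ⟨S, hS1, hS2⟩ := hi₀ (Nat.log 2 n) (Nat.le_log_of_pow_le (by norm_num) hn4)
  have h5 : ((2 : ℝ) ^ Nat.log 2 n) ≤ n := by exact_mod_cast Nat.pow_log_le_self 2 (by omega)
  have h6 : X ≤ 2 * 2 ^ Nat.log 2 n := by
    have h7 : n + 1 ≤ 2 ^ (Nat.log 2 n + 1) := Nat.lt_pow_succ_log_self (by norm_num) n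
    have h8 : (n : ℝ) + 1 ≤ 2 ^ (Nat.log 2 n + 1) := by exact_mod_cast h7
    rw [pow_succ] at h8
    linarith
  refine ⟨S, fun s hs => ⟨(hS1 s hs).1, (hS1 s hs).2.trans (h5.trans hn1)⟩, le_trans ?_ hS2⟩
  have h7 : X ^ a ≤ 2 ^ a * ((2 : ℝ) ^ Nat.log 2 n) ^ a := by
    rw [← Real.mul_rpow (by norm_num) (by positivity)]
    exact Real.rpow_le_rpow hX0.le h6 h0
  have h8 : X ^ a = X ^ (a - a') * X ^ a' := by
    rw [← Real.rpow_add hX0]
    congr 1
    ring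
  have h9 : (2 : ℝ) ^ a * X ^ a' ≤ 2 ^ a * ((2 : ℝ) ^ Nat.log 2 n) ^ a := by
    refine le_trans ?_ h7
    rw [h8]
    exact mul_le_mul_of_nonneg_right h2 (by positivity)
  exact le_of_mul_le_mul_left h9 (by positivity)

/-- **Growth of the set of the sums.** -/
theorem grow (A : Set ℕ) (a c : ℝ) (hc : 1 ≤ c) (hA : Many A a) (g : ℕ → ℝ) (C : ℝ) (hg : ∀ y, |g y| ≤ C * ((y : ℝ) + 1) ^ (c - 1))
    (b : ℝ) (hb1 : b < 1) (hb : b < a + 1 / c) :
    ∃ E : Set ℝ, dimH E < 1 ∧ ∀ α : ℝ, 0 < α → α ∉ E → Many (Plus (fun y => α * (y : ℝ) ^ c + g y) A) b := by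
  classical
  have hC : 0 ≤ C := by
    have h1 := hg 0
    have h2 : (((0 : ℕ) : ℝ) + 1) ^ (c - 1) = 1 := by simp
    rw [h2, mul_one] at h1
    exact (abs_nonneg _).trans h1
  rcases le_or_gt (a + 1 / c) 0 with hneg | hpos
  · -- one element is enough
    have hb0 : b < 0 := by linarith
    refine ⟨∅, by simp, fun α hα _ => ?_⟩
    obtain ⟨κ, hκ0, hκ1, K, hK1, X₀, hX₀, H⟩ := range hc C hC (⌈max α (1 / α)⌉₊ + 1) (by omega)
    obtain ⟨P, hP1, hPX, hP2, hP3, hP4⟩ := H X₀ le_rfl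
    have hm := Nat.le_ceil (max α (1 / α))
    have hα2 : α ≤ ((⌈max α (1 / α)⌉₊ + 1 : ℕ) : ℝ) := by
      push_cast
      have := (le_max_left α (1 / α)).trans hm
      linarith
    have hα1 : 1 / ((⌈max α (1 / α)⌉₊ + 1 : ℕ) : ℝ) ≤ α := by
      push_cast
      rw [div_le_iff₀ (by positivity)]
      have h5 : 1 / α ≤ (⌈max α (1 / α)⌉₊ : ℝ) := (le_max_right _ _).trans hm
      rw [div_le_iff₀ hα] at h5
      nlinarith
    have h7 := hP4 g hg α hα1 hα2 P le_rfl (by omega)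
    have h6 : ∃ s, s ∈ A := by
      obtain ⟨X, ⟨S, hS1, hS2⟩, hX⟩ := (Filter.Eventually.and hA (eventually_gt_atTop (0 : ℝ))).exists
      have h8 : (0 : ℝ) < S.card := lt_of_lt_of_le (by positivity) hS2
      have h9 : 0 < S.card := by exact_mod_cast h8
      obtain ⟨s, hs⟩ := Finset.card_pos.1 h9
      exact ⟨s, (hS1 s hs).1⟩
    obtain ⟨s, hs⟩ := h6
    have h8 : 0 ≤ ⌊α * ((P : ℕ) : ℝ) ^ c + g P⌋ := Int.floor_nonneg.2 h7.1
    filter_upwards [eventually_ge_atTop (1 : ℝ), eventually_ge_atTop (((s + (⌊α * ((P : ℕ) : ℝ) ^ c + g P⌋).toNat : ℕ)) : ℝ)] with X hX1 hX2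
    refine ⟨{s + (⌊α * ((P : ℕ) : ℝ) ^ c + g P⌋).toNat}, ?_, ?_⟩
    · intro t ht
      rw [Finset.mem_singleton] at ht
      rw [ht]
      refine ⟨⟨s, hs, P, by omega, ?_⟩, hX2⟩
      push_cast
      rw [Int.toNat_of_nonneg h8]
    · rw [Finset.card_singleton, Nat.cast_one]
      exact Real.rpow_le_one_of_one_le_of_nonpos hX1 hb0.le
  obtain ⟨b', hb'1, hb'2⟩ : ∃ b', max 0 b < b' ∧ b' < min 1 (a + 1 / c) := exists_between (by
    apply max_lt
    · exact lt_min one_pos hpos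
    · exact lt_min hb1 hb)
  have hb'0 : 0 ≤ b' := ((le_max_left _ _).trans_lt hb'1).le
  have hbb' : b < b' := (le_max_right _ _).trans_lt hb'1
  have hb'3 : b' < 1 := hb'2.trans_le (min_le_left _ _)
  have hb'4 : b' < a + 1 / c := hb'2.trans_le (min_le_right _ _)
  obtain ⟨X₁, hX₁⟩ := eventually_atTop.1 hA
  choose! S hS1 hS2 using hX₁
  have hrange : ∀ m : ℕ, ∃ κ : ℝ, 0 < κ ∧ κ ≤ 1 ∧ ∃ K : ℝ, 1 ≤ K ∧ ∃ X₀ : ℝ, 1 ≤ X₀ ∧ ∀ X, X₀ ≤ X → ∃ P : ℕ, 1 ≤ P ∧ (P : ℝ) ≤ X ∧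
      κ / 2 * X ^ (1 / c) ≤ P ∧ X ≤ K * (P : ℝ) ^ (c - 1) * P ∧
      ∀ g : ℕ → ℝ, (∀ y, |g y| ≤ C * ((y : ℝ) + 1) ^ (c - 1)) → ∀ α : ℝ, 1 / ((m + 1 : ℕ) : ℝ) ≤ α → α ≤ ((m + 1 : ℕ) : ℝ) →
        ∀ y : ℕ, P ≤ y → y ≤ 2 * P → 0 ≤ α * (y : ℝ) ^ c + g y ∧ α * (y : ℝ) ^ c + g y ≤ X / 2 :=
    fun m => range hc C hC (m + 1) (by omega)
  choose κ hκ0 hκ1 K hK1 X₀ hX₀ hP using hrange
  choose! P hP1 hPX hP2 hP3 hP4 using hP
  obtain ⟨E, hE⟩ : ∃ E : ℕ → ℕ → Set ℝ, E = fun m i : ℕ => {α : ℝ | (1 / (m : ℝ) ≤ α ∧ α ≤ m) ∧ ∃ B : Finset ℤ,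
    (∀ s ∈ S ((2 : ℝ) ^ i / 2), ∀ y ∈ Finset.Icc (P (m - 1) (2 ^ i)) (2 * P (m - 1) (2 ^ i)),
      (s : ℤ) + ⌊α * (y : ℝ) ^ c + g y⌋ ∈ B) ∧ (B.card : ℝ) ≤ ((2 : ℝ) ^ i) ^ b'} := ⟨_, rfl⟩
  refine ⟨⋃ m : ℕ, {α : ℝ | ∃ᶠ i in atTop, α ∈ E (m + 1) i}, ?_, ?_⟩
  · have hdim : dimH (⋃ m : ℕ, {α : ℝ | ∃ᶠ i in atTop, α ∈ E (m + 1) i}) ≤ ENNReal.ofReal b' := by
      apply dim_union E b' hb'0
      intro m hm
      obtain ⟨m, rfl⟩ : ∃ m', m = m' + 1 := ⟨m - 1, by omega⟩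
      obtain ⟨X₂, hX₂⟩ := eventually_atTop.1 ((tendsto_rpow_atTop (by linarith : 0 < a + 1 / c - b')).eventually_ge_atTop
        (4 * 2 ^ a / κ m))
      obtain ⟨i₀, hi₀⟩ := eventually_atTop.1 ((two_tendsto.eventually_ge_atTop (X₀ m)).and
        ((two_tendsto.eventually_ge_atTop (2 * X₁)).and (two_tendsto.eventually_ge_atTop X₂)))
      refine ⟨2 * (8 * K m + 3), i₀, fun i hi => ?_⟩
      obtain ⟨h1, h2, h3⟩ := hi₀ i hi
      obtain ⟨X, hX⟩ : ∃ X : ℝ, X = (2 : ℝ) ^ i := ⟨_, rfl⟩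
      have hlog := one_add_log_le i
      rw [hE]
      simp only [Nat.add_sub_cancel]
      rw [← hX] at h1 h2 h3 hlog ⊢
      have hX1 : 1 ≤ X := (hX₀ m).trans h1
      have hX0 : 0 < X := by linarith
      have hXb : 0 < X ^ b' := by positivity
      have hp1 := hP1 m X h1
      have hpX := hPX m X h1
      have hp2 := hP2 m X h1
      have hp3 := hP3 m X h1
      obtain ⟨p, hp⟩ : ∃ p : ℕ, p = P m X := ⟨_, rfl⟩
      rw [← hp] at hp1 hpX hp2 hp3 ⊢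
      have hp1' : (1 : ℝ) ≤ p := by exact_mod_cast hp1
      have hp0 : (0 : ℝ) < p := by linarith
      have hpc : 0 < (p : ℝ) ^ (c - 1) := by positivity
      have hK1m := hK1 m
      have hK0m : 0 < K m := by linarith
      have hlX : 0 ≤ Real.log X := Real.log_nonneg hX1
      have hYc : ((Finset.Icc p (2 * p)).card : ℝ) = p + 1 := by
        rw [Nat.card_Icc]
        have : 2 * p + 1 - p = p + 1 := by omega
        rw [this]
        push_cast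
        rfl
      have hSX := hS2 (X / 2) (by linarith)
      have h5 := grow_cov (S (X / 2)) (Finset.Icc p (2 * p)) (fun y => (y : ℝ) ^ c) g X ((p : ℝ) ^ (c - 1)) (X ^ b')
        ((8 * K m + 3) * p * (1 + Real.log X)) hX0 hpc hXb (2 * p) (fun y hy => (Finset.mem_Icc.1 hy).2)
        (fun y hy y' hy' => pow_sep hc hp0 y y' (by exact_mod_cast (Finset.mem_Icc.1 hy).1) (by exact_mod_cast (Finset.mem_Icc.1 hy').1))
        (by
          have e1 : 2 * X / (p : ℝ) ^ (c - 1) ≤ 2 * K m * p := by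
            rw [div_le_iff₀ hpc]
            calc 2 * X ≤ 2 * (K m * (p : ℝ) ^ (c - 1) * p) := by linarith
              _ = _ := by ring
          have e2 : Real.log ((2 * p : ℕ) : ℝ) ≤ 1 + Real.log X := by
            push_cast
            rw [Real.log_mul (by norm_num) hp0.ne']
            have e3 : Real.log 2 ≤ 1 := by have := Real.log_two_lt_d9; linarith
            have e4 : Real.log p ≤ Real.log X := Real.log_le_log hp0 hpX
            linarith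
          have e5 : 0 ≤ Real.log ((2 * p : ℕ) : ℝ) := Real.log_natCast_nonneg _
          have e6 : 2 * X / (p : ℝ) ^ (c - 1) * (2 * (1 + Real.log ((2 * p : ℕ) : ℝ))) ≤ 2 * K m * p * (2 * (2 + Real.log X)) := by
            apply mul_le_mul e1 _ (by positivity) (by positivity)
            linarith
          have e7 : 2 * K m * p * (2 * (2 + Real.log X)) ≤ 8 * K m * p * (1 + Real.log X) := by
            have : 0 ≤ K m * p * Real.log X := by positivity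
            nlinarith
          have e8 : (((2 * p : ℕ) : ℝ) + 1) ≤ 3 * p * (1 + Real.log X) := by
            push_cast
            have : 0 ≤ (p : ℝ) * Real.log X := by positivity
            nlinarith
          calc _ ≤ 8 * K m * p * (1 + Real.log X) + 3 * p * (1 + Real.log X) := add_le_add (e6.trans e7) e8
            _ = _ := by ring)
        (by
          rw [hYc]
          have e1 := hX₂ X h3
          have e2 : (X / 2) ^ a = X ^ a / 2 ^ a := Real.div_rpow hX0.le (by norm_num) _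
          have e3 : X ^ (a + 1 / c - b') * X ^ b' = X ^ a * X ^ (1 / c) := by
            rw [← Real.rpow_add hX0, ← Real.rpow_add hX0]
            congr 1
            ring
          have h2a : (0 : ℝ) < 2 ^ a := by positivity
          have hκm := hκ0 m
          have hXa : 0 < X ^ a := by positivity
          have e4 : 4 * 2 ^ a / κ m * X ^ b' ≤ X ^ a * X ^ (1 / c) := by
            rw [← e3]
            exact mul_le_mul_of_nonneg_right e1 hXb.le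
          have e5 : 2 * X ^ b' = (4 * 2 ^ a / κ m * X ^ b') * (κ m / 2 / 2 ^ a) := by field_simp; ring
          rw [e5]
          calc (4 * 2 ^ a / κ m * X ^ b') * (κ m / 2 / 2 ^ a) ≤ (X ^ a * X ^ (1 / c)) * (κ m / 2 / 2 ^ a) :=
                mul_le_mul_of_nonneg_right e4 (by positivity)
            _ = (X / 2) ^ a * (κ m / 2 * X ^ (1 / c)) := by rw [e2]; field_simp
            _ ≤ (S (X / 2)).card * ((p : ℝ) + 1) := by
                apply mul_le_mul hSX _ (by positivity) (by positivity)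
                linarith)
        {α : ℝ | (1 / ((m + 1 : ℕ) : ℝ) ≤ α ∧ α ≤ ((m + 1 : ℕ) : ℝ)) ∧ ∃ B : Finset ℤ,
          (∀ s ∈ S (X / 2), ∀ y ∈ Finset.Icc p (2 * p), (s : ℤ) + ⌊α * (y : ℝ) ^ c + g y⌋ ∈ B) ∧ (B.card : ℝ) ≤ X ^ b'}
        (fun α hα => hα.2)
      refine h5.mono le_rfl ?_ le_rfl
      rw [hYc, div_le_iff₀ (by positivity)]
      have hi0 : (0 : ℝ) ≤ i := Nat.cast_nonneg i
      have h6 : 0 ≤ (8 * K m + 3) := by linarith
      calc 2 * X ^ b' * ((8 * K m + 3) * p * (1 + Real.log X)) ≤ 2 * X ^ b' * ((8 * K m + 3) * (p + 1) * (1 + i)) := by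
            gcongr
            linarith
        _ = _ := by ring
    exact lt_of_le_of_lt hdim (by rw [← ENNReal.ofReal_one]; exact (ENNReal.ofReal_lt_ofReal_iff one_pos).2 hb'3)
  · intro α hα0 hαE
    rw [mem_iUnion, not_exists] at hαE
    obtain ⟨m, hm⟩ := exists_nat_ge (max α (1 / α))
    have h1 := hαE m
    rw [mem_ofPred_eq, not_frequently] at h1
    apply many_of_dyadic _ b' b hb'0 hbb'
    filter_upwards [h1, two_tendsto.eventually_ge_atTop (2 * X₁), two_tendsto.eventually_ge_atTop (X₀ m)] with i h2 h4 h5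
    have hm1 : (1 : ℝ) / ((m + 1 : ℕ) : ℝ) ≤ α := by
      push_cast
      rw [div_le_iff₀ (by positivity)]
      have h5 : 1 / α ≤ m := (le_max_right _ _).trans hm
      rw [div_le_iff₀ hα0] at h5
      nlinarith
    have hm2 : α ≤ ((m + 1 : ℕ) : ℝ) := by
      push_cast
      have h5 : α ≤ m := (le_max_left _ _).trans hm
      linarith
    obtain ⟨X, hX⟩ : ∃ X : ℝ, X = (2 : ℝ) ^ i := ⟨_, rfl⟩
    rw [← hX] at h4 h5 ⊢
    obtain ⟨p, hp⟩ : ∃ p : ℕ, p = P m X := ⟨_, rfl⟩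
    obtain ⟨B, hB⟩ : ∃ B : Finset ℤ, B = (S (X / 2) ×ˢ Finset.Icc p (2 * p)).image
      (fun q : ℕ × ℕ => (q.1 : ℤ) + ⌊α * (q.2 : ℝ) ^ c + g q.2⌋) := ⟨_, rfl⟩
    have hBc : X ^ b' < B.card := by
      by_contra hcon
      push Not at hcon
      apply h2
      rw [hE]
      simp only [Nat.add_sub_cancel]
      rw [← hX, ← hp]
      refine ⟨⟨hm1, hm2⟩, B, ?_, hcon⟩
      intro s hs y hy
      rw [hB, Finset.mem_image]
      exact ⟨(s, y), Finset.mem_product.2 ⟨hs, hy⟩, rfl⟩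
    have key : ∀ v ∈ B, 0 ≤ v ∧ (v : ℝ) ≤ X ∧ v.toNat ∈ Plus (fun y => α * (y : ℝ) ^ c + g y) A := by
      intro v hv
      rw [hB, Finset.mem_image] at hv
      obtain ⟨⟨s, y⟩, hq, rfl⟩ := hv
      rw [Finset.mem_product, Finset.mem_Icc] at hq
      simp only at hq ⊢
      have h6 := hS1 (X / 2) (by linarith) s hq.1
      rw [hp] at hq
      have h7 := hP4 m X h5 g hg α hm1 hm2 y hq.2.1 hq.2.2
      have h8 : 0 ≤ ⌊α * (y : ℝ) ^ c + g y⌋ := Int.floor_nonneg.2 h7.1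
      have h9 := Int.floor_le (α * (y : ℝ) ^ c + g y)
      have h10 : 0 ≤ (s : ℤ) + ⌊α * (y : ℝ) ^ c + g y⌋ := by positivity
      refine ⟨h10, ?_, ⟨s, h6.1, y, ?_, ?_⟩⟩
      · push_cast
        linarith
      · have := hP1 m X h5
        omega
      · rw [Int.toNat_of_nonneg h10]
    refine ⟨B.image Int.toNat, ?_, ?_⟩
    · intro t ht
      rw [Finset.mem_image] at ht
      obtain ⟨v, hv, rfl⟩ := ht
      obtain ⟨h6, h7, h8⟩ := key v hv
      refine ⟨h8, ?_⟩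
      have h9 : ((v.toNat : ℕ) : ℝ) = v := by exact_mod_cast Int.toNat_of_nonneg h6
      rw [h9]
      exact h7
    · rw [Finset.card_image_of_injOn]
      · exact hBc.le
      · intro v hv v' hv' h
        have h6 := (key v hv).1
        have h7 := (key v' hv').1
        have h8 : v.toNat = v'.toNat := h
        omega

end Pool.Agent.H96.WG
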