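import Pool.Agent.H96.WG.G

set_option autoImplicit false

/-! # Several generic terms -/

namespace Pool.Agent.H96.WG

open MeasureTheory Set Filter
open scoped NNReal ENNReal Topology

/-- `P α` for all `α > 0` outside a set of Hausdorff dimension smaller than one -/
def Gen (P : ℝ → Prop) : Prop := ∃ E : Set ℝ, dimH E < 1 ∧ ∀ α : ℝ, 0 < α → α ∉ E → P α

/-- the same, successively, for several numbers -/
def Generic : (s : ℕ) → ((Fin s → ℝ) → Prop) → Prop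
  | 0, P => P Fin.elim0
  | s + 1, P => Gen fun α => Generic s fun β => P (Fin.cons α β)

lemma Gen.mono {P Q : ℝ → Prop} (h : ∀ α, P α → Q α) (hP : Gen P) : Gen Q := by
  obtain ⟨E, hE, h1⟩ := hP
  exact ⟨E, hE, fun α hα hαE => h α (h1 α hα hαE)⟩

lemma Generic.mono : ∀ (s : ℕ) {P Q : (Fin s → ℝ) → Prop}, (∀ α, P α → Q α) → Generic s P → Generic s Q
  | 0, _, _, h, hP => h _ hP
  | s + 1, _, _, h, hP => Gen.mono (fun _ => Generic.mono s fun _ => h _) hP

/-- sums of an element of `A` and integral parts -/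
def Sums {s : ℕ} (f : Fin s → ℕ → ℝ) (A : Set ℕ) : Set ℕ :=
  {n : ℕ | ∃ a ∈ A, ∃ y : Fin s → ℕ, (∀ i, 0 < y i) ∧ (n : ℤ) = a + ∑ i, ⌊f i (y i)⌋}

lemma sums_cons {s : ℕ} (f : Fin (s + 1) → ℕ → ℝ) (A : Set ℕ) : Sums (fun i => f i.succ) (Plus (f 0) A) ⊆ Sums f A := by
  rintro n ⟨m, ⟨a, ha, y₀, hy₀, hm⟩, y, hy, hn⟩
  refine ⟨a, ha, Fin.cons y₀ y, ?_, ?_⟩
  · intro i
    refine Fin.cases ?_ (fun i => ?_) i
    · exact hy₀
    · exact hy i
  · rw [Fin.sum_univ_succ]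
    simp only [Fin.cons_zero, Fin.cons_succ]
    rw [hn, hm]
    ring

lemma sums_zero (f : Fin 0 → ℕ → ℝ) (A : Set ℕ) : A ⊆ Sums f A := by
  intro a ha
  exact ⟨a, ha, Fin.elim0, fun i => i.elim0, by simp⟩

lemma Many.mono {A A' : Set ℕ} {a a' : ℝ} (h : Many A a) (hA : A ⊆ A') (ha : a' ≤ a) : Many A' a' := by
  filter_upwards [h, eventually_ge_atTop 1] with X h1 hX
  obtain ⟨S, hS1, hS2⟩ := h1
  exact ⟨S, fun s hs => ⟨hA (hS1 s hs).1, (hS1 s hs).2⟩, (Real.rpow_le_rpow_of_exponent_le hX ha).trans hS2⟩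

lemma Few.mono {E E' : Set ℕ} {e e' : ℝ} (h : Few E e) (hE : E' ⊆ E) (he : e ≤ e') : Few E' e' := by
  filter_upwards [h] with i h1 S hS
  refine (h1 S fun s hs => ⟨hE (hS s hs).1, (hS s hs).2⟩).trans_le ?_
  exact Real.rpow_le_rpow_of_exponent_le (one_le_pow₀ (by norm_num)) he

/-- **Growth and the first exceptional set.** -/
theorem few_all : ∀ (r : ℕ) (A : Set ℕ) (a : ℝ) (c : Fin (r + 1) → ℝ) (g : Fin (r + 1) → ℕ → ℝ) (C e : ℝ), (∀ i, 1 ≤ c i) →
    (∀ i y, |g i y| ≤ C * ((y : ℝ) + 1) ^ (c i - 1)) → Many A a →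
    1 - e < min (1 / c (Fin.last r)) (a + ∑ i, 1 / c i - 1) →
    Generic (r + 1) fun α => Few (Sums (fun i y => α i * (y : ℝ) ^ c i + g i y) A)ᶜ e := by
  intro r
  induction r with
  | zero =>
    intro A a c g C e hc hg hA he
    have he2 := he.trans_le (min_le_right _ _)
    rw [Fin.sum_univ_one] at he2
    obtain ⟨E, hE1, hE2⟩ := few_plus A a (c 0) (hc 0) hA (g 0) C (hg 0) e (by linarith)
    refine ⟨E, hE1, fun α hα hαE => ?_⟩
    show Few _ e
    refine Few.mono (hE2 α hα hαE) ?_ le_rfl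
    apply compl_subset_compl.2
    intro n hn
    exact sums_cons _ A (sums_zero _ _ hn)
  | succ r ih =>
    intro A a c g C e hc hg hA he
    have he1 := he.trans_le (min_le_left _ _)
    have he2 := he.trans_le (min_le_right _ _)
    rw [Fin.sum_univ_succ] at he2
    have hpos : ∀ i, 0 < 1 / c i := fun i => by have := hc i; positivity
    have hs : 1 / c (Fin.last (r + 1)) ≤ ∑ i : Fin (r + 1), 1 / c i.succ := by
      have h1 := Finset.single_le_sum (f := fun i : Fin (r + 1) => 1 / c i.succ) (fun i _ => (hpos _).le) (Finset.mem_univ (Fin.last r))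
      simpa using h1
    obtain ⟨b, hb1, hb2⟩ : ∃ b, 2 - e - ∑ i : Fin (r + 1), 1 / c i.succ < b ∧ b < min 1 (a + 1 / c 0) :=
      exists_between (lt_min (by linarith) (by linarith))
    obtain ⟨E, hE1, hE2⟩ := grow A a (c 0) (hc 0) hA (g 0) C (hg 0) b (hb2.trans_le (min_le_left _ _)) (hb2.trans_le (min_le_right _ _))
    refine ⟨E, hE1, fun α hα hαE => ?_⟩
    have h1 := ih (Plus (fun y => α * (y : ℝ) ^ c 0 + g 0 y) A) b (fun i => c i.succ) (fun i => g i.succ) C e (fun i => hc _)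
      (fun i y => hg _ y) (hE2 α hα hαE) (by
        apply lt_min
        · simpa using he1
        · linarith)
    refine Generic.mono _ (fun β hβ => ?_) h1
    refine Few.mono hβ ?_ le_rfl
    apply compl_subset_compl.2
    exact sums_cons (fun i y => (Fin.cons α β : Fin (r + 2) → ℝ) i * (y : ℝ) ^ c i + g i y) A

/-- all large numbers -/
lemma fill (S : Set ℕ) (e b : ℝ) (hS : Few Sᶜ e) (heb : e < b ∨ (e = 0 ∧ 0 ≤ b)) (B : Set ℕ) (hB : Many B b) :
    ∀ᶠ n : ℕ in atTop, ∃ t ∈ B, ∃ m ∈ S, n = m + t := by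
  classical
  obtain ⟨X₂, hX₂⟩ := eventually_atTop.1 hB
  have hev : ∀ᶠ X : ℝ in atTop, X ^ e ≤ (X / 8) ^ b ∨ e = 0 := by
    rcases heb with h | h
    · have h1 : ∀ᶠ X : ℝ in atTop, (8 : ℝ) ^ b ≤ X ^ (b - e) := (tendsto_rpow_atTop (by linarith)).eventually_ge_atTop _
      filter_upwards [h1, eventually_gt_atTop 0] with X h2 h3
      left
      rw [Real.div_rpow h3.le (by norm_num), le_div_iff₀ (by positivity), mul_comm]
      calc (8 : ℝ) ^ b * X ^ e ≤ X ^ (b - e) * X ^ e := mul_le_mul_of_nonneg_right h2 (by positivity)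
        _ = X ^ b := by
            rw [← Real.rpow_add h3]
            congr 1
            ring
    · exact Eventually.of_forall fun _ => Or.inr h.1
  obtain ⟨i₀, hi₀⟩ := eventually_atTop.1 ((Filter.Eventually.and hS (two_tendsto.eventually_ge_atTop (8 * X₂))).and
    (two_tendsto.eventually hev))
  apply dyadic (i₀ + 1)
  intro i hi n hn1 hn2
  obtain ⟨j, rfl⟩ : ∃ j, i = j + 1 := ⟨i - 1, by omega⟩
  obtain ⟨⟨h2, h3⟩, h4⟩ := hi₀ j (by omega)
  obtain ⟨X, hX⟩ : ∃ X : ℝ, X = (2 : ℝ) ^ j := ⟨_, rfl⟩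
  rw [pow_succ] at hn1 hn2
  rw [← hX] at h2 h3 h4 hn1 hn2
  have hX0 : 0 < X := by rw [hX]; positivity
  obtain ⟨T, hT1, hT2⟩ := hX₂ (X / 8) (by linarith)
  have hTn : ∀ t ∈ T, t ≤ n := by
    intro t ht
    have h9 := (hT1 t ht).2
    have h10 : (t : ℝ) ≤ n := by linarith
    exact_mod_cast h10
  by_contra hcon
  push Not at hcon
  have h5 := h2 (T.image fun t => n - t) (by
    intro s hs
    obtain ⟨t, ht, rfl⟩ := Finset.mem_image.1 hs
    have h9 := (hT1 t ht).2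
    have h11 : (0 : ℝ) ≤ t := Nat.cast_nonneg t
    rw [Nat.cast_sub (hTn t ht)]
    refine ⟨fun hmem => ?_, by linarith, by linarith⟩
    have h12 := hTn t ht
    exact hcon t (hT1 t ht).1 (n - t) hmem (by omega))
  rw [Finset.card_image_of_injOn (fun t ht t' ht' h => by
    have h5 := hTn t ht
    have h6 := hTn t' ht'
    have h7 : n - t = n - t' := h
    omega)] at h5
  rcases h4 with h4 | h4
  · linarith
  · rw [h4, Real.rpow_zero] at h5
    have h6 : (0 : ℝ) < T.card := lt_of_lt_of_le (by positivity) hT2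
    have h7 : 1 ≤ T.card := by
      have : 0 < T.card := by exact_mod_cast h6
      omega
    have h8 : (1 : ℝ) ≤ T.card := by exact_mod_cast h7
    linarith

/-- **The doublings.** -/
theorem dbl_all (b : ℝ) (hb : 0 ≤ b) : ∀ (j : ℕ) (S : Set ℕ) (d h : Fin j → ℕ → ℝ) (e : ℝ), (∀ i, NoGaps (d i)) → (∀ i, Smaller (h i) (d i)) →
    0 ≤ e → Few Sᶜ e → (e = 0 ∨ 1 - b < 2 ^ j * (1 - e)) →
    Generic j fun β => ∀ B : Set ℕ, Many B b → ∀ᶠ n : ℕ in atTop, ∃ t ∈ B, ∃ m ∈ Sums (fun i y => β i * d i y + h i y) S, n = m + t := by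
  intro j
  induction j with
  | zero =>
    intro S d h e _ _ he hS hc B hB
    have h1 := fill S e b hS (by
      rcases hc with hc | hc
      · exact Or.inr ⟨hc, hb⟩
      · left
        rw [pow_zero, one_mul] at hc
        linarith) B hB
    filter_upwards [h1] with n hn
    obtain ⟨t, ht, m, hm, h⟩ := hn
    exact ⟨t, ht, m, sums_zero _ _ hm, h⟩
  | succ j ih =>
    intro S d h e hd hh he hS hc
    obtain ⟨e', he'0, he'1, he'2⟩ : ∃ e', 0 ≤ e' ∧ 2 * e - 1 < e' ∧ (e' = 0 ∨ 1 - b < 2 ^ j * (1 - e')) := by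
      rcases lt_or_ge e (1 / 2) with h1 | h1
      · exact ⟨0, le_rfl, by linarith, Or.inl rfl⟩
      · rcases hc with hc | hc
        · rw [hc] at h1
          norm_num at h1
        · have h2 : (0 : ℝ) < 2 ^ j := by positivity
          have h3 : 2 * e - 1 < 1 - (1 - b) / 2 ^ j := by
            have h4 : (1 - b) / 2 ^ j < 2 * (1 - e) := by
              rw [div_lt_iff₀ h2]
              rw [pow_succ] at hc
              linarith
            linarith
          obtain ⟨e', h4, h5⟩ := exists_between h3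
          refine ⟨e', by linarith, h4, Or.inr ?_⟩
          have h6 : (1 - b) / 2 ^ j < 1 - e' := by linarith
          rw [div_lt_iff₀ h2] at h6
          linarith
    obtain ⟨E, hE1, hE2⟩ := double S e e' he he'1 hS (d 0) (h 0) (hd 0) (hh 0)
    refine ⟨E, hE1, fun β hβ hβE => ?_⟩
    have h1 := ih (Plus (fun y => β * d 0 y + h 0 y) S) (fun i => d i.succ) (fun i => h i.succ) e' (fun i => hd _) (fun i => hh _)
      he'0 (hE2 β hβ hβE) he'2
    refine Generic.mono _ (fun γ hγ B hB => ?_) h1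
    filter_upwards [hγ B hB] with n hn
    obtain ⟨t, ht, m, hm, hn⟩ := hn
    exact ⟨t, ht, m, sums_cons (fun i y => (Fin.cons β γ : Fin (j + 1) → ℝ) i * d i y + h i y) S hm, hn⟩

/-- **Arbitrary sets and generic terms.** -/
theorem general (A : Set ℕ) (a : ℝ) (hA : Many A a) (r : ℕ) (c : Fin (r + 1) → ℝ) (hc : ∀ i, 1 ≤ c i) (g : Fin (r + 1) → ℕ → ℝ) (C : ℝ)
    (hg : ∀ i y, |g i y| ≤ C * ((y : ℝ) + 1) ^ (c i - 1)) (j : ℕ) (d h : Fin j → ℕ → ℝ) (hd : ∀ i, NoGaps (d i))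
    (hh : ∀ i, Smaller (h i) (d i)) (b : ℝ) (hb : 0 ≤ b)
    (hab : 1 - b < 2 ^ j * min (1 / c (Fin.last r)) (a + ∑ i, 1 / c i - 1)) :
    Generic (r + 1) fun α => Generic j fun β => ∀ B : Set ℕ, Many B b → ∀ᶠ n : ℕ in atTop, ∃ s ∈ A, ∃ t ∈ B,
      ∃ (y : Fin (r + 1) → ℕ) (z : Fin j → ℕ), (∀ i, 0 < y i) ∧ (∀ i, 0 < z i) ∧
        (n : ℤ) = s + t + ∑ i, ⌊α i * (y i : ℝ) ^ c i + g i (y i)⌋ + ∑ i, ⌊β i * d i (z i) + h i (z i)⌋ := by
  have h2 : (0 : ℝ) < 2 ^ j := by positivity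
  obtain ⟨μ, hμ⟩ : ∃ μ : ℝ, μ = min (1 / c (Fin.last r)) (a + ∑ i, 1 / c i - 1) := ⟨_, rfl⟩
  rw [← hμ] at hab
  have hμ1 : μ ≤ 1 := by
    rw [hμ]
    refine (min_le_left _ _).trans ?_
    have := hc (Fin.last r)
    rw [div_le_one (by linarith)]
    exact this
  have h3 : (1 - b) / 2 ^ j < μ := by
    rw [div_lt_iff₀ h2]
    linarith
  obtain ⟨ν, hν1, hν2⟩ := exists_between h3
  have h4 := few_all r A a c g C (1 - ν) hc hg hA (by rw [← hμ]; linarith)
  refine Generic.mono _ (fun α hα => ?_) h4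
  have h5 := dbl_all b hb j _ d h (1 - ν) hd hh (by linarith) hα (Or.inr (by
    rw [div_lt_iff₀ h2] at hν1
    linarith))
  refine Generic.mono _ (fun β hβ B hB => ?_) h5
  filter_upwards [hβ B hB] with n hn
  obtain ⟨t, ht, m, ⟨m', ⟨s, hs, y, hy, hm'⟩, z, hz, hm⟩, rfl⟩ := hn
  refine ⟨s, hs, t, ht, y, z, hy, hz, ?_⟩
  push_cast
  rw [hm, hm']
  ring

lemma many_zero : Many {n : ℕ | n = 0} 0 := by
  filter_upwards [eventually_ge_atTop (0 : ℝ)] with X hX
  refine ⟨{0}, ?_, ?_⟩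
  · intro s hs
    rw [Finset.mem_singleton] at hs
    rw [hs]
    exact ⟨rfl, by simpa using hX⟩
  · rw [Real.rpow_zero, Finset.card_singleton]
    simp

lemma noGaps_pow (k : ℕ) (hk : 1 ≤ k) : NoGaps fun z => (z : ℝ) ^ k := by
  refine ⟨2 ^ k, one_le_pow₀ (by norm_num), ?_⟩
  filter_upwards [eventually_ge_atTop (1 : ℝ)] with X hX
  have hX0 : 0 < X := by linarith
  have hk0 : (0 : ℝ) < k := by exact_mod_cast hk
  obtain ⟨Z, hZ⟩ : ∃ Z : ℝ, Z = X ^ (1 / (k : ℝ)) := ⟨_, rfl⟩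
  have hZ1 : 1 ≤ Z := by rw [hZ]; exact Real.one_le_rpow hX (by positivity)
  have hZk : Z ^ k = X := by
    rw [hZ, ← Real.rpow_natCast, ← Real.rpow_mul hX0.le, one_div_mul_cancel hk0.ne', Real.rpow_one]
  have h1 : Z ≤ ⌈Z⌉₊ := Nat.le_ceil Z
  have h2 : (⌈Z⌉₊ : ℝ) < Z + 1 := Nat.ceil_lt_add_one (by linarith)
  refine ⟨⌈Z⌉₊, Nat.ceil_pos.2 (by linarith), ?_, ?_⟩
  · calc X = Z ^ k := hZk.symm
      _ ≤ (⌈Z⌉₊ : ℝ) ^ k := pow_le_pow_left₀ (by linarith) h1 _
  · calc (⌈Z⌉₊ : ℝ) ^ k ≤ (2 * Z) ^ k := pow_le_pow_left₀ (by positivity) (by linarith) _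
      _ = 2 ^ k * X := by rw [mul_pow, hZk]

end Pool.Agent.H96.WG
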