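import Pool.Agent.H96.WG.H

set_option autoImplicit false

/-! # Sums of `k`-th powers of elements of a set: diminishing ranges -/

namespace Pool.Agent.H96.WG

open Set Filter
open scoped Topology

/-- `W` has at least `P ^ ω` elements in `[P, C P]`, for all large `P` -/
def Thick (W : Set ℕ) (ω : ℝ) : Prop :=
  ∃ C : ℕ, ∀ᶠ P : ℕ in atTop, ∃ S : Finset ℕ, (∀ x ∈ S, x ∈ W ∧ P ≤ x ∧ x ≤ C * P) ∧ (P : ℝ) ^ ω ≤ S.card

/-- the sums of `u` many `k`-th powers of elements of `W` -/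
def PowSums (k u : ℕ) (W : Set ℕ) : Set ℕ := {n : ℕ | ∃ x : Fin u → ℕ, (∀ i, x i ∈ W) ∧ n = ∑ i, x i ^ k}

lemma powSums_step (k : ℕ) (hk : 2 ≤ k) (W : Set ℕ) (ω : ℝ) (hω : 0 ≤ ω) (hW : Thick W ω) (A : Set ℕ) (a : ℝ) (ha : 0 ≤ a) (hA : Many A a)
    (b : ℝ) (hb : b < ω / k + a * (1 - 1 / k)) : Many {n : ℕ | ∃ x ∈ W, ∃ s ∈ A, n = x ^ k + s} b := by
  classical
  obtain ⟨C₀, hW⟩ := hW
  obtain ⟨C, hC⟩ : ∃ C : ℕ, C = C₀ + 1 := ⟨_, rfl⟩
  have hC1 : (1 : ℝ) ≤ C := by rw [hC]; push_cast; linarith [Nat.cast_nonneg (α := ℝ) C₀]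
  have hC0 : (0 : ℝ) < C := by linarith
  have hk0 : (0 : ℝ) < k := by exact_mod_cast (by omega : 0 < k)
  have hk1 : (1 : ℝ) ≤ k := by exact_mod_cast (by omega : 1 ≤ k)
  obtain ⟨N₁, h1⟩ := eventually_atTop.1 hW
  obtain ⟨X₁, h2⟩ := eventually_atTop.1 hA
  obtain ⟨σ, hσ⟩ : ∃ σ : ℝ, σ = ω + (k - 1) * a := ⟨_, rfl⟩
  have hσ0 : 0 ≤ σ := by rw [hσ]; have : 0 ≤ (k - 1) * a := mul_nonneg (by linarith) ha; linarith
  have hσb : b < σ / k := by
    refine hb.trans_eq ?_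
    rw [hσ]
    field_simp
  obtain ⟨κ, hκ⟩ : ∃ κ : ℝ, κ = (1 / 2) ^ (1 / (k : ℝ)) / (2 * C) := ⟨_, rfl⟩
  have hκ0 : 0 < κ := by rw [hκ]; positivity
  have hev1 : ∀ᶠ X : ℝ in atTop, (max (2 : ℝ) (max ((N₁ : ℝ) + 1) (X₁ + 1))) / κ ≤ X ^ (1 / (k : ℝ)) :=
    (tendsto_rpow_atTop (by positivity)).eventually_ge_atTop _
  have hev2 : ∀ᶠ X : ℝ in atTop, (1 / κ) ^ σ ≤ X ^ (σ / k - b) := (tendsto_rpow_atTop (by linarith)).eventually_ge_atTop _
  filter_upwards [hev1, hev2, eventually_ge_atTop 1] with X h3 h4 hX1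
  have hX0 : 0 < X := by linarith
  rw [div_le_iff₀ hκ0] at h3
  obtain ⟨Y, hY⟩ : ∃ Y : ℝ, Y = X ^ (1 / (k : ℝ)) := ⟨_, rfl⟩
  rw [← hY] at h3
  have hY0 : 0 < Y := by rw [hY]; positivity
  obtain ⟨Z, hZ⟩ : ∃ Z : ℝ, Z = (1 / 2) ^ (1 / (k : ℝ)) * Y / C := ⟨_, rfl⟩
  have hZ0 : 0 < Z := by rw [hZ]; positivity
  have hZκ : Z = 2 * (κ * Y) := by rw [hZ, hκ]; field_simp
  have hZk : (C * Z) ^ k = X / 2 := by
    have e : C * Z = (1 / 2) ^ (1 / (k : ℝ)) * Y := by rw [hZ]; field_simp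
    rw [e, hY, ← Real.mul_rpow (by norm_num) hX0.le, ← Real.rpow_natCast, ← Real.rpow_mul (by positivity),
      one_div_mul_cancel hk0.ne', Real.rpow_one]
    ring
  obtain ⟨P, hP⟩ : ∃ P : ℕ, P = ⌊Z⌋₊ := ⟨_, rfl⟩
  have hP1 : (P : ℝ) ≤ Z := by rw [hP]; exact Nat.floor_le hZ0.le
  have hP2 : Z < P + 1 := by rw [hP]; exact Nat.lt_floor_add_one _
  have h5 : 2 ≤ Y * κ := (le_max_left _ _).trans h3
  have h6 : (N₁ : ℝ) + 1 ≤ Y * κ := ((le_max_left _ _).trans (le_max_right _ _)).trans h3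
  have h7 : X₁ + 1 ≤ Y * κ := ((le_max_right _ _).trans (le_max_right _ _)).trans h3
  have hP3 : κ * Y ≤ P := by linarith
  have hP4 : (1 : ℝ) ≤ P := by linarith
  have hP5 : N₁ ≤ P := by
    have : (N₁ : ℝ) ≤ P := by linarith
    exact_mod_cast this
  have hP6 : 1 ≤ P := by exact_mod_cast hP4
  have hCP : ((C : ℝ) * P) ^ k ≤ X / 2 := by
    rw [← hZk]
    exact pow_le_pow_left₀ (by positivity) (mul_le_mul_of_nonneg_left hP1 hC0.le) _
  obtain ⟨V, hV⟩ : ∃ V : ℕ, V = P ^ (k - 1) := ⟨_, rfl⟩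
  have hVr : (V : ℝ) = (P : ℝ) ^ (k - 1) := by rw [hV]; push_cast; rfl
  have hPV : (P : ℝ) ≤ V := by
    rw [hVr]
    calc (P : ℝ) = (P : ℝ) ^ 1 := (pow_one _).symm
      _ ≤ _ := pow_le_pow_right₀ hP4 (by omega)
  have hVX : (V : ℝ) ≤ X / 2 := by
    rw [hVr]
    calc (P : ℝ) ^ (k - 1) ≤ (P : ℝ) ^ k := pow_le_pow_right₀ hP4 (by omega)
      _ ≤ ((C : ℝ) * P) ^ k := pow_le_pow_left₀ (by positivity) (by nlinarith) _
      _ ≤ _ := hCP
  obtain ⟨S, hS1, hS2⟩ := h1 P hP5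
  obtain ⟨T, hT1, hT2⟩ := h2 V (by linarith)
  refine ⟨(S ×ˢ T).image (fun q : ℕ × ℕ => q.1 ^ k + q.2), ?_, ?_⟩
  · intro n hn
    rw [Finset.mem_image] at hn
    obtain ⟨⟨x, s⟩, hq, rfl⟩ := hn
    rw [Finset.mem_product] at hq
    simp only at hq ⊢
    obtain ⟨h8, h9, h10⟩ := hS1 x hq.1
    obtain ⟨h11, h12⟩ := hT1 s hq.2
    refine ⟨⟨x, h8, s, h11, rfl⟩, ?_⟩
    push_cast
    have h13 : (x : ℝ) ≤ C * P := by
      have h14 : x ≤ C * P := by
        rw [hC]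
        calc x ≤ C₀ * P := h10
          _ ≤ (C₀ + 1) * P := Nat.mul_le_mul_right _ (by omega)
      exact_mod_cast h14
    have h14 : (x : ℝ) ^ k ≤ ((C : ℝ) * P) ^ k := pow_le_pow_left₀ (Nat.cast_nonneg _) h13 _
    linarith
  · have hinj : Set.InjOn (fun q : ℕ × ℕ => q.1 ^ k + q.2) (S ×ˢ T : Finset (ℕ × ℕ)) := by
      have key : ∀ x s x' s' : ℕ, x ∈ S → s ∈ T → x' ∈ S → x < x' → x ^ k + s = x' ^ k + s' → False := by
        intro x s x' s' hx hs hx' hlt h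
        have h8 := (hS1 x hx).2.1
        have h9 : s ≤ V := by exact_mod_cast (hT1 s hs).2
        obtain ⟨l, rfl⟩ : ∃ l, k = l + 1 := ⟨k - 1, by omega⟩
        rw [Nat.add_sub_cancel] at hV
        have h10 : P ^ l < x' ^ l := Nat.pow_lt_pow_left (by omega) (by omega)
        have h11 : x ^ l ≤ x' ^ l := Nat.pow_le_pow_left hlt.le _
        have h12 : x ^ (l + 1) + x' ^ l ≤ x' ^ (l + 1) := by
          rw [pow_succ, pow_succ]
          calc x ^ l * x + x' ^ l ≤ x' ^ l * x + x' ^ l := by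
                apply Nat.add_le_add_right
                exact Nat.mul_le_mul_right _ h11
            _ = x' ^ l * (x + 1) := by ring
            _ ≤ x' ^ l * x' := Nat.mul_le_mul_left _ hlt
        omega
      rintro ⟨x, s⟩ h8 ⟨x', s'⟩ h9 h10
      rw [Finset.mem_coe, Finset.mem_product] at h8 h9
      simp only at h8 h9 h10
      rcases lt_trichotomy x x' with h | h | h
      · exact (key x s x' s' h8.1 h8.2 h9.1 h h10).elim
      · subst h
        have : s = s' := by omega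
        rw [this]
      · exact (key x' s' x s h9.1 h9.2 h8.1 h h10.symm).elim
    rw [Finset.card_image_of_injOn hinj, Finset.card_product]
    push_cast
    have hP0 : (0 : ℝ) < P := by linarith
    have h8 : (P : ℝ) ^ ω * (V : ℝ) ^ a = (P : ℝ) ^ σ := by
      rw [hVr, hσ, ← Real.rpow_natCast, ← Real.rpow_mul hP0.le, ← Real.rpow_add hP0]
      congr 1
      rw [Nat.cast_sub (by omega)]
      push_cast
      ring
    have h9 : (κ * Y) ^ σ ≤ (P : ℝ) ^ σ := Real.rpow_le_rpow (by positivity) hP3 hσ0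
    have h10 : (κ * Y) ^ σ = κ ^ σ * X ^ (σ / k) := by
      rw [Real.mul_rpow hκ0.le hY0.le, hY, ← Real.rpow_mul hX0.le]
      congr 2
      ring
    have h11 : X ^ (σ / k) = X ^ (σ / k - b) * X ^ b := by
      rw [← Real.rpow_add hX0]
      congr 1
      ring
    have h12 : 1 ≤ κ ^ σ * X ^ (σ / k - b) := by
      calc (1 : ℝ) = κ ^ σ * (1 / κ) ^ σ := by
            rw [← Real.mul_rpow hκ0.le (by positivity), mul_one_div_cancel hκ0.ne', Real.one_rpow]
        _ ≤ _ := mul_le_mul_of_nonneg_left h4 (by positivity)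
    calc X ^ b ≤ κ ^ σ * X ^ (σ / k - b) * X ^ b := le_mul_of_one_le_left (by positivity) h12
      _ = (κ * Y) ^ σ := by rw [h10, h11]; ring
      _ ≤ (P : ℝ) ^ σ := h9
      _ = (P : ℝ) ^ ω * (V : ℝ) ^ a := h8.symm
      _ ≤ S.card * T.card := mul_le_mul hS2 hT2 (by positivity) (by positivity)

/-- the exponent of the sums of `u` many `k`-th powers of elements of `W` -/
theorem many_powSums (k : ℕ) (hk : 2 ≤ k) (W : Set ℕ) (ω : ℝ) (hω : 0 < ω) (hW : Thick W ω) :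
    ∀ (u : ℕ) (b : ℝ), (b < ω * (1 - (1 - 1 / (k : ℝ)) ^ u) ∨ b ≤ 0) → Many (PowSums k u W) b := by
  have hk0 : (0 : ℝ) < k := by exact_mod_cast (by omega : 0 < k)
  have hk2 : (2 : ℝ) ≤ k := by exact_mod_cast hk
  obtain ⟨q, hq⟩ : ∃ q : ℝ, q = 1 - 1 / (k : ℝ) := ⟨_, rfl⟩
  have hq0 : 0 < q := by
    rw [hq, sub_pos, div_lt_one hk0]
    linarith
  intro u
  induction u with
  | zero =>
    intro b hb
    have hb0 : b ≤ 0 := by
      rcases hb with h | h
      · rw [pow_zero, sub_self, mul_zero] at h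
        exact h.le
      · exact h
    refine many_zero.mono ?_ hb0
    intro n hn
    exact ⟨Fin.elim0, fun i => i.elim0, by simpa using hn⟩
  | succ u ih =>
    intro b hb
    rw [← hq] at ih hb
    obtain ⟨a, ha0, ha1, ha2⟩ : ∃ a : ℝ, 0 ≤ a ∧ (a < ω * (1 - q ^ u) ∨ a ≤ 0) ∧ b < ω / k + a * q := by
      rcases lt_or_ge b (ω / k) with h | h
      · exact ⟨0, le_rfl, Or.inr le_rfl, by rw [zero_mul, add_zero]; exact h⟩
      · have h1 : 0 < ω / k := by positivity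
        rcases hb with h2 | h2
        · have h3 : (b - ω / k) / q < ω * (1 - q ^ u) := by
            rw [div_lt_iff₀ hq0]
            have e : ω * (1 - q ^ (u + 1)) = ω / k + ω * (1 - q ^ u) * q := by
              rw [pow_succ]
              have e2 : 1 / (k : ℝ) = 1 - q := by rw [hq]; ring
              have e3 : ω / k = ω * (1 - q) := by rw [← e2]; ring
              rw [e3]
              ring
            rw [e] at h2
            linarith
          obtain ⟨a, h4, h5⟩ := exists_between h3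
          have h6 : 0 ≤ (b - ω / k) / q := div_nonneg (by linarith) hq0.le
          refine ⟨a, by linarith, Or.inl h5, ?_⟩
          rw [div_lt_iff₀ hq0] at h4
          linarith
        · linarith
    have h1 := powSums_step k hk W ω hω.le hW (PowSums k u W) a ha0 (ih a ha1) b (by rw [← hq]; exact ha2)
    refine h1.mono ?_ le_rfl
    rintro n ⟨x, hx, s, ⟨y, hy, hs⟩, hn⟩
    refine ⟨Fin.cons x y, ?_, ?_⟩
    · intro i
      refine Fin.cases ?_ (fun i => ?_) i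
      · exact hx
      · exact hy i
    · rw [Fin.sum_univ_succ]
      simp only [Fin.cons_zero, Fin.cons_succ]
      rw [hn, hs]

lemma thick_univ : Thick Set.univ 1 := by
  refine ⟨2, Eventually.of_forall fun P => ⟨Finset.Icc P (2 * P), fun x hx => ?_, ?_⟩⟩
  · rw [Finset.mem_Icc] at hx
    exact ⟨mem_univ _, hx⟩
  · rw [Real.rpow_one, Nat.card_Icc]
    have : P ≤ 2 * P + 1 - P := by omega
    exact_mod_cast this

lemma Thick.mono {W : Set ℕ} {ω ω' : ℝ} (h : Thick W ω) (hω : ω' ≤ ω) : Thick W ω' := by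
  obtain ⟨C, h⟩ := h
  refine ⟨C, ?_⟩
  filter_upwards [h, eventually_ge_atTop 1] with P h1 h2
  obtain ⟨S, hS1, hS2⟩ := h1
  exact ⟨S, hS1, (Real.rpow_le_rpow_of_exponent_le (by exact_mod_cast h2) hω).trans hS2⟩

/-- the primes (Chebyshev) -/
theorem thick_primes (ω : ℝ) (hω : ω < 1) : Thick {p : ℕ | p.Prime} ω := by
  classical
  refine ⟨4, ?_⟩
  obtain ⟨δ, hδ⟩ : ∃ δ : ℝ, δ = min (1 - ω) (1 / 2) := ⟨_, rfl⟩
  have hδ0 : 0 < δ := by rw [hδ]; exact lt_min (by linarith) (by norm_num)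
  have hδ1 : δ ≤ 1 - ω := by rw [hδ]; exact min_le_left _ _
  have hδ2 : δ ≤ 1 / 2 := by rw [hδ]; exact min_le_right _ _
  have h1 : ∀ᶠ x : ℝ in atTop, ‖Real.log x‖ ≤ (1 / 10) / 5 ^ δ * ‖x ^ δ‖ := (isLittleO_log_rpow_atTop hδ0).def (by positivity)
  have h2 : Tendsto (fun P : ℕ => 5 * (P : ℝ)) atTop atTop := tendsto_natCast_atTop_atTop.const_mul_atTop (by norm_num)
  filter_upwards [h2.eventually h1, eventually_ge_atTop 1] with P h3 h4
  have hP1 : (1 : ℝ) ≤ P := by exact_mod_cast h4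
  have hP0 : (0 : ℝ) < P := by linarith
  have h5 : Real.log (5 * P) ≤ 1 / 10 * (P : ℝ) ^ δ := by
    rw [Real.norm_of_nonneg (Real.log_nonneg (by linarith)), Real.norm_of_nonneg (by positivity), Real.mul_rpow (by norm_num) hP0.le] at h3
    refine h3.trans (le_of_eq ?_)
    field_simp
  refine ⟨(Finset.Ioc P (4 * P)).filter Nat.Prime, ?_, ?_⟩
  · intro x hx
    rw [Finset.mem_filter, Finset.mem_Ioc] at hx
    exact ⟨hx.2, by omega, hx.1.2⟩
  · have h6 := Chebyshev.theta_ge (4 * P)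
    have h7 := Chebyshev.theta_le_log4_mul_x (x := (P : ℝ)) hP0.le
    have h8 : Chebyshev.theta ((4 * P : ℕ) : ℝ) - Chebyshev.theta (P : ℝ) ≤
        (((Finset.Ioc P (4 * P)).filter Nat.Prime).card : ℝ) * Real.log (4 * P) := by
      rw [Chebyshev.theta_eq_sum_Icc, Chebyshev.theta_eq_sum_Icc, Nat.floor_natCast, Nat.floor_natCast]
      have h9 : (Finset.Icc 0 (4 * P)).filter Nat.Prime = (Finset.Icc 0 P).filter Nat.Prime ∪ (Finset.Ioc P (4 * P)).filter Nat.Prime := by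
        ext p
        simp only [Finset.mem_filter, Finset.mem_Icc, Finset.mem_union, Finset.mem_Ioc]
        constructor
        · rintro ⟨⟨h10, h11⟩, h12⟩
          rcases le_or_gt p P with h | h
          · exact Or.inl ⟨⟨h10, h⟩, h12⟩
          · exact Or.inr ⟨⟨h, h11⟩, h12⟩
        · rintro (⟨⟨h10, h11⟩, h12⟩ | ⟨⟨h10, h11⟩, h12⟩)
          · exact ⟨⟨h10, by omega⟩, h12⟩
          · exact ⟨⟨by omega, h11⟩, h12⟩
      rw [h9, Finset.sum_union (by
        rw [Finset.disjoint_left]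
        intro p hp hp'
        rw [Finset.mem_filter, Finset.mem_Icc] at hp
        rw [Finset.mem_filter, Finset.mem_Ioc] at hp'
        omega)]
      have h10 : ∑ p ∈ (Finset.Ioc P (4 * P)).filter Nat.Prime, Real.log (p : ℝ) ≤
          ∑ _p ∈ (Finset.Ioc P (4 * P)).filter Nat.Prime, Real.log (4 * P) := by
        apply Finset.sum_le_sum
        intro p hp
        rw [Finset.mem_filter, Finset.mem_Ioc] at hp
        have h11 : (1 : ℝ) ≤ p := by exact_mod_cast hp.2.one_lt.le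
        apply Real.log_le_log (by linarith)
        exact_mod_cast hp.1.2
      rw [Finset.sum_const, nsmul_eq_mul] at h10
      linarith
    have hlog4 : Real.log 4 = 2 * Real.log 2 := by
      rw [show (4 : ℝ) = 2 ^ 2 by norm_num, Real.log_pow]
      push_cast
      ring
    have hl2 : (0.69 : ℝ) < Real.log 2 := by have := Real.log_two_gt_d9; linarith
    have hPd : (P : ℝ) ^ δ ≤ P := by
      calc (P : ℝ) ^ δ ≤ (P : ℝ) ^ (1 : ℝ) := Real.rpow_le_rpow_of_exponent_le hP1 (by linarith)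
        _ = P := Real.rpow_one _
    have h9 : Real.log ((4 * P : ℕ) + 1) ≤ 1 / 10 * P := by
      have : Real.log (((4 * P : ℕ) : ℝ) + 1) ≤ Real.log (5 * P) := by
        apply Real.log_le_log (by positivity)
        push_cast
        linarith
      linarith
    have h10 : Real.log ((4 * P : ℕ) : ℝ) ≤ 1 / 10 * (P : ℝ) ^ δ := by
      have : Real.log ((4 * P : ℕ) : ℝ) ≤ Real.log (5 * P) := by
        apply Real.log_le_log (by positivity)
        push_cast
        linarith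
      linarith
    have h11 : 2 * √((4 * P : ℕ) : ℝ) * Real.log ((4 * P : ℕ) : ℝ) ≤ 4 / 10 * P := by
      have e1 : √((4 * P : ℕ) : ℝ) = 2 * (P : ℝ) ^ (1 / 2 : ℝ) := by
        push_cast
        rw [Real.sqrt_mul (by norm_num), show (4 : ℝ) = 2 ^ 2 by norm_num, Real.sqrt_sq (by norm_num), Real.sqrt_eq_rpow]
      rw [e1]
      have e2 : (P : ℝ) ^ (1 / 2 : ℝ) * (P : ℝ) ^ δ ≤ P := by
        rw [← Real.rpow_add hP0]
        calc (P : ℝ) ^ (1 / 2 + δ) ≤ (P : ℝ) ^ (1 : ℝ) := Real.rpow_le_rpow_of_exponent_le hP1 (by linarith)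
          _ = P := Real.rpow_one _
      have e3 : 0 < (P : ℝ) ^ (1 / 2 : ℝ) := by positivity
      calc 2 * (2 * (P : ℝ) ^ (1 / 2 : ℝ)) * Real.log ((4 * P : ℕ) : ℝ) ≤ 2 * (2 * (P : ℝ) ^ (1 / 2 : ℝ)) * (1 / 10 * (P : ℝ) ^ δ) :=
            mul_le_mul_of_nonneg_left h10 (by positivity)
        _ = 4 / 10 * ((P : ℝ) ^ (1 / 2 : ℝ) * (P : ℝ) ^ δ) := by ring
        _ ≤ 4 / 10 * P := mul_le_mul_of_nonneg_left e2 (by norm_num)
    have h12 : (P : ℝ) ^ ω * Real.log (4 * P) ≤ 1 / 10 * P := by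
      have e1 : (4 * (P : ℝ)) = ((4 * P : ℕ) : ℝ) := by push_cast; rfl
      rw [e1]
      calc (P : ℝ) ^ ω * Real.log ((4 * P : ℕ) : ℝ) ≤ (P : ℝ) ^ ω * (1 / 10 * (P : ℝ) ^ δ) :=
            mul_le_mul_of_nonneg_left h10 (by positivity)
        _ = 1 / 10 * (P : ℝ) ^ (ω + δ) := by rw [Real.rpow_add hP0]; ring
        _ ≤ 1 / 10 * (P : ℝ) ^ (1 : ℝ) :=
            mul_le_mul_of_nonneg_left (Real.rpow_le_rpow_of_exponent_le hP1 (by linarith)) (by norm_num)
        _ = 1 / 10 * P := by rw [Real.rpow_one]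
    have h13 : (P : ℝ) ^ ω * Real.log (4 * P) ≤ (((Finset.Ioc P (4 * P)).filter Nat.Prime).card : ℝ) * Real.log (4 * P) := by
      push_cast at h6
      rw [hlog4] at h7
      push_cast at h9 h11 h8
      nlinarith
    have h14 : 0 < Real.log (4 * P) := Real.log_pos (by linarith)
    exact le_of_mul_le_mul_right h13 h14

end Pool.Agent.H96.WG
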