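import Pool.Agent.H96.WG.I

set_option autoImplicit false

/-! # Exact powers and generic terms -/

namespace Pool.Agent.H96.WG

open MeasureTheory Set Filter
open scoped NNReal ENNReal Topology

lemma q_pos (k : ℕ) (hk : 2 ≤ k) : 0 < 1 - 1 / (k : ℝ) ∧ 1 - 1 / (k : ℝ) < 1 := by
  have hk0 : (0 : ℝ) < k := by exact_mod_cast (by omega : 0 < k)
  have hk2 : (2 : ℝ) ≤ k := by exact_mod_cast hk
  constructor
  · rw [sub_pos, div_lt_one hk0]
    linarith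
  · have : 0 < 1 / (k : ℝ) := by positivity
    linarith

lemma many_pw (k : ℕ) (hk : 2 ≤ k) (W : Set ℕ) (hW : ∀ ω : ℝ, ω < 1 → Thick W ω) (u : ℕ) (b : ℝ)
    (hb : b < 1 - (1 - 1 / (k : ℝ)) ^ u ∨ b ≤ 0) : Many (PowSums k u W) b := by
  rcases le_or_gt b 0 with h | h
  · exact many_powSums k hk W (1 / 2) (by norm_num) (hW _ (by norm_num)) u b (Or.inr h)
  · rcases hb with h1 | h1
    · obtain ⟨p, hp⟩ : ∃ p : ℝ, p = 1 - (1 - 1 / (k : ℝ)) ^ u := ⟨_, rfl⟩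
      rw [← hp] at h1
      have hp0 : 0 < p := by linarith
      have h2 : b / p < 1 := by rw [div_lt_one hp0]; exact h1
      obtain ⟨ω, h3, h4⟩ := exists_between h2
      have h5 : 0 < b / p := by positivity
      refine many_powSums k hk W ω (by linarith) (hW ω h4) u b (Or.inl ?_)
      rw [← hp]
      rw [div_lt_iff₀ hp0] at h3
      exact h3
    · linarith

/-- **Exact powers and one generic term.** -/
theorem two_sided (k u v : ℕ) (hk : 2 ≤ k) (W : Set ℕ) (hW : ∀ ω : ℝ, ω < 1 → Thick W ω) (c : ℝ) (hc : 1 ≤ c)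
    (g : ℕ → ℝ) (C : ℝ) (hg : ∀ y, |g y| ≤ C * ((y : ℝ) + 1) ^ (c - 1)) :
    ∃ E : Set ℝ, dimH E ≤ ENNReal.ofReal (1 + (1 - 1 / (k : ℝ)) ^ u + (1 - 1 / (k : ℝ)) ^ v - 1 / c) ∧ ∀ α : ℝ, 0 < α → α ∉ E →
      ∀ᶠ n : ℕ in atTop, ∃ (x : Fin (u + v) → ℕ) (y : ℕ), (∀ i, x i ∈ W) ∧ 0 < y ∧
        (n : ℤ) = ∑ i, (x i : ℤ) ^ k + ⌊α * (y : ℝ) ^ c + g y⌋ := by
  obtain ⟨ρ, hρ⟩ : ∃ ρ : ℝ, ρ = 1 + (1 - 1 / (k : ℝ)) ^ u + (1 - 1 / (k : ℝ)) ^ v - 1 / c := ⟨_, rfl⟩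
  rw [← hρ]
  have hN : ∀ N : ℕ, ∃ E : Set ℝ, dimH E ≤ ENNReal.ofReal (ρ + 2 / ((N : ℝ) + 1)) ∧ ∀ α : ℝ, 0 < α → α ∉ E →
      ∀ᶠ n : ℕ in atTop, ∃ (x : Fin (u + v) → ℕ) (y : ℕ), (∀ i, x i ∈ W) ∧ 0 < y ∧
        (n : ℤ) = ∑ i, (x i : ℤ) ^ k + ⌊α * (y : ℝ) ^ c + g y⌋ := by
    intro N
    have hε : (0 : ℝ) < 1 / ((N : ℝ) + 1) := by positivity
    obtain ⟨E, hE1, hE2⟩ := one_term (PowSums k u W) (1 - (1 - 1 / (k : ℝ)) ^ u - 1 / ((N : ℝ) + 1))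
      (1 - (1 - 1 / (k : ℝ)) ^ v - 1 / ((N : ℝ) + 1)) c hc (many_pw k hk W hW u _ (Or.inl (by linarith))) g C hg
    refine ⟨E, hE1.trans (le_of_eq ?_), fun α hα hαE => ?_⟩
    · congr 1
      rw [hρ]
      ring
    · filter_upwards [hE2 α hα hαE (PowSums k v W) (many_pw k hk W hW v _ (Or.inl (by linarith)))] with n hn
      obtain ⟨t, ⟨x', hx', ht⟩, m, ⟨s, ⟨x, hx, hs⟩, y, hy, hm⟩, rfl⟩ := hn
      refine ⟨Fin.append x x', y, ?_, hy, ?_⟩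
      · intro i
        refine Fin.addCases (fun i => ?_) (fun i => ?_) i
        · rw [Fin.append_left]; exact hx i
        · rw [Fin.append_right]; exact hx' i
      · have e : ∑ i, ((Fin.append x x' i : ℕ) : ℤ) ^ k = s + t := by
          rw [Fin.sum_univ_add, hs, ht]
          push_cast
          congr 1
          · exact Finset.sum_congr rfl fun i _ => by rw [Fin.append_left]
          · exact Finset.sum_congr rfl fun i _ => by rw [Fin.append_right]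
        rw [e]
        push_cast
        rw [hm]
        ring
  choose E hE1 hE2 using hN
  refine ⟨⋂ N, E N, ?_, ?_⟩
  · have h1 : Tendsto (fun N : ℕ => ENNReal.ofReal (ρ + 2 / ((N : ℝ) + 1))) atTop (𝓝 (ENNReal.ofReal (ρ + 0))) := by
      apply ENNReal.tendsto_ofReal
      apply Tendsto.const_add
      have h2 := tendsto_one_div_add_atTop_nhds_zero_nat (𝕜 := ℝ)
      have h3 := h2.const_mul 2
      rw [mul_zero] at h3
      refine h3.congr fun N => ?_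
      ring
    rw [add_zero] at h1
    exact ge_of_tendsto' h1 fun N => (dimH_mono (iInter_subset _ N)).trans (hE1 N)
  · intro α hα hαE
    rw [mem_iInter, not_forall] at hαE
    obtain ⟨N, hN⟩ := hαE
    exact hE2 N α hα hN

/-- **Exact powers and several generic terms.** -/
theorem powers (k u v : ℕ) (hk : 2 ≤ k) (W : Set ℕ) (hW : ∀ ω : ℝ, ω < 1 → Thick W ω) (r : ℕ) (c : Fin (r + 1) → ℝ) (hc : ∀ i, 1 ≤ c i)
    (g : Fin (r + 1) → ℕ → ℝ) (C : ℝ) (hg : ∀ i y, |g i y| ≤ C * ((y : ℝ) + 1) ^ (c i - 1)) (j : ℕ) (d h : Fin j → ℕ → ℝ)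
    (hd : ∀ i, NoGaps (d i)) (hh : ∀ i, Smaller (h i) (d i))
    (hq : (1 - 1 / (k : ℝ)) ^ v < 2 ^ j * min (1 / c (Fin.last r)) (∑ i, 1 / c i - (1 - 1 / (k : ℝ)) ^ u)) :
    Generic (r + 1) fun α => Generic j fun β => ∀ᶠ n : ℕ in atTop,
      ∃ (x : Fin (u + v) → ℕ) (y : Fin (r + 1) → ℕ) (z : Fin j → ℕ), (∀ i, x i ∈ W) ∧ (∀ i, 0 < y i) ∧ (∀ i, 0 < z i) ∧
        (n : ℤ) = ∑ i, (x i : ℤ) ^ k + ∑ i, ⌊α i * (y i : ℝ) ^ c i + g i (y i)⌋ + ∑ i, ⌊β i * d i (z i) + h i (z i)⌋ := by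
  obtain ⟨hq0, hq1⟩ := q_pos k hk
  obtain ⟨q, hqd⟩ : ∃ q : ℝ, q = 1 - 1 / (k : ℝ) := ⟨_, rfl⟩
  rw [← hqd] at hq0 hq1 hq
  have h2 : (0 : ℝ) < 2 ^ j := by positivity
  obtain ⟨μ, hμ⟩ : ∃ μ : ℝ, μ = min (1 / c (Fin.last r)) (∑ i, 1 / c i - q ^ u) := ⟨_, rfl⟩
  rw [← hμ] at hq
  have hv0 : 0 < q ^ v := by positivity
  have hμ0 : 0 < μ := by
    by_contra hcon
    push Not at hcon
    have : 2 ^ j * μ ≤ 0 := mul_nonpos_of_nonneg_of_nonpos h2.le hcon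
    linarith
  obtain ⟨b, hb0, hbv, hb1⟩ : ∃ b : ℝ, 0 ≤ b ∧ (b < 1 - q ^ v ∨ b ≤ 0) ∧ 1 - b < 2 ^ j * μ := by
    rcases le_or_gt (1 - 2 ^ j * μ) 0 with h3 | h3
    · rcases h3.lt_or_eq with h4 | h4
      · exact ⟨0, le_rfl, Or.inr le_rfl, by linarith⟩
      · have h5 : 0 < 1 - q ^ v := by linarith
        obtain ⟨b, h6, h7⟩ := exists_between h5
        exact ⟨b, h6.le, Or.inl h7, by linarith⟩
    · have h5 : 1 - 2 ^ j * μ < 1 - q ^ v := by linarith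
      obtain ⟨b, h6, h7⟩ := exists_between h5
      exact ⟨b, by linarith, Or.inl h7, by linarith⟩
  obtain ⟨μ', hμ'1, hμ'2⟩ : ∃ μ', (1 - b) / 2 ^ j < μ' ∧ μ' < μ := exists_between (by
    rw [div_lt_iff₀ h2]
    linarith)
  have hg' := general (PowSums k u W) (1 - q ^ u - (μ - μ')) (many_pw k hk W hW u _ (Or.inl (by rw [← hqd]; linarith))) r c hc g C hg j d h
    hd hh b hb0 (by
      have h3 : μ' ≤ min (1 / c (Fin.last r)) (1 - q ^ u - (μ - μ') + ∑ i, 1 / c i - 1) := by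
        have h4 : μ ≤ 1 / c (Fin.last r) := by rw [hμ]; exact min_le_left _ _
        have h5 : μ ≤ ∑ i, 1 / c i - q ^ u := by rw [hμ]; exact min_le_right _ _
        apply le_min
        · linarith
        · linarith
      rw [div_lt_iff₀ h2] at hμ'1
      have h4 := mul_le_mul_of_nonneg_left h3 h2.le
      linarith)
  refine Generic.mono _ (fun α hα => Generic.mono _ (fun β hβ => ?_) hα) hg'
  filter_upwards [hβ _ (many_pw k hk W hW v b (by rw [← hqd]; exact hbv))] with n hn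
  obtain ⟨s, ⟨x, hx, hs⟩, t, ⟨x', hx', ht⟩, y, z, hy, hz, h6⟩ := hn
  refine ⟨Fin.append x x', y, z, ?_, hy, hz, ?_⟩
  · intro i
    refine Fin.addCases (fun i => ?_) (fun i => ?_) i
    · rw [Fin.append_left]; exact hx i
    · rw [Fin.append_right]; exact hx' i
  have e : ∑ i, ((Fin.append x x' i : ℕ) : ℤ) ^ k = s + t := by
    rw [Fin.sum_univ_add, hs, ht]
    push_cast
    congr 1
    · exact Finset.sum_congr rfl fun i _ => by rw [Fin.append_left]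
    · exact Finset.sum_congr rfl fun i _ => by rw [Fin.append_right]
  rw [e, h6]

lemma rpow_nat_sub (k : ℕ) (hk : 1 ≤ k) (y : ℕ) : ((y : ℝ) + 1) ^ ((k : ℝ) - 1) = ((y : ℝ) + 1) ^ (k - 1) := by
  rw [← Real.rpow_natCast, Nat.cast_sub hk, Nat.cast_one]

lemma smaller_pow (k : ℕ) (hk : 1 ≤ k) (h : ℕ → ℝ) (C : ℝ) (hh : ∀ y : ℕ, |h y| ≤ C * ((y : ℝ) + 1) ^ (k - 1)) :
    Smaller h fun y => (y : ℝ) ^ k := by
  intro ε hε
  have hC : 0 ≤ C := by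
    have h1 := hh 0
    simp only [Nat.cast_zero, zero_add, one_pow, mul_one] at h1
    exact (abs_nonneg _).trans h1
  filter_upwards [tendsto_natCast_atTop_atTop.eventually_ge_atTop (C * 2 ^ (k - 1) / ε), eventually_ge_atTop 1] with y h1 h2
  have hy1 : (1 : ℝ) ≤ y := by exact_mod_cast h2
  have hy0 : (0 : ℝ) < y := by linarith
  rw [div_le_iff₀ hε] at h1
  have h3 : ((y : ℝ) + 1) ^ (k - 1) ≤ (2 * y) ^ (k - 1) := pow_le_pow_left₀ (by positivity) (by linarith) _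
  have e : (y : ℝ) ^ k = (y : ℝ) ^ (k - 1) * y := by
    rw [← pow_succ]
    congr 1
    omega
  have hyk : 0 < (y : ℝ) ^ (k - 1) := by positivity
  rw [abs_of_nonneg (show (0 : ℝ) ≤ (y : ℝ) ^ k by positivity), e]
  calc |h y| ≤ C * ((y : ℝ) + 1) ^ (k - 1) := hh y
    _ ≤ C * (2 * y) ^ (k - 1) := mul_le_mul_of_nonneg_left h3 hC
    _ = C * 2 ^ (k - 1) * (y : ℝ) ^ (k - 1) := by rw [mul_pow]; ring
    _ ≤ (y * ε) * (y : ℝ) ^ (k - 1) := mul_le_mul_of_nonneg_right h1 hyk.le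
    _ = ε * ((y : ℝ) ^ (k - 1) * y) := by ring

/-- **Generic `k`-th powers.** -/
theorem uniform (k : ℕ) (hk : 1 ≤ k) (b : ℝ) (hb : 0 ≤ b) (C : ℝ) (j : ℕ) : ∀ (r : ℕ) (A : Set ℕ) (a : ℝ) (h : Fin (j + r + 1) → ℕ → ℝ),
    (∀ i (y : ℕ), |h i y| ≤ C * ((y : ℝ) + 1) ^ (k - 1)) → Many A a →
    1 - b < 2 ^ j * min (1 / (k : ℝ)) (a + ((r + 1 : ℕ) : ℝ) / k - 1) →
    Generic (j + r + 1) fun α => ∀ B : Set ℕ, Many B b → ∀ᶠ n : ℕ in atTop, ∃ t ∈ B,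
      ∃ m ∈ Sums (fun i (y : ℕ) => α i * (y : ℝ) ^ k + h i y) A, n = m + t := by
  have hk0 : (0 : ℝ) < k := by exact_mod_cast hk
  have hk1 : (1 : ℝ) ≤ k := by exact_mod_cast hk
  have h2 : (0 : ℝ) < 2 ^ j := by positivity
  have hlt : ∀ x : ℝ, 1 - b < 2 ^ j * min (1 / (k : ℝ)) x → (1 - b) / 2 ^ j < 1 / (k : ℝ) ∧ (1 - b) / 2 ^ j < x := by
    intro x hx
    have h3 : (1 - b) / 2 ^ j < min (1 / (k : ℝ)) x := by
      rw [div_lt_iff₀ h2]
      linarith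
    exact ⟨h3.trans_le (min_le_left _ _), h3.trans_le (min_le_right _ _)⟩
  have hlt' : ∀ x : ℝ, (1 - b) / 2 ^ j < 1 / (k : ℝ) → (1 - b) / 2 ^ j < x → 1 - b < 2 ^ j * min (1 / (k : ℝ)) x := by
    intro x h3 h4
    have h5 := lt_min h3 h4
    rw [div_lt_iff₀ h2] at h5
    linarith
  intro r
  induction r with
  | zero =>
    intro A a h hh hA hab
    obtain ⟨h3, h4⟩ := hlt _ hab
    have h5 : (1 - b) / 2 ^ j < min (1 / (k : ℝ)) (a + 1 / k - 1) := by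
      apply lt_min h3
      simpa using h4
    obtain ⟨ν, hν1, hν2⟩ := exists_between h5
    have hν3 := hν2.trans_le (min_le_left _ _)
    have hν4 := hν2.trans_le (min_le_right _ _)
    have hν5 : 1 / (k : ℝ) ≤ 1 := by rw [div_le_one hk0]; exact hk1
    obtain ⟨E, hE1, hE2⟩ := few_plus A a k hk1 hA (h 0) C (fun y => by rw [rpow_nat_sub k hk]; exact hh 0 y) (1 - ν) (by linarith)
    refine ⟨E, hE1, fun α hα hαE => ?_⟩
    have h6 := hE2 α hα hαE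
    simp only [Real.rpow_natCast] at h6
    have h7 := dbl_all b hb j (Plus (fun y => α * (y : ℝ) ^ k + h 0 y) A) (fun _ (y : ℕ) => (y : ℝ) ^ k) (fun i => h i.succ) (1 - ν)
      (fun _ => noGaps_pow k hk) (fun i => smaller_pow k hk _ C (hh _)) (by linarith) h6 (Or.inr (by
        rw [div_lt_iff₀ h2] at hν1
        linarith))
    refine Generic.mono _ (fun β hβ B hB => ?_) h7
    filter_upwards [hβ B hB] with n hn
    obtain ⟨t, ht, m, hm, hn⟩ := hn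
    exact ⟨t, ht, m, sums_cons (fun i (y : ℕ) => (Fin.cons α β : Fin (j + 0 + 1) → ℝ) i * (y : ℝ) ^ k + h i y) A hm, hn⟩
  | succ r ih =>
    intro A a h hh hA hab
    obtain ⟨h3, h4⟩ := hlt _ hab
    push_cast at h4
    have hr : (1 : ℝ) / k ≤ ((r + 1 : ℕ) : ℝ) / k := by
      apply div_le_div_of_nonneg_right _ hk0.le
      push_cast
      linarith [Nat.cast_nonneg (α := ℝ) r]
    have er : ((r : ℝ) + 1 + 1) / k = ((r + 1 : ℕ) : ℝ) / k + 1 / k := by push_cast; ring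
    rw [er] at h4
    obtain ⟨a', ha1, ha2⟩ : ∃ a', (1 - b) / 2 ^ j + 1 - ((r + 1 : ℕ) : ℝ) / k < a' ∧ a' < min 1 (a + 1 / k) :=
      exists_between (lt_min (by linarith) (by linarith))
    obtain ⟨E, hE1, hE2⟩ := grow A a k hk1 hA (h 0) C (fun y => by rw [rpow_nat_sub k hk]; exact hh 0 y) a'
      (ha2.trans_le (min_le_left _ _)) (ha2.trans_le (min_le_right _ _))
    refine ⟨E, hE1, fun α hα hαE => ?_⟩
    have h6 := hE2 α hα hαE
    simp only [Real.rpow_natCast] at h6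
    have h7 := ih (Plus (fun y => α * (y : ℝ) ^ k + h 0 y) A) a' (fun i => h i.succ) (fun i y => hh _ y) h6 (hlt' _ h3 (by linarith))
    refine Generic.mono _ (fun β hβ B hB => ?_) h7
    filter_upwards [hβ B hB] with n hn
    obtain ⟨t, ht, m, hm, hn⟩ := hn
    exact ⟨t, ht, m, sums_cons (fun i (y : ℕ) => (Fin.cons α β : Fin (j + (r + 1) + 1) → ℝ) i * (y : ℝ) ^ k + h i y) A hm, hn⟩

/-- **Exact and generic `k`-th powers.** -/
theorem powers_uniform (k u v : ℕ) (hk : 2 ≤ k) (W : Set ℕ) (hW : ∀ ω : ℝ, ω < 1 → Thick W ω) (C : ℝ) (j r s : ℕ) (hs : s = j + r + 1)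
    (h : Fin s → ℕ → ℝ) (hh : ∀ i (y : ℕ), |h i y| ≤ C * ((y : ℝ) + 1) ^ (k - 1))
    (hq : (1 - 1 / (k : ℝ)) ^ v < 2 ^ j * min (1 / (k : ℝ)) (((r + 1 : ℕ) : ℝ) / k - (1 - 1 / (k : ℝ)) ^ u)) :
    Generic s fun α => ∀ᶠ n : ℕ in atTop, ∃ (x : Fin (u + v) → ℕ) (y : Fin s → ℕ), (∀ i, x i ∈ W) ∧ (∀ i, 0 < y i) ∧
      (n : ℤ) = ∑ i, (x i : ℤ) ^ k + ∑ i, ⌊α i * (y i : ℝ) ^ k + h i (y i)⌋ := by
  subst hs
  obtain ⟨hq0, hq1⟩ := q_pos k hk
  obtain ⟨q, hqd⟩ : ∃ q : ℝ, q = 1 - 1 / (k : ℝ) := ⟨_, rfl⟩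
  rw [← hqd] at hq0 hq1 hq
  have h2 : (0 : ℝ) < 2 ^ j := by positivity
  obtain ⟨μ, hμ⟩ : ∃ μ : ℝ, μ = min (1 / (k : ℝ)) (((r + 1 : ℕ) : ℝ) / k - q ^ u) := ⟨_, rfl⟩
  rw [← hμ] at hq
  have hv0 : 0 < q ^ v := by positivity
  have hμ0 : 0 < μ := by
    by_contra hcon
    push Not at hcon
    have : 2 ^ j * μ ≤ 0 := mul_nonpos_of_nonneg_of_nonpos h2.le hcon
    linarith
  obtain ⟨b, hb0, hbv, hb1⟩ : ∃ b : ℝ, 0 ≤ b ∧ (b < 1 - q ^ v ∨ b ≤ 0) ∧ 1 - b < 2 ^ j * μ := by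
    rcases le_or_gt (1 - 2 ^ j * μ) 0 with h3 | h3
    · rcases h3.lt_or_eq with h4 | h4
      · exact ⟨0, le_rfl, Or.inr le_rfl, by linarith⟩
      · have h5 : 0 < 1 - q ^ v := by linarith
        obtain ⟨b, h6, h7⟩ := exists_between h5
        exact ⟨b, h6.le, Or.inl h7, by linarith⟩
    · have h5 : 1 - 2 ^ j * μ < 1 - q ^ v := by linarith
      obtain ⟨b, h6, h7⟩ := exists_between h5
      exact ⟨b, by linarith, Or.inl h7, by linarith⟩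
  obtain ⟨μ', hμ'1, hμ'2⟩ : ∃ μ', (1 - b) / 2 ^ j < μ' ∧ μ' < μ := exists_between (by
    rw [div_lt_iff₀ h2]
    linarith)
  have hg' := uniform k (by omega) b hb0 C j r (PowSums k u W) (1 - q ^ u - (μ - μ')) h hh
    (many_pw k hk W hW u _ (Or.inl (by rw [← hqd]; linarith))) (by
      have h3 : μ' ≤ min (1 / (k : ℝ)) (1 - q ^ u - (μ - μ') + ((r + 1 : ℕ) : ℝ) / k - 1) := by
        have h4 : μ ≤ 1 / (k : ℝ) := by rw [hμ]; exact min_le_left _ _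
        have h5 : μ ≤ ((r + 1 : ℕ) : ℝ) / k - q ^ u := by rw [hμ]; exact min_le_right _ _
        apply le_min
        · linarith
        · linarith
      rw [div_lt_iff₀ h2] at hμ'1
      have h4 := mul_le_mul_of_nonneg_left h3 h2.le
      linarith)
  refine Generic.mono _ (fun α hα => ?_) hg'
  filter_upwards [hα _ (many_pw k hk W hW v b (by rw [← hqd]; exact hbv))] with n hn
  obtain ⟨t, ⟨x', hx', ht⟩, m, ⟨s, ⟨x, hx, hs⟩, y, hy, hm⟩, rfl⟩ := hn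
  refine ⟨Fin.append x x', y, ?_, hy, ?_⟩
  · intro i
    refine Fin.addCases (fun i => ?_) (fun i => ?_) i
    · rw [Fin.append_left]; exact hx i
    · rw [Fin.append_right]; exact hx' i
  have e : ∑ i, ((Fin.append x x' i : ℕ) : ℤ) ^ k = s + t := by
    rw [Fin.sum_univ_add, hs, ht]
    push_cast
    congr 1
    · exact Finset.sum_congr rfl fun i _ => by rw [Fin.append_left]
    · exact Finset.sum_congr rfl fun i _ => by rw [Fin.append_right]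
  rw [e]
  push_cast
  rw [hm]
  ring

end Pool.Agent.H96.WG
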