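import Pool.Agent.H96.WG.J

set_option autoImplicit false

/-! # The numbers of the terms -/

namespace Pool.Agent.H96.WG

open MeasureTheory Set Filter
open scoped NNReal ENNReal Topology

lemma second_order (m : ℕ) (x : ℝ) (hx : 0 ≤ x) : 1 + m * x + m * (m - 1) / 2 * x ^ 2 ≤ (1 + x) ^ m := by
  induction m with
  | zero => simp
  | succ m ih =>
    rw [pow_succ]
    have h1 : 0 ≤ 1 + x := by linarith
    have h2 := mul_le_mul_of_nonneg_right ih h1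
    refine le_trans ?_ h2
    push_cast
    rcases Nat.eq_zero_or_pos m with h | h
    · subst h
      norm_num
    · have h3 : (1 : ℝ) ≤ m := by exact_mod_cast h
      have h4 : 0 ≤ (m : ℝ) * (m - 1) / 2 * x ^ 2 * x := by
        have : 0 ≤ (m : ℝ) - 1 := by linarith
        positivity
      nlinarith

/-- `(1 - 1 / k) ^ (2 k - 2) < 1 / 4` -/
lemma quarter (k : ℕ) (hk : 3 ≤ k) : (1 - 1 / (k : ℝ)) ^ (2 * k - 2) < 1 / 4 := by
  obtain ⟨m, rfl⟩ : ∃ m, k = m + 1 := ⟨k - 1, by omega⟩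
  have hm2 : (2 : ℝ) ≤ m := by exact_mod_cast (by omega : 2 ≤ m)
  have hm0 : (0 : ℝ) < m := by linarith
  have e1 : 1 - 1 / (((m + 1 : ℕ) : ℝ)) = (1 + 1 / (m : ℝ))⁻¹ := by
    push_cast
    field_simp
    ring
  have e2 : 2 * (m + 1) - 2 = m * 2 := by omega
  rw [e1, e2, pow_mul, inv_pow]
  have h1 := second_order m (1 / m) (by positivity)
  have h2 : (9 / 4 : ℝ) ≤ (1 + 1 / (m : ℝ)) ^ m := by
    refine le_trans ?_ h1
    have e3 : 1 + (m : ℝ) * (1 / m) + m * (m - 1) / 2 * (1 / m) ^ 2 = 5 / 2 - 1 / (2 * m) := by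
      field_simp
      ring
    rw [e3]
    have h3 : 1 / (2 * (m : ℝ)) ≤ 1 / 4 := by
      apply one_div_le_one_div_of_le (by norm_num)
      linarith
    linarith
  have h3 : ((1 + 1 / (m : ℝ)) ^ m)⁻¹ ≤ 4 / 9 := by
    rw [show (4 / 9 : ℝ) = (9 / 4)⁻¹ by norm_num]
    exact inv_anti₀ (by norm_num) h2
  have h4 : 0 < ((1 + 1 / (m : ℝ)) ^ m)⁻¹ := by positivity
  calc (((1 + 1 / (m : ℝ)) ^ m)⁻¹) ^ 2 ≤ (4 / 9) ^ 2 := pow_le_pow_left₀ h4.le h3 _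
    _ < 1 / 4 := by norm_num

lemma exp_bound : Real.exp (-(11 / 6)) ≤ 1 / 6.1 := by
  have h1 : (6.1:ℝ) ≤ Real.exp (11 / 6) := by
    apply le_of_pow_le_pow_left₀ (n := 6) (by norm_num) (Real.exp_pos _).le
    have e1 : Real.exp (11 / 6) ^ 6 = Real.exp 1 ^ 11 := by
      rw [← Real.exp_nat_mul, ← Real.exp_nat_mul]
      congr 1
      norm_num
    rw [e1]
    have h2 := Real.exp_one_gt_d9
    calc (6.1:ℝ) ^ 6 ≤ 2.7182818283 ^ 11 := by norm_num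
      _ ≤ Real.exp 1 ^ 11 := pow_le_pow_left₀ (by norm_num) h2.le _
  rw [Real.exp_neg, one_div]
  exact inv_anti₀ (by norm_num) h1

/-- the numbers of the terms for large `k` (the computation of `MP_efcac8_nt.FewShifts` in the library) -/
lemma large : ∀ᶠ k : ℕ in atTop, ∃ j r : ℕ, k / 6 = j + r + 1 ∧
    1 < (2:ℝ) ^ j * min (1 / (k:ℝ)) (((r + 1 : ℕ) : ℝ) / k - (1 - 1 / (k:ℝ)) ^ (2 * k + 1 - k / 6)) := by
  have hlog : ∀ᶠ k : ℕ in atTop, (Nat.log 2 k : ℝ) ≤ 1 / 1000 * k := by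
    have h1 : ∀ᶠ x : ℝ in atTop, ‖Real.log x‖ ≤ (1 / 1000 * Real.log 2) * ‖x‖ :=
      Real.isLittleO_log_id_atTop.def (by have := Real.log_pos one_lt_two; positivity)
    filter_upwards [tendsto_natCast_atTop_atTop.eventually h1, eventually_ge_atTop 1] with k h2 h3
    have hl2 := Real.log_pos one_lt_two
    have hk1 : (1:ℝ) ≤ k := by exact_mod_cast h3
    rw [Real.norm_of_nonneg (Real.log_nonneg hk1), Real.norm_of_nonneg (by linarith)] at h2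
    have h4 : (Nat.log 2 k : ℝ) ≤ Real.logb 2 k := Real.natLog_le_logb k 2
    refine h4.trans ?_
    rw [Real.logb, div_le_iff₀ hl2]
    linarith
  filter_upwards [hlog, eventually_ge_atTop 10000] with k h1 h2
  have hk0 : (0:ℝ) < k := by exact_mod_cast (by omega : 0 < k)
  have hk4 : (10000:ℝ) ≤ k := by exact_mod_cast h2
  obtain ⟨j, hj⟩ : ∃ j, j = Nat.log 2 k + 1 := ⟨_, rfl⟩
  have hq : (k:ℝ) / 6 - 1 ≤ ((k / 6 : ℕ) : ℝ) := by
    have h3 : k < 6 * (k / 6 + 1) := by omega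
    have h4 : (k:ℝ) < 6 * (((k / 6 : ℕ) : ℝ) + 1) := by exact_mod_cast h3
    linarith
  have hjq : (j:ℝ) + 1 ≤ ((k / 6 : ℕ) : ℝ) := by
    rw [hj]
    push_cast
    linarith
  have hjq' : j + 1 ≤ k / 6 := by exact_mod_cast hjq
  obtain ⟨r, hr⟩ : ∃ r, k / 6 = j + r + 1 := ⟨k / 6 - j - 1, by omega⟩
  refine ⟨j, r, hr, ?_⟩
  have hu : 11 * k ≤ 6 * (2 * k + 1 - k / 6) := by omega
  have hrr : (k:ℝ) / 6 - 1 - (1 / 1000 * k + 1) ≤ ((r + 1 : ℕ) : ℝ) := by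
    have h3 : ((k / 6 : ℕ) : ℝ) = j + ((r + 1 : ℕ) : ℝ) := by
      rw [hr]
      push_cast
      ring
    have h4 : (j:ℝ) = (Nat.log 2 k : ℝ) + 1 := by rw [hj]; push_cast; ring
    linarith
  have h2j : (k:ℝ) < 2 ^ j := by
    rw [hj]
    exact_mod_cast Nat.lt_pow_succ_log_self (by norm_num) k
  have hpow : (1 - 1 / (k:ℝ)) ^ (2 * k + 1 - k / 6) ≤ 1 / 6.1 := by
    have h3 : 1 - 1 / (k:ℝ) ≤ Real.exp (-(1 / (k:ℝ))) := by
      have := Real.add_one_le_exp (-(1 / (k:ℝ)))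
      linarith
    have h4 : 0 ≤ 1 - 1 / (k:ℝ) := by
      rw [sub_nonneg, div_le_one hk0]
      linarith
    calc (1 - 1 / (k:ℝ)) ^ (2 * k + 1 - k / 6) ≤ Real.exp (-(1 / (k:ℝ))) ^ (2 * k + 1 - k / 6) := pow_le_pow_left₀ h4 h3 _
      _ = Real.exp (((2 * k + 1 - k / 6 : ℕ) : ℝ) * (-(1 / (k:ℝ)))) := by rw [Real.exp_nat_mul]
      _ ≤ Real.exp (-(11 / 6)) := by
          apply Real.exp_le_exp.2
          have h5 : (11:ℝ) * k ≤ 6 * ((2 * k + 1 - k / 6 : ℕ) : ℝ) := by exact_mod_cast hu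
          have h6 : (11:ℝ) / 6 ≤ ((2 * k + 1 - k / 6 : ℕ) : ℝ) * (1 / (k:ℝ)) := by
            rw [mul_one_div, div_le_div_iff₀ (by norm_num) hk0]
            linarith
          linarith
      _ ≤ _ := exp_bound
  have h3 : 1 / (k:ℝ) ≤ ((r + 1 : ℕ) : ℝ) / k - (1 - 1 / (k:ℝ)) ^ (2 * k + 1 - k / 6) := by
    have h4 : 1 / (k:ℝ) + 1 / 6.1 ≤ ((r + 1 : ℕ) : ℝ) / k := by
      rw [le_div_iff₀ hk0]
      have h5 : (1 / (k:ℝ) + 1 / 6.1) * k = 1 + k / 6.1 := by field_simp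
      rw [h5]
      norm_num at hrr ⊢
      linarith
    linarith
  rw [min_eq_left h3, mul_one_div, lt_div_iff₀ hk0, one_mul]
  exact h2j

end Pool.Agent.H96.WG
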